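import Mathlib

/-!
# Products of linear forms at a point of large height

Proof. Write `N i = d₀ * k i + θ₀ * l i`. The equation says `P d₀² + Q d₀ θ₀ + R θ₀² = 0` with
`P = D 2 D 3 k 0 k 1 - D 0 D 1 k 2 k 3`, `R = D 2 D 3 l 0 l 1 - D 0 D 1 l 2 l 3`,
`Q = D 2 D 3 (k 0 l 1 + l 0 k 1) - D 0 D 1 (k 2 l 3 + l 2 k 3)`, so `|P|, |R| ≤ 2 U ^ 4`, `|Q| ≤ 4 U ^ 4`. As
`d₀, θ₀` are coprime, `d₀ ∣ R` and `θ₀ ∣ P`. If `d₀ > 4 U ^ 4`: `R = 0` (`Int.eq_zero_of_abs_lt_dvd`), then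
`P d₀ + Q θ₀ = 0`, so `d₀ ∣ Q`, `Q = 0`, `P = 0`. If `|θ₀| > 4 U ^ 4`: `P = 0`, then `Q d₀ + R θ₀ = 0`, `θ₀ ∣ Q`,
`Q = 0`, `R = 0`. Hence for all integers `s, t`:
`D 2 D 3 (k 0 s + l 0 t) (k 1 s + l 1 t) = D 0 D 1 (k 2 s + l 2 t) (k 3 s + l 3 t)` (*).
Write `cr i j = k i * l j - l i * k j`; all vectors `(k i, l i)` are nonzero because `N i > 0`. (*) at
`(s, t) = (l 0, - k 0)` gives `cr 0 2 = 0` or `cr 0 3 = 0`. Suppose `cr 0 2 = 0`. Then `cr 1 3 = 0`: (*) at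
`(l 1, - k 1)` gives `cr 1 2 = 0` or `cr 1 3 = 0`; if `cr 1 2 = 0`, then vectors 0, 1, 2 are parallel, and (*)
at `(l 3, - k 3)` gives `cr 0 3 = 0` or `cr 1 3 = 0`; in the first case `cr 1 3 = 0` too (1 is parallel to 0,
which is nonzero and parallel to 3). In the same way `cr 0 3 = 0` implies `cr 1 2 = 0`.
-/

set_option autoImplicit false

namespace Pool.Agent.Lib.SAP

namespace ParAux

/-- parallelism is transitive through a nonzero vector -/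
lemma par_trans {a1 a2 b1 b2 c1 c2 : ℤ} (hb : b1 ≠ 0 ∨ b2 ≠ 0) (h1 : a1 * b2 = a2 * b1)
    (h2 : b1 * c2 = b2 * c1) : a1 * c2 = a2 * c1 := by
  rcases hb with hb | hb
  · have : b1 * (a1 * c2 - a2 * c1) = 0 := by linear_combination a1 * h2 + c1 * h1
    rcases mul_eq_zero.1 this with h | h
    · exact absurd h hb
    · linarith
  · have : b2 * (a1 * c2 - a2 * c1) = 0 := by linear_combination a2 * h2 + c2 * h1
    rcases mul_eq_zero.1 this with h | h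
    · exact absurd h hb
    · linarith

/-- the algebraic part -/
lemma split (D k l : Fin 4 → ℤ) (hD : ∀ i, 0 < D i) (hne : ∀ i, k i ≠ 0 ∨ l i ≠ 0)
    (hP : D 2 * D 3 * (k 0 * k 1) = D 0 * D 1 * (k 2 * k 3))
    (hQ : D 2 * D 3 * (k 0 * l 1 + l 0 * k 1) = D 0 * D 1 * (k 2 * l 3 + l 2 * k 3))
    (hR : D 2 * D 3 * (l 0 * l 1) = D 0 * D 1 * (l 2 * l 3)) :
    (k 0 * l 2 = l 0 * k 2 ∧ k 1 * l 3 = l 1 * k 3) ∨
      (k 0 * l 3 = l 0 * k 3 ∧ k 1 * l 2 = l 1 * k 2) := by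
  have star : ∀ s t : ℤ, D 2 * D 3 * ((k 0 * s + l 0 * t) * (k 1 * s + l 1 * t)) =
      D 0 * D 1 * ((k 2 * s + l 2 * t) * (k 3 * s + l 3 * t)) := by
    intro s t
    linear_combination s ^ 2 * hP + s * t * hQ + t ^ 2 * hR
  have h01 : D 0 * D 1 ≠ 0 := (mul_pos (hD 0) (hD 1)).ne'
  have h23 : D 2 * D 3 ≠ 0 := (mul_pos (hD 2) (hD 3)).ne'
  -- evaluation at the vectors 0, 1, 3, 2
  have e0 : k 0 * l 2 = l 0 * k 2 ∨ k 0 * l 3 = l 0 * k 3 := by
    have h := star (l 0) (-k 0)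
    have h' : D 0 * D 1 * ((k 0 * l 2 - l 0 * k 2) * (k 0 * l 3 - l 0 * k 3)) = 0 := by
      linear_combination -h
    rcases mul_eq_zero.1 h' with h | h
    · exact absurd h h01
    · rcases mul_eq_zero.1 h with h | h
      · left; linarith
      · right; linarith
  have e1 : k 1 * l 2 = l 1 * k 2 ∨ k 1 * l 3 = l 1 * k 3 := by
    have h := star (l 1) (-k 1)
    have h' : D 0 * D 1 * ((k 1 * l 2 - l 1 * k 2) * (k 1 * l 3 - l 1 * k 3)) = 0 := by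
      linear_combination -h
    rcases mul_eq_zero.1 h' with h | h
    · exact absurd h h01
    · rcases mul_eq_zero.1 h with h | h
      · left; linarith
      · right; linarith
  have e3 : k 0 * l 3 = l 0 * k 3 ∨ k 1 * l 3 = l 1 * k 3 := by
    have h := star (l 3) (-k 3)
    have h' : D 2 * D 3 * ((k 0 * l 3 - l 0 * k 3) * (k 1 * l 3 - l 1 * k 3)) = 0 := by
      linear_combination h
    rcases mul_eq_zero.1 h' with h | h
    · exact absurd h h23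
    · rcases mul_eq_zero.1 h with h | h
      · left; linarith
      · right; linarith
  have e2 : k 0 * l 2 = l 0 * k 2 ∨ k 1 * l 2 = l 1 * k 2 := by
    have h := star (l 2) (-k 2)
    have h' : D 2 * D 3 * ((k 0 * l 2 - l 0 * k 2) * (k 1 * l 2 - l 1 * k 2)) = 0 := by
      linear_combination h
    rcases mul_eq_zero.1 h' with h | h
    · exact absurd h h23
    · rcases mul_eq_zero.1 h with h | h
      · left; linarith
      · right; linarith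
  rcases e0 with h02 | h03
  · left
    refine ⟨h02, ?_⟩
    rcases e1 with h12 | h13
    · rcases e3 with h03 | h13
      · -- 1 parallel 2 parallel 0 parallel 3
        have h10 : k 1 * l 0 = l 1 * k 0 := par_trans (hne 2) h12 (by linarith)
        exact par_trans (hne 0) h10 h03
      · exact h13
    · exact h13
  · right
    refine ⟨h03, ?_⟩
    rcases e1 with h12 | h13
    · exact h12
    · rcases e2 with h02 | h12
      · have h10 : k 1 * l 0 = l 1 * k 0 := par_trans (hne 3) h13 (by linarith)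
        exact par_trans (hne 0) h10 h02
      · exact h12

/-- a product of four numbers bounded by `U` -/
lemma mul4 {U a b c d : ℤ} (ha : |a| ≤ U) (hb : |b| ≤ U) (hc : |c| ≤ U) (hd : |d| ≤ U) :
    |a * b * (c * d)| ≤ U ^ 4 := by
  have hU : 0 ≤ U := le_trans (abs_nonneg a) ha
  rw [abs_mul, abs_mul, abs_mul]
  calc |a| * |b| * (|c| * |d|) ≤ U * U * (U * U) := by
        apply mul_le_mul (mul_le_mul ha hb (abs_nonneg _) hU)
          (mul_le_mul hc hd (abs_nonneg _) hU) (by positivity) (by positivity)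
    _ = U ^ 4 := by ring

/-- coprime elimination: large leading coefficient -/
lemma elim {d t P Q R V : ℤ} (hcop : IsCoprime d t) (hd : d ≠ 0) (hV : V < |d|)
    (hQ : |Q| ≤ V) (hR : |R| ≤ V) (h : P * d ^ 2 + Q * (d * t) + R * t ^ 2 = 0) :
    P = 0 ∧ Q = 0 ∧ R = 0 := by
  have hcop2 : IsCoprime d (t ^ 2) := hcop.pow_right
  have h1 : d ∣ R * t ^ 2 := ⟨-(P * d + Q * t), by linear_combination h⟩
  have h2 : d ∣ R := hcop2.dvd_of_dvd_mul_right h1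
  have hR0 : R = 0 := by
    apply Int.eq_zero_of_abs_lt_dvd ((abs_dvd d R).2 h2)
    linarith
  subst hR0
  have h3 : d * (P * d + Q * t) = 0 := by linear_combination h
  have h4 : P * d + Q * t = 0 := by
    rcases mul_eq_zero.1 h3 with h | h
    · exact absurd h hd
    · exact h
  have h5 : d ∣ Q * t := ⟨-P, by linear_combination h4⟩
  have h6 : d ∣ Q := hcop.dvd_of_dvd_mul_right h5
  have hQ0 : Q = 0 := by
    apply Int.eq_zero_of_abs_lt_dvd ((abs_dvd d Q).2 h6)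
    linarith
  subst hQ0
  have h7 : P * d = 0 := by linear_combination h4
  rcases mul_eq_zero.1 h7 with h | h
  · exact ⟨h, rfl, rfl⟩
  · exact absurd h hd

end ParAux

open ParAux in
theorem par (d₀ θ₀ : ℤ) (hcop : IsCoprime d₀ θ₀) (hd₀ : 0 < d₀) (U : ℕ)
    (hbig : 4 * (U : ℤ) ^ 4 < d₀ ∨ 4 * (U : ℤ) ^ 4 < |θ₀|) (D k l : Fin 4 → ℤ)
    (hD : ∀ i, 0 < D i ∧ D i ≤ U) (hk : ∀ i, |k i| ≤ U) (hl : ∀ i, |l i| ≤ U)
    (hN : ∀ i, 0 < d₀ * k i + θ₀ * l i)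
    (h : D 2 * D 3 * ((d₀ * k 0 + θ₀ * l 0) * (d₀ * k 1 + θ₀ * l 1)) =
      D 0 * D 1 * ((d₀ * k 2 + θ₀ * l 2) * (d₀ * k 3 + θ₀ * l 3))) :
    (k 0 * l 2 = l 0 * k 2 ∧ k 1 * l 3 = l 1 * k 3) ∨
      (k 0 * l 3 = l 0 * k 3 ∧ k 1 * l 2 = l 1 * k 2) := by
  have hDU : ∀ i, |D i| ≤ (U : ℤ) := fun i => by
    rw [abs_of_pos (hD i).1]; exact (hD i).2
  have hne : ∀ i, k i ≠ 0 ∨ l i ≠ 0 := by
    intro i
    by_contra hc
    push Not at hc
    have := hN i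
    rw [hc.1, hc.2] at this
    simp at this
  have bb : ∀ a b c d e f g j : Fin 4, ∀ x y z w : Fin 4 → ℤ, (∀ i, |x i| ≤ (U : ℤ)) →
      (∀ i, |y i| ≤ (U : ℤ)) → (∀ i, |z i| ≤ (U : ℤ)) → (∀ i, |w i| ≤ (U : ℤ)) →
      |D a * D b * (x c * y d) - D e * D f * (z g * w j)| ≤ 2 * (U : ℤ) ^ 4 := by
    intro a b c d e f g j x y z w hx hy hz hw
    have h1 := mul4 (hDU a) (hDU b) (hx c) (hy d)
    have h2 := mul4 (hDU e) (hDU f) (hz g) (hw j)
    have h3 := abs_sub (D a * D b * (x c * y d)) (D e * D f * (z g * w j))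
    linarith
  obtain ⟨P, hPdef⟩ : ∃ P, P = D 2 * D 3 * (k 0 * k 1) - D 0 * D 1 * (k 2 * k 3) := ⟨_, rfl⟩
  obtain ⟨R, hRdef⟩ : ∃ R, R = D 2 * D 3 * (l 0 * l 1) - D 0 * D 1 * (l 2 * l 3) := ⟨_, rfl⟩
  obtain ⟨Q, hQdef⟩ : ∃ Q, Q = D 2 * D 3 * (k 0 * l 1 + l 0 * k 1) -
      D 0 * D 1 * (k 2 * l 3 + l 2 * k 3) := ⟨_, rfl⟩
  have hU4 : 0 ≤ (U : ℤ) ^ 4 := by positivity
  have hPb : |P| ≤ 4 * (U : ℤ) ^ 4 := by
    have := bb 2 3 0 1 0 1 2 3 k k k k hk hk hk hk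
    rw [hPdef]; linarith
  have hRb : |R| ≤ 4 * (U : ℤ) ^ 4 := by
    have := bb 2 3 0 1 0 1 2 3 l l l l hl hl hl hl
    rw [hRdef]; linarith
  have hQb : |Q| ≤ 4 * (U : ℤ) ^ 4 := by
    have h1 := bb 2 3 0 1 0 1 2 3 k l k l hk hl hk hl
    have h2 := bb 2 3 0 1 0 1 2 3 l k l k hl hk hl hk
    have h3 : Q = (D 2 * D 3 * (k 0 * l 1) - D 0 * D 1 * (k 2 * l 3)) +
        (D 2 * D 3 * (l 0 * k 1) - D 0 * D 1 * (l 2 * k 3)) := by
      rw [hQdef]; ring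
    have h4 := abs_add_le (D 2 * D 3 * (k 0 * l 1) - D 0 * D 1 * (k 2 * l 3))
      (D 2 * D 3 * (l 0 * k 1) - D 0 * D 1 * (l 2 * k 3))
    rw [h3]; linarith
  have hmain : P * d₀ ^ 2 + Q * (d₀ * θ₀) + R * θ₀ ^ 2 = 0 := by
    rw [hPdef, hQdef, hRdef]
    linear_combination h
  have hzero : P = 0 ∧ Q = 0 ∧ R = 0 := by
    rcases hbig with hb | hb
    · refine elim (V := 4 * (U : ℤ) ^ 4) hcop hd₀.ne' ?_ hQb hRb hmain
      rw [abs_of_pos hd₀]; exact hb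
    · have ht : θ₀ ≠ 0 := by
        intro h0
        rw [h0, abs_zero] at hb
        linarith
      have hmain' : R * θ₀ ^ 2 + Q * (θ₀ * d₀) + P * d₀ ^ 2 = 0 := by
        linear_combination hmain
      have := elim (V := 4 * (U : ℤ) ^ 4) hcop.symm ht hb hQb hPb hmain'
      exact ⟨this.2.2, this.2.1, this.1⟩
  obtain ⟨hP, hQ, hR⟩ := hzero
  refine split D k l (fun i => (hD i).1) hne ?_ ?_ ?_
  · rw [hP] at hPdef; linarith
  · rw [hQ] at hQdef; linarith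
  · rw [hR] at hRdef; linarith

end Pool.Agent.Lib.SAP
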