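import Pool.Agent.Lib.SAP.Frac
import Pool.Agent.Lib.SAP.Par

/-!
# Energy of a set of numbers `(d k + θ l) / D` with small `D`, `k`, `l`

Proof. We may assume `A` nonempty, so `U ≥ 1`. For `a ∈ A` choose `D, k, l` as in `hA` with `D > 0` (change
all signs otherwise). Let `g = gcd(d, θ) > 0`, `d = g d₀`, `θ = g θ₀`, `d₀`, `θ₀` coprime, and
`N a = d₀ k + θ₀ l`, so `D a * a = g * N a` and `N a > 0`.

Case 1: `d₀ ≤ 4 U ^ 4` and `|θ₀| ≤ 4 U ^ 4`. Then `0 < N a ≤ 8 U ^ 5`. `quads_label` with a constant label,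
`W = g`, `N`, `D`, the bound `8 U ^ 5` gives `emul A ≤ A.card ^ 2 * T ^ 8`.

Case 2: `d₀ > 4 U ^ 4` or `|θ₀| > 4 U ^ 4`. Let `h a = gcd(k a, l a) > 0` and
`π a = (k a / h a, l a / h a) : ℤ × ℤ`, `W w = g * (d₀ * w.1 + θ₀ * w.2)`. So
`D a * a = W (π a) * h a`, `W (π a) > 0`, `h a ≤ U` (if `k a ≠ 0`, `h a ∣ k a`; otherwise `h a = |l a|`).
If `k a * l c = l a * k c` for `a, c ∈ A` then `π a = π c`: the primitive vectors are equal up to sign, and equal
since `W (π a), W (π c) > 0`. Let `Q₁` be the set of `((a, b), (c, e)) ∈ quads A` with `π a = π c`,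
`π b = π e`: `Q₁.card ≤ A.card ^ 2 * T ^ 8` by `quads_label` with the bound `U ≤ 8 U ^ 5`. By `par` every
element of `quads A` is in `Q₁` or is mapped into `Q₁` by the injective map
`((a, b), (c, e)) ↦ ((a, b), (e, c))`. (The hypothesis of `par`: `a b = c e`, `D_a a = g N_a`, ..., cancel `g ^ 2`
and `a b > 0`: `D_c D_e N_a N_b g² = D_c D_e D_a D_b a b = D_a D_b D_c D_e c e = D_a D_b N_c N_e g²`.)
-/

set_option autoImplicit false

namespace Pool.Agent.Lib.SAP

open Finset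

namespace AstarAux

theorem prim_par {α β γ δ : ℤ} (h1 : IsCoprime α β) (h2 : IsCoprime γ δ) (h : α * δ = β * γ) :
    (α = γ ∧ β = δ) ∨ (α = -γ ∧ β = -δ) := by
  have d1 : α ∣ γ := h1.dvd_of_dvd_mul_left (Dvd.intro _ h)
  have d2 : γ ∣ α := h2.dvd_of_dvd_mul_right (Dvd.intro_left _ h.symm)
  by_cases hγ : γ = 0
  · subst hγ
    have hα : α = 0 := zero_dvd_iff.1 d2
    subst hα
    have hβ : IsUnit β := isCoprime_zero_left.1 h1
    have hδ : IsUnit δ := isCoprime_zero_left.1 h2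
    rcases Int.isUnit_iff.1 hβ with h3 | h3 <;> rcases Int.isUnit_iff.1 hδ with h4 | h4 <;>
      subst h3 <;> subst h4 <;> simp
  · have h3 : α.natAbs = γ.natAbs := Nat.dvd_antisymm (Int.natAbs_dvd_natAbs.2 d1)
      (Int.natAbs_dvd_natAbs.2 d2)
    rcases Int.natAbs_eq_natAbs_iff.1 h3 with h4 | h4
    · left
      refine ⟨h4, ?_⟩
      rw [h4, mul_comm β] at h
      exact (mul_left_cancel₀ hγ h).symm
    · right
      refine ⟨h4, ?_⟩
      rw [h4] at h
      have : γ * (-δ) = γ * β := by linarith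
      exact (mul_left_cancel₀ hγ this).symm

end AstarAux

open AstarAux

theorem emul_astar (A : Finset ℤ) (hpos : ∀ a ∈ A, 0 < a) (d θ : ℤ) (hd : 0 < d) (U T : ℕ)
    (hA : ∀ a ∈ A, ∃ D k l : ℤ, D ≠ 0 ∧ |D| ≤ U ∧ |k| ≤ U ∧ |l| ≤ U ∧ D * a = d * k + θ * l)
    (hT : ∀ n : ℕ, 1 ≤ n → n ≤ 8 * U ^ 5 → n.divisors.card ≤ T) :
    emul A ≤ 2 * A.card ^ 2 * T ^ 8 := by
  classical
  rcases A.eq_empty_or_nonempty with rfl | hne
  · simp [emul, quads]
  have hA' : ∀ a ∈ A, ∃ D k l : ℤ, (0 < D ∧ D ≤ U) ∧ |k| ≤ U ∧ |l| ≤ U ∧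
      D * a = d * k + θ * l := by
    intro a ha
    obtain ⟨D, k, l, h1, h2, h3, h4, h5⟩ := hA a ha
    rcases lt_or_gt_of_ne h1 with h6 | h6
    · refine ⟨-D, -k, -l, ⟨by linarith, ?_⟩, by rwa [abs_neg], by rwa [abs_neg], by linarith⟩
      rw [abs_of_neg h6] at h2
      exact h2
    · rw [abs_of_pos h6] at h2
      exact ⟨D, k, l, ⟨h6, h2⟩, h3, h4, h5⟩
  choose! D k l hD hk hl heq using hA'
  obtain ⟨a₀, ha₀⟩ := hne
  have hU : 1 ≤ U := by
    have h1 := hD a₀ ha₀
    have : (0 : ℤ) < U := by linarith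
    exact_mod_cast this
  have hUr : (1 : ℤ) ≤ U := by exact_mod_cast hU
  have hUle : U ≤ 8 * U ^ 5 := by
    have h1 : U ^ 1 ≤ U ^ 5 := Nat.pow_le_pow_right hU (by norm_num)
    rw [pow_one] at h1
    omega
  have hgpos : 0 < Int.gcd d θ := Int.gcd_pos_of_ne_zero_left _ hd.ne'
  obtain ⟨d₀, θ₀, hcop, hd0, hθ0⟩ := Int.exists_gcd_one hgpos
  set g : ℤ := (Int.gcd d θ : ℤ) with hg
  have hgp : 0 < g := by rw [hg]; exact_mod_cast hgpos
  have hcop' : IsCoprime d₀ θ₀ := Int.isCoprime_iff_gcd_eq_one.2 hcop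
  have hd₀ : 0 < d₀ := by
    by_contra hc
    push Not at hc
    have : d₀ * g ≤ 0 := mul_nonpos_of_nonpos_of_nonneg hc hgp.le
    linarith
  have hDN : ∀ a ∈ A, D a * a = g * (d₀ * k a + θ₀ * l a) := by
    intro a ha
    rw [heq a ha]
    calc d * k a + θ * l a = d₀ * g * k a + θ₀ * g * l a := by rw [← hd0, ← hθ0]
      _ = g * (d₀ * k a + θ₀ * l a) := by ring
  have hNpos : ∀ a ∈ A, 0 < d₀ * k a + θ₀ * l a := by
    intro a ha
    have h1 : 0 < D a * a := mul_pos (hD a ha).1 (hpos a ha)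
    rw [hDN a ha] at h1
    exact (mul_pos_iff_of_pos_left hgp).1 h1
  by_cases hcase : d₀ ≤ 4 * (U : ℤ) ^ 4 ∧ |θ₀| ≤ 4 * (U : ℤ) ^ 4
  · -- case 1
    have hmain := quads_label (κ := Unit) A hpos (fun _ => ()) (fun _ => g) (fun _ _ => hgp)
      (fun a => d₀ * k a + θ₀ * l a) D (8 * U ^ 5) T (fun a ha => ⟨hNpos a ha, by
        have h1 : d₀ * k a ≤ 4 * (U : ℤ) ^ 4 * U := by
          calc d₀ * k a ≤ d₀ * |k a| := mul_le_mul_of_nonneg_left (le_abs_self _) hd₀.le
            _ ≤ 4 * (U : ℤ) ^ 4 * U := mul_le_mul hcase.1 (hk a ha) (abs_nonneg _) (by positivity)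
        have h2 : θ₀ * l a ≤ 4 * (U : ℤ) ^ 4 * U := by
          calc θ₀ * l a ≤ |θ₀ * l a| := le_abs_self _
            _ = |θ₀| * |l a| := abs_mul _ _
            _ ≤ 4 * (U : ℤ) ^ 4 * U := mul_le_mul hcase.2 (hl a ha) (abs_nonneg _) (by positivity)
        have h3 : (4 * (U : ℤ) ^ 4 * U) = 4 * (U : ℤ) ^ 5 := by ring
        push_cast
        linarith⟩) (fun a ha => ⟨(hD a ha).1, by
        have h1 := (hD a ha).2
        have h2 : (U : ℤ) ≤ ((8 * U ^ 5 : ℕ) : ℤ) := by exact_mod_cast hUle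
        linarith⟩) (fun a ha => hDN a ha) hT
    have h1 : (quads A).filter (fun t : (ℤ × ℤ) × (ℤ × ℤ) =>
        (fun _ : ℤ => ()) t.1.1 = (fun _ : ℤ => ()) t.2.1 ∧
        (fun _ : ℤ => ()) t.1.2 = (fun _ : ℤ => ()) t.2.2) = quads A :=
      Finset.filter_true_of_mem (fun _ _ => ⟨rfl, rfl⟩)
    rw [h1] at hmain
    unfold emul
    calc (quads A).card ≤ A.card ^ 2 * T ^ 8 := hmain
      _ ≤ 2 * A.card ^ 2 * T ^ 8 := by
        rw [mul_assoc]
        omega
  · -- case 2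
    have hbig : 4 * (U : ℤ) ^ 4 < d₀ ∨ 4 * (U : ℤ) ^ 4 < |θ₀| := by
      by_contra hc
      push Not at hc
      exact hcase hc
    have hex : ∀ a ∈ A, ∃ α β h : ℤ, 0 < h ∧ h ≤ U ∧ IsCoprime α β ∧ k a = α * h ∧
        l a = β * h := by
      intro a ha
      have hne : k a ≠ 0 ∨ l a ≠ 0 := by
        by_contra hc
        push Not at hc
        have := hNpos a ha
        rw [hc.1, hc.2] at this
        simp at this
      have hp : 0 < Int.gcd (k a) (l a) := by
        rcases hne with h | h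
        · exact Int.gcd_pos_of_ne_zero_left _ h
        · exact Int.gcd_pos_of_ne_zero_right _ h
      obtain ⟨α, β, hc, h1, h2⟩ := Int.exists_gcd_one hp
      refine ⟨α, β, (Int.gcd (k a) (l a) : ℤ), by exact_mod_cast hp, ?_,
        Int.isCoprime_iff_gcd_eq_one.2 hc, h1, h2⟩
      rcases hne with h | h
      · have h3 : ((Int.gcd (k a) (l a) : ℕ) : ℤ) ∣ |k a| :=
          (dvd_abs _ _).2 (Int.gcd_dvd_left _ _)
        exact (Int.le_of_dvd (abs_pos.2 h) h3).trans (hk a ha)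
      · have h3 : ((Int.gcd (k a) (l a) : ℕ) : ℤ) ∣ |l a| :=
          (dvd_abs _ _).2 (Int.gcd_dvd_right _ _)
        exact (Int.le_of_dvd (abs_pos.2 h) h3).trans (hl a ha)
    choose! α β h hh0 hhU hcp hkα hlβ using hex
    let π : ℤ → ℤ × ℤ := fun a => (α a, β a)
    let W : ℤ × ℤ → ℤ := fun w => g * (d₀ * w.1 + θ₀ * w.2)
    have hWh : ∀ a ∈ A, W (π a) * h a = g * (d₀ * k a + θ₀ * l a) := by
      intro a ha
      show g * (d₀ * α a + θ₀ * β a) * h a = _
      rw [hkα a ha, hlβ a ha]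
      ring
    have hWpos : ∀ a ∈ A, 0 < W (π a) := by
      intro a ha
      have h1 : 0 < W (π a) * h a := by
        rw [hWh a ha]
        exact mul_pos hgp (hNpos a ha)
      exact (mul_pos_iff_of_pos_right (hh0 a ha)).1 h1
    have hQ1 := quads_label A hpos π W hWpos h D U T (fun a ha => ⟨hh0 a ha, hhU a ha⟩)
      (fun a ha => hD a ha) (fun a ha => by rw [hDN a ha, hWh a ha])
      (fun n h1 h2 => hT n h1 (h2.trans hUle))
    have hpar : ∀ a ∈ A, ∀ c ∈ A, k a * l c = l a * k c → π a = π c := by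
      intro a ha c hc he
      rw [hkα a ha, hlβ a ha, hkα c hc, hlβ c hc] at he
      have he' : α a * β c = β a * α c := by
        have h1 : (h a * h c) * (α a * β c) = (h a * h c) * (β a * α c) := by linarith
        exact mul_left_cancel₀ (mul_pos (hh0 a ha) (hh0 c hc)).ne' h1
      rcases prim_par (hcp a ha) (hcp c hc) he' with ⟨h1, h2⟩ | ⟨h1, h2⟩
      · exact Prod.ext h1 h2
      · exfalso
        have h3 := hWpos a ha
        have h4 := hWpos c hc
        have h5 : W (π a) = -W (π c) := by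
          show g * (d₀ * α a + θ₀ * β a) = -(g * (d₀ * α c + θ₀ * β c))
          rw [h1, h2]
          ring
        linarith
    have hsub : quads A ⊆ (quads A).filter (fun t => π t.1.1 = π t.2.1 ∧ π t.1.2 = π t.2.2) ∪
        (quads A).filter (fun t => π t.1.1 = π t.2.2 ∧ π t.1.2 = π t.2.1) := by
      rintro ⟨⟨a, b⟩, ⟨c, e⟩⟩ ht
      have ht' := ht
      unfold quads at ht'
      rw [Finset.mem_filter, Finset.mem_product, Finset.mem_product, Finset.mem_product] at ht'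
      obtain ⟨⟨⟨ha, hb⟩, ⟨hc, he⟩⟩, hab⟩ := ht'
      simp only at ha hb hc he hab
      have hF : ∀ (P : ℤ → Prop), P a → P b → P c → P e → ∀ i : Fin 4, P (![a, b, c, e] i) := by
        intro P h0 h1 h2 h3 i
        fin_cases i
        · exact h0
        · exact h1
        · exact h2
        · exact h3
      have hEq : D c * D e * ((d₀ * k a + θ₀ * l a) * (d₀ * k b + θ₀ * l b)) =
          D a * D b * ((d₀ * k c + θ₀ * l c) * (d₀ * k e + θ₀ * l e)) := by
        have h1 : (g * g) * (D c * D e * ((d₀ * k a + θ₀ * l a) * (d₀ * k b + θ₀ * l b))) =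
            (g * g) * (D a * D b * ((d₀ * k c + θ₀ * l c) * (d₀ * k e + θ₀ * l e))) := by
          calc (g * g) * (D c * D e * ((d₀ * k a + θ₀ * l a) * (d₀ * k b + θ₀ * l b)))
              = D c * D e * ((g * (d₀ * k a + θ₀ * l a)) * (g * (d₀ * k b + θ₀ * l b))) := by ring
            _ = D c * D e * ((D a * a) * (D b * b)) := by rw [hDN a ha, hDN b hb]
            _ = D a * D b * D c * D e * (a * b) := by ring
            _ = D a * D b * D c * D e * (c * e) := by rw [hab]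
            _ = D a * D b * ((D c * c) * (D e * e)) := by ring
            _ = D a * D b * ((g * (d₀ * k c + θ₀ * l c)) * (g * (d₀ * k e + θ₀ * l e))) := by
                rw [hDN c hc, hDN e he]
            _ = _ := by ring
        exact mul_left_cancel₀ (mul_pos hgp hgp).ne' h1
      have hp := par d₀ θ₀ hcop' hd₀ U hbig (fun i => D (![a, b, c, e] i))
        (fun i => k (![a, b, c, e] i)) (fun i => l (![a, b, c, e] i))
        (hF (fun x => 0 < D x ∧ D x ≤ U) (hD a ha) (hD b hb) (hD c hc) (hD e he))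
        (hF (fun x => |k x| ≤ U) (hk a ha) (hk b hb) (hk c hc) (hk e he))
        (hF (fun x => |l x| ≤ U) (hl a ha) (hl b hb) (hl c hc) (hl e he))
        (hF (fun x => 0 < d₀ * k x + θ₀ * l x) (hNpos a ha) (hNpos b hb) (hNpos c hc)
          (hNpos e he)) hEq
      rw [Finset.mem_union, Finset.mem_filter, Finset.mem_filter]
      rcases hp with ⟨h1, h2⟩ | ⟨h1, h2⟩
      · left
        exact ⟨ht, hpar a ha c hc h1, hpar b hb e he h2⟩
      · right
        exact ⟨ht, hpar a ha e he h1, hpar b hb c hc h2⟩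
    have hQ2 : ((quads A).filter (fun t => π t.1.1 = π t.2.2 ∧ π t.1.2 = π t.2.1)).card ≤
        ((quads A).filter (fun t => π t.1.1 = π t.2.1 ∧ π t.1.2 = π t.2.2)).card := by
      refine Finset.card_le_card_of_injOn (fun t => (t.1, (t.2.2, t.2.1))) ?_ ?_
      · rintro ⟨⟨a, b⟩, ⟨c, e⟩⟩ ht
        have ht' := Finset.mem_filter.1 (Finset.mem_coe.1 ht)
        obtain ⟨h1, h2, h3⟩ := ht'
        unfold quads at h1
        rw [Finset.mem_filter, Finset.mem_product, Finset.mem_product, Finset.mem_product] at h1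
        obtain ⟨⟨⟨ha, hb⟩, ⟨hc, he⟩⟩, hab⟩ := h1
        rw [Finset.mem_coe, Finset.mem_filter]
        refine ⟨?_, h2, h3⟩
        unfold quads
        rw [Finset.mem_filter, Finset.mem_product, Finset.mem_product, Finset.mem_product]
        refine ⟨⟨⟨ha, hb⟩, ⟨he, hc⟩⟩, ?_⟩
        show a * b = e * c
        rw [mul_comm e c]
        exact hab
      · rintro ⟨⟨a, b⟩, ⟨c, e⟩⟩ _ ⟨⟨a', b'⟩, ⟨c', e'⟩⟩ _ hh
        simp only [Prod.mk.injEq] at hh ⊢
        tauto
    unfold emul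
    calc (quads A).card ≤ _ := Finset.card_le_card hsub
      _ ≤ _ := Finset.card_union_le _ _
      _ ≤ A.card ^ 2 * T ^ 8 + A.card ^ 2 * T ^ 8 := Nat.add_le_add hQ1 (hQ2.trans hQ1)
      _ = 2 * A.card ^ 2 * T ^ 8 := by ring

end Pool.Agent.Lib.SAP
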