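import Mathlib

/-!
# A set with few repeated differences and slope at most one

Proof. Put `b p = p.1 / R` (a block number). The set of blocks `C.image b` is contained in
`Finset.Icc 0 (H / R)` (integers), so it has at most `H / R + 1` elements. Let `P` be the set of ordered pairs
`(p, p') ∈ C × C`, `p ≠ p'`, `b p = b p'`. For such a pair `w = p' - p` satisfies `|w.1| ≤ R - 1`,
`|w.2| ≤ |w.1| ≤ R - 1` and `w.1 ≠ 0` (otherwise `w.2 = 0`, `w = 0`): at most `2 (R - 1) * (2 R - 1)` values of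
`w`, and each is taken by at most 2 pairs (`hdiff`). So `|P| ≤ 4 (R - 1) (2 R - 1) ≤ 8 R ^ 2`. On the other hand
`|P| = ∑ over blocks of N (N - 1) ≥ ∑ 2 (N - 1) = 2 C.card - 2 * (number of blocks)`, `N` the number of
points in the block (for `N ≥ 1`: `N (N - 1) ≥ 2 (N - 1)`). Hence
`C.card ≤ H / R + 1 + 4 R ^ 2`. (For `R = 1` there are no pairs and the bound also holds.)
-/

set_option autoImplicit false

namespace Pool.Agent.Lib.SAP

open Finset

namespace BlockAux

/-- the pairs of distinct points in one block -/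
private def prs (C : Finset (ℤ × ℤ)) (R : ℕ) : Finset ((ℤ × ℤ) × (ℤ × ℤ)) :=
  (C ×ˢ C).filter (fun t => t.1 ≠ t.2 ∧ t.1.1 / (R : ℤ) = t.2.1 / (R : ℤ))

private theorem lower (C : Finset (ℤ × ℤ)) (R : ℕ) :
    2 * C.card ≤ (prs C R).card + 2 * (C.image (fun p => p.1 / (R : ℤ))).card := by
  classical
  set b : ℤ × ℤ → ℤ := fun p => p.1 / (R : ℤ) with hb
  have h1 : C.card = ∑ β ∈ C.image b, (C.filter (fun p => b p = β)).card :=
    Finset.card_eq_sum_card_image b C
  have h2 : (prs C R).card =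
      ∑ β ∈ C.image b, ((prs C R).filter (fun t => b t.1 = β)).card := by
    apply Finset.card_eq_sum_card_fiberwise
    intro t ht
    have ht' := (Finset.mem_filter.1 (Finset.mem_coe.1 ht)).1
    exact Finset.mem_coe.2 (Finset.mem_image_of_mem b (Finset.mem_product.1 ht').1)
  have h3 : ∀ β ∈ C.image b, 2 * (C.filter (fun p => b p = β)).card ≤
      ((prs C R).filter (fun t => b t.1 = β)).card + 2 := by
    intro β _
    have e : (C.filter (fun p => b p = β)).offDiag ⊆ (prs C R).filter (fun t => b t.1 = β) := by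
      intro t ht
      obtain ⟨ha, hc, hne⟩ := Finset.mem_offDiag.1 ht
      obtain ⟨ha1, ha2⟩ := Finset.mem_filter.1 ha
      obtain ⟨hc1, hc2⟩ := Finset.mem_filter.1 hc
      refine Finset.mem_filter.2 ⟨Finset.mem_filter.2 ⟨Finset.mem_product.2 ⟨ha1, hc1⟩, hne, ?_⟩,
        ha2⟩
      exact ha2.trans hc2.symm
    have h4 := Finset.card_le_card e
    rw [Finset.offDiag_card] at h4
    set N := (C.filter (fun p => b p = β)).card
    rcases Nat.lt_or_ge N 2 with h | h
    · omega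
    · have h5 : 2 * N ≤ N * N := Nat.mul_le_mul_right N h
      rcases Nat.lt_or_ge N 3 with h6 | h6
      · omega
      · have h7 : 3 * N ≤ N * N := Nat.mul_le_mul_right N h6
        omega
  calc 2 * C.card = ∑ β ∈ C.image b, 2 * (C.filter (fun p => b p = β)).card := by
        rw [← Finset.mul_sum, ← h1]
    _ ≤ ∑ β ∈ C.image b, (((prs C R).filter (fun t => b t.1 = β)).card + 2) :=
        Finset.sum_le_sum h3
    _ = (prs C R).card + 2 * (C.image b).card := by
        rw [Finset.sum_add_distrib, ← h2, Finset.sum_const, smul_eq_mul, mul_comm 2]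

private theorem upper (C : Finset (ℤ × ℤ)) (R : ℕ) (hR : 1 ≤ R)
    (hmono : ∀ p ∈ C, ∀ p' ∈ C, |p'.2 - p.2| ≤ |p'.1 - p.1|)
    (hdiff : ∀ w : ℤ × ℤ, w ≠ 0 → (C.filter (fun p => p + w ∈ C)).card ≤ 2) :
    (prs C R).card ≤ 8 * R ^ 2 := by
  classical
  have hR0 : (0 : ℤ) < (R : ℤ) := by exact_mod_cast hR
  set W : Finset (ℤ × ℤ) :=
    (Finset.Icc (-((R : ℤ) - 1)) ((R : ℤ) - 1)) ×ˢ (Finset.Icc (-((R : ℤ) - 1)) ((R : ℤ) - 1))
    with hW
  have hWc : W.card = (2 * R - 1) * (2 * R - 1) := by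
    rw [hW, Finset.card_product, Int.card_Icc]
    have : ((R : ℤ) - 1 + 1 - -((R : ℤ) - 1)).toNat = 2 * R - 1 := by omega
    rw [this]
  have h := Finset.card_le_mul_card_image_of_maps_to (s := prs C R)
    (t := W.erase 0) (f := fun t => t.2 - t.1) ?_ 2 ?_
  · have h0 : (0 : ℤ × ℤ) ∈ W := by
      rw [hW, Finset.mem_product]
      constructor <;> simp only [Prod.fst_zero, Prod.snd_zero, Finset.mem_Icc] <;> omega
    rw [Finset.card_erase_of_mem h0, hWc] at h
    have h8 : (2 * R - 1) * (2 * R - 1) ≤ 4 * R ^ 2 := by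
      have : 2 * R - 1 ≤ 2 * R := by omega
      calc (2 * R - 1) * (2 * R - 1) ≤ (2 * R) * (2 * R) := Nat.mul_le_mul this this
        _ = 4 * R ^ 2 := by ring
    omega
  · intro t ht
    obtain ⟨hm, hne, hbl⟩ := Finset.mem_filter.1 ht
    obtain ⟨h1, h2⟩ := Finset.mem_product.1 hm
    have hw : |t.2.1 - t.1.1| ≤ (R : ℤ) - 1 := by
      have e1 := Int.emod_add_mul_ediv t.1.1 (R : ℤ)
      have e2 := Int.emod_add_mul_ediv t.2.1 (R : ℤ)
      have p1 := Int.emod_nonneg t.1.1 hR0.ne'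
      have p2 := Int.emod_nonneg t.2.1 hR0.ne'
      have q1 := Int.emod_lt_of_pos t.1.1 hR0
      have q2 := Int.emod_lt_of_pos t.2.1 hR0
      rw [hbl] at e1
      rw [abs_le]
      constructor <;> linarith
    have hv := (hmono _ h1 _ h2).trans hw
    rw [Finset.mem_erase]
    refine ⟨fun e => hne (sub_eq_zero.1 e).symm, ?_⟩
    rw [hW, Finset.mem_product]
    exact ⟨Finset.mem_Icc.2 (abs_le.1 hw), Finset.mem_Icc.2 (abs_le.1 hv)⟩
  · intro w hw
    have hw0 : w ≠ 0 := (Finset.mem_erase.1 hw).1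
    refine le_trans ?_ (hdiff w hw0)
    refine Finset.card_le_card_of_injOn (fun t => t.1) ?_ ?_
    · intro t ht
      obtain ⟨hp, he⟩ := Finset.mem_filter.1 (Finset.mem_coe.1 ht)
      obtain ⟨h1, h2⟩ := Finset.mem_product.1 (Finset.mem_filter.1 hp).1
      refine Finset.mem_coe.2 (Finset.mem_filter.2 ⟨h1, ?_⟩)
      have : t.1 + w = t.2 := by rw [← he]; abel
      rw [this]
      exact h2
    · intro t ht s hs hts
      obtain ⟨-, he⟩ := Finset.mem_filter.1 (Finset.mem_coe.1 ht)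
      obtain ⟨-, hf⟩ := Finset.mem_filter.1 (Finset.mem_coe.1 hs)
      have hts' : t.1 = s.1 := hts
      refine Prod.ext hts' ?_
      have e1 : t.2 = t.1 + w := by rw [← he]; abel
      have e2 : s.2 = s.1 + w := by rw [← hf]; abel
      rw [e1, e2, hts']

end BlockAux

open BlockAux in
theorem block (C : Finset (ℤ × ℤ)) (H R : ℕ) (hR : 1 ≤ R)
    (hbox : ∀ p ∈ C, 0 ≤ p.1 ∧ p.1 < H)
    (hmono : ∀ p ∈ C, ∀ p' ∈ C, |p'.2 - p.2| ≤ |p'.1 - p.1|)
    (hdiff : ∀ w : ℤ × ℤ, w ≠ 0 → (C.filter (fun p => p + w ∈ C)).card ≤ 2) :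
    C.card ≤ H / R + 1 + 4 * R ^ 2 := by
  classical
  have h1 := lower C R
  have h2 := upper C R hR hmono hdiff
  have hR0 : (0 : ℤ) < (R : ℤ) := by exact_mod_cast hR
  have h3 : (C.image (fun p => p.1 / (R : ℤ))).card ≤ H / R + 1 := by
    have hs : C.image (fun p => p.1 / (R : ℤ)) ⊆ Finset.Icc 0 (((H / R : ℕ) : ℤ)) := by
      intro x hx
      obtain ⟨p, hp, rfl⟩ := Finset.mem_image.1 hx
      obtain ⟨h0, hH⟩ := hbox p hp
      rw [Finset.mem_Icc]
      refine ⟨Int.ediv_nonneg h0 hR0.le, ?_⟩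
      rw [Int.natCast_div]
      exact Int.ediv_le_ediv hR0 hH.le
    have h4 := Finset.card_le_card hs
    rw [Int.card_Icc] at h4
    have e : ((((H / R : ℕ) : ℤ)) + 1 - 0).toNat = H / R + 1 := by
      generalize H / R = k
      omega
    rw [e] at h4
    exact h4
  generalize H / R = k at h3 ⊢
  omega

end Pool.Agent.Lib.SAP
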