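import Mathlib

/-!
# Common refinement of two factorisations into four factors

Proof. (Repeated use of `exists_dvd_and_dvd_of_dvd_mul` or of gcds.) Step lemma: if `x ∣ y₀ y₁ y₂ y₃` then
`x = t₀ t₁ t₂ t₃` with `t_j ∣ y_j`. Apply it to `x 0`, write `y j = t 0 j * y' j`, so
`x 1 * x 2 * x 3 = ∏ y' j`; apply it to `x 1`, `x 2` in the same way; the last row is `t 3 j = y''' j`
with product `x 3`.
-/

set_option autoImplicit false

namespace Pool.Agent.Lib.SAP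

open Finset

private lemma stepRef (x r : ℕ) (y : Fin 4 → ℕ) (hx : 0 < x)
    (h : x * r = y 0 * y 1 * y 2 * y 3) :
    ∃ t z : Fin 4 → ℕ, (∀ j, y j = t j * z j) ∧ t 0 * t 1 * t 2 * t 3 = x ∧
      r = z 0 * z 1 * z 2 * z 3 := by
  have h1 : x ∣ y 0 * y 1 * y 2 * y 3 := ⟨r, h.symm⟩
  obtain ⟨a, t3, ha, ⟨z3, h3⟩, rfl⟩ := exists_dvd_and_dvd_of_dvd_mul h1
  obtain ⟨b, t2, hb, ⟨z2, h2⟩, rfl⟩ := exists_dvd_and_dvd_of_dvd_mul ha
  obtain ⟨t0, t1, ⟨z0, h0⟩, ⟨z1, h1'⟩, rfl⟩ := exists_dvd_and_dvd_of_dvd_mul hb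
  refine ⟨![t0, t1, t2, t3], ![z0, z1, z2, z3], ?_, ?_, ?_⟩
  · intro j
    fin_cases j
    · simpa using h0
    · simpa using h1'
    · simpa using h2
    · simpa using h3
  · simp
  · simp only [Matrix.cons_val_zero, Matrix.cons_val_one, Matrix.cons_val]
    apply Nat.eq_of_mul_eq_mul_left hx
    rw [h, h0, h1', h2, h3]
    ring

theorem refine4 (x y : Fin 4 → ℕ) (hx : ∀ i, 0 < x i) (hy : ∀ i, 0 < y i)
    (h : x 0 * x 1 * x 2 * x 3 = y 0 * y 1 * y 2 * y 3) :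
    ∃ t : Fin 4 → Fin 4 → ℕ, (∀ i, t i 0 * t i 1 * t i 2 * t i 3 = x i) ∧
      (∀ j, t 0 j * t 1 j * t 2 j * t 3 j = y j) := by
  have _ := hy
  obtain ⟨t0, z0, hy0, ht0, hr0⟩ := stepRef (x 0) (x 1 * x 2 * x 3) y (hx 0)
    (by rw [← h]; ring)
  obtain ⟨t1, z1, hy1, ht1, hr1⟩ := stepRef (x 1) (x 2 * x 3) z0 (hx 1)
    (by rw [← hr0]; ring)
  obtain ⟨t2, z2, hy2, ht2, hr2⟩ := stepRef (x 2) (x 3) z1 (hx 2) hr1
  refine ⟨![t0, t1, t2, z2], ?_, ?_⟩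
  · intro i
    fin_cases i
    · simpa using ht0
    · simpa using ht1
    · simpa using ht2
    · simpa using hr2.symm
  · intro j
    simp only [Matrix.cons_val_zero, Matrix.cons_val_one, Matrix.cons_val]
    rw [hy0 j, hy1 j, hy2 j]
    ring

end Pool.Agent.Lib.SAP
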