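import Pool.Agent.Lib.SAP.K4
import Pool.Agent.Lib.SAP.Ref

/-!
# Few multiplicative quadruples of labelled fractions with few divisors

Proof. Number the entries of `((a, b), (c, e))` as vertices 0, 1, 2, 3 and put
`x = (f a, f b, g c, g e)`, `y = (g a, g b, f c, f e)`: the equation says `x 0 x 1 x 2 x 3 = y 0 y 1 y 2 y 3`,
and `x i`, `y i` are coprime for every `i` (they belong to one vertex). Choose `t` by `refine4`; as
`t i i` divides `x i` and `y i`, it is 1. The label of the edge `{i, j}`, `i < j`, is `(t i j, t j i)`,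
and for the edge `{0, 2}` also `π a = π c`, for the edge `{1, 3}` also `π b = π e`. (Types: edges 01, 03,
12, 23: `ℕ × ℕ`; edges 02, 13: `(ℕ × ℕ) × κ`.) For the vertex 0: `f a = t 0 1 * t 0 2 * t 0 3` and
`g a = t 1 0 * t 2 0 * t 3 0`; the other vertices in the same way (for the vertices 2, 3 the roles of
`f`, `g` are exchanged: `g c = t 2 0 * t 2 1 * t 2 3`, `f c = t 0 2 * t 1 2 * t 3 2`).
Let `S₁` be the set of all label triples `((p, p'), ((q, q'), k), (r, r'))` such that for some `v ∈ V`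
`f v = p q r`, `g v = p' q' r'`, `k = π v`; define `S₂, S₃, S₄` in the same way for the vertices
1, 2, 3 (with the label `k` in the right place and, for 2, 3, `f` and `g` exchanged). Each has at most
`V.card * T ^ 4` elements: for given `v` the pairs `p, q ∣ f v`, `p', q' ∣ g v` determine `r`, `r'`
(`Finset.card_biUnion_le` or a surjection from a sigma type). The labels of the six edges determine
`(π, f, g)` of the four vertices, so the quadruple by `hinj`: the set of solutions is in bijection with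
a set `Z` as in `k4_ineq`. So `card ^ 2 ≤ (V.card * T ^ 4) ^ 4`.
-/

set_option autoImplicit false

namespace Pool.Agent.Lib.SAP

open Finset

namespace CntAux

variable {α κ : Type*} [DecidableEq κ]

/-- All triples of complementary divisors at the vertices in `V`. -/
def base (V : Finset α) (π : α → κ) (f g : α → ℕ) : Finset ((ℕ × ℕ × ℕ) × (ℕ × ℕ × ℕ) × κ) :=
  V.biUnion (fun v => (((f v).divisors ×ˢ (f v).divisors) ×ˢ
    ((g v).divisors ×ˢ (g v).divisors)).image (fun d =>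
      ((d.1.1, d.1.2, f v / (d.1.1 * d.1.2)), (d.2.1, d.2.2, g v / (d.2.1 * d.2.2)), π v)))

theorem card_base (V : Finset α) (π : α → κ) (f g : α → ℕ) (T : ℕ)
    (hTf : ∀ a ∈ V, (f a).divisors.card ≤ T) (hTg : ∀ a ∈ V, (g a).divisors.card ≤ T) :
    (base V π f g).card ≤ V.card * T ^ 4 := by
  refine Finset.card_biUnion_le_card_mul _ _ _ (fun v hv => ?_)
  refine Finset.card_image_le.trans ?_
  rw [Finset.card_product, Finset.card_product, Finset.card_product]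
  calc (f v).divisors.card * (f v).divisors.card * ((g v).divisors.card * (g v).divisors.card)
      ≤ (T * T) * (T * T) :=
        Nat.mul_le_mul (Nat.mul_le_mul (hTf v hv) (hTf v hv)) (Nat.mul_le_mul (hTg v hv) (hTg v hv))
    _ = T ^ 4 := by ring

theorem mem_base {V : Finset α} {π : α → κ} {f g : α → ℕ} {v : α} (hv : v ∈ V)
    (hf : 0 < f v) (hg : 0 < g v) {p q r p' q' r' : ℕ} (h : p * q * r = f v)
    (h' : p' * q' * r' = g v) : ((p, q, r), (p', q', r'), π v) ∈ base V π f g := by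
  have hp : 0 < p * q := by
    rcases Nat.eq_zero_or_pos (p * q) with h0 | h0
    · rw [h0, zero_mul] at h; omega
    · exact h0
  have hp' : 0 < p' * q' := by
    rcases Nat.eq_zero_or_pos (p' * q') with h0 | h0
    · rw [h0, zero_mul] at h'; omega
    · exact h0
  refine Finset.mem_biUnion.2 ⟨v, hv, Finset.mem_image.2 ⟨((p, q), (p', q')), ?_, ?_⟩⟩
  · simp only [Finset.mem_product, Nat.mem_divisors]
    exact ⟨⟨⟨⟨q * r, by rw [← h]; ring⟩, hf.ne'⟩, ⟨⟨p * r, by rw [← h]; ring⟩, hf.ne'⟩⟩,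
      ⟨⟨⟨q' * r', by rw [← h']; ring⟩, hg.ne'⟩, ⟨⟨p' * r', by rw [← h']; ring⟩, hg.ne'⟩⟩⟩
  · have e1 : f v / (p * q) = r := by rw [← h]; exact Nat.mul_div_cancel_left r hp
    have e2 : g v / (p' * q') = r' := by rw [← h']; exact Nat.mul_div_cancel_left r' hp'
    simp only [e1, e2]

theorem one_of_coprime {x y d : ℕ} (h : Nat.Coprime x y) (h1 : d ∣ x) (h2 : d ∣ y) : d = 1 :=
  Nat.eq_one_of_dvd_one (by
    have := Nat.dvd_gcd h1 h2
    rwa [Nat.Coprime.gcd_eq_one h] at this)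

/-- The labels of the edges of the complete graph on the four vertices. -/
abbrev Lab (κ : Type*) : Type _ :=
  (ℕ × ℕ) × ((ℕ × ℕ) × κ) × (ℕ × ℕ) × (ℕ × ℕ) × ((ℕ × ℕ) × κ) × (ℕ × ℕ)

/-- The labels at the first vertex. -/
def S1 (V : Finset α) (π : α → κ) (f g : α → ℕ) : Finset ((ℕ × ℕ) × ((ℕ × ℕ) × κ) × (ℕ × ℕ)) :=
  (base V π f g).image (fun z => ((z.1.1, z.2.1.1), ((z.1.2.1, z.2.1.2.1), z.2.2),
    (z.1.2.2, z.2.1.2.2)))

/-- The labels at the second vertex. -/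
def S2 (V : Finset α) (π : α → κ) (f g : α → ℕ) : Finset ((ℕ × ℕ) × (ℕ × ℕ) × ((ℕ × ℕ) × κ)) :=
  (base V π f g).image (fun z => ((z.2.1.1, z.1.1), (z.1.2.1, z.2.1.2.1),
    ((z.1.2.2, z.2.1.2.2), z.2.2)))

/-- The labels at the third vertex. -/
def S3 (V : Finset α) (π : α → κ) (f g : α → ℕ) : Finset (((ℕ × ℕ) × κ) × (ℕ × ℕ) × (ℕ × ℕ)) :=
  (base V π f g).image (fun z => (((z.1.1, z.2.1.1), z.2.2), (z.1.2.1, z.2.1.2.1),
    (z.2.1.2.2, z.1.2.2)))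

/-- The labels at the fourth vertex. -/
def S4 (V : Finset α) (π : α → κ) (f g : α → ℕ) : Finset ((ℕ × ℕ) × ((ℕ × ℕ) × κ) × (ℕ × ℕ)) :=
  (base V π f g).image (fun z => ((z.1.1, z.2.1.1), ((z.1.2.1, z.2.1.2.1), z.2.2),
    (z.1.2.2, z.2.1.2.2)))

/-- The labels of a quadruple and what they determine. -/
theorem exists_lab (V : Finset α) (π : α → κ) (f g : α → ℕ)
    (hf : ∀ a ∈ V, 0 < f a) (hg : ∀ a ∈ V, 0 < g a) (hcop : ∀ a ∈ V, Nat.Coprime (f a) (g a))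
    {a b c e : α} (ha : a ∈ V) (hb : b ∈ V) (hc : c ∈ V) (he : e ∈ V) (hac : π a = π c)
    (hbe : π b = π e) (h : f a * f b * g c * g e = f c * f e * g a * g b) :
    ∃ (t01 t10 t02 t20 t03 t30 t12 t21 t13 t31 t23 t32 : ℕ) (k k' : κ),
      (((t01, t10), ((t02, t20), k), (t03, t30)) ∈ S1 V π f g ∧
        ((t01, t10), (t12, t21), ((t13, t31), k')) ∈ S2 V π f g ∧
        (((t02, t20), k), (t12, t21), (t23, t32)) ∈ S3 V π f g ∧
        ((t03, t30), ((t13, t31), k'), (t23, t32)) ∈ S4 V π f g) ∧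
      (π a = k ∧ f a = t01 * t02 * t03 ∧ g a = t10 * t20 * t30) ∧
      (π b = k' ∧ f b = t10 * t12 * t13 ∧ g b = t01 * t21 * t31) ∧
      (π c = k ∧ f c = t02 * t12 * t32 ∧ g c = t20 * t21 * t23) ∧
      (π e = k' ∧ f e = t03 * t13 * t23 ∧ g e = t30 * t31 * t32) := by
  obtain ⟨t, hx, hy⟩ := refine4 ![f a, f b, g c, g e] ![g a, g b, f c, f e]
    (by intro i; fin_cases i
        · exact hf a ha
        · exact hf b hb
        · exact hg c hc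
        · exact hg e he)
    (by intro i; fin_cases i
        · exact hg a ha
        · exact hg b hb
        · exact hf c hc
        · exact hf e he)
    (by
      show f a * f b * g c * g e = g a * g b * f c * f e
      rw [h]; ring)
  have x0 : t 0 0 * t 0 1 * t 0 2 * t 0 3 = f a := hx 0
  have x1 : t 1 0 * t 1 1 * t 1 2 * t 1 3 = f b := hx 1
  have x2 : t 2 0 * t 2 1 * t 2 2 * t 2 3 = g c := hx 2
  have x3 : t 3 0 * t 3 1 * t 3 2 * t 3 3 = g e := hx 3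
  have y0 : t 0 0 * t 1 0 * t 2 0 * t 3 0 = g a := hy 0
  have y1 : t 0 1 * t 1 1 * t 2 1 * t 3 1 = g b := hy 1
  have y2 : t 0 2 * t 1 2 * t 2 2 * t 3 2 = f c := hy 2
  have y3 : t 0 3 * t 1 3 * t 2 3 * t 3 3 = f e := hy 3
  have d0 : t 0 0 = 1 := one_of_coprime (hcop a ha)
    ⟨t 0 1 * t 0 2 * t 0 3, by rw [← x0]; ring⟩ ⟨t 1 0 * t 2 0 * t 3 0, by rw [← y0]; ring⟩
  have d1 : t 1 1 = 1 := one_of_coprime (hcop b hb)
    ⟨t 1 0 * t 1 2 * t 1 3, by rw [← x1]; ring⟩ ⟨t 0 1 * t 2 1 * t 3 1, by rw [← y1]; ring⟩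
  have d2 : t 2 2 = 1 := one_of_coprime (hcop c hc).symm
    ⟨t 2 0 * t 2 1 * t 2 3, by rw [← x2]; ring⟩ ⟨t 0 2 * t 1 2 * t 3 2, by rw [← y2]; ring⟩
  have d3 : t 3 3 = 1 := one_of_coprime (hcop e he).symm
    ⟨t 3 0 * t 3 1 * t 3 2, by rw [← x3]; ring⟩ ⟨t 0 3 * t 1 3 * t 2 3, by rw [← y3]; ring⟩
  rw [d0, one_mul] at x0 y0
  rw [d1, mul_one] at x1 y1
  rw [d2, mul_one] at x2 y2
  rw [d3, mul_one] at x3 y3
  refine ⟨t 0 1, t 1 0, t 0 2, t 2 0, t 0 3, t 3 0, t 1 2, t 2 1, t 1 3, t 3 1, t 2 3, t 3 2,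
    π a, π b, ⟨?_, ?_, ?_, ?_⟩, ⟨rfl, x0.symm, y0.symm⟩, ⟨rfl, x1.symm, y1.symm⟩,
    ⟨hac.symm, y2.symm, x2.symm⟩, ⟨hbe.symm, y3.symm, x3.symm⟩⟩
  · exact Finset.mem_image.2 ⟨_, mem_base ha (hf a ha) (hg a ha) x0 y0, rfl⟩
  · exact Finset.mem_image.2 ⟨_, mem_base hb (hf b hb) (hg b hb) x1 y1, rfl⟩
  · have := mem_base (π := π) hc (hf c hc) (hg c hc) y2 x2
    rw [← hac] at this
    exact Finset.mem_image.2 ⟨_, this, rfl⟩
  · have := mem_base (π := π) he (hf e he) (hg e he) y3 x3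
    rw [← hbe] at this
    exact Finset.mem_image.2 ⟨_, this, rfl⟩

/-- The number of the quadruples is at most the number of the labellings. -/
theorem inj_lab (V : Finset α) (π : α → κ) (f g : α → ℕ)
    (hinj : ∀ a ∈ V, ∀ b ∈ V, π a = π b → f a = f b → g a = g b → a = b)
    (Q : Finset ((α × α) × (α × α))) (hQ : ∀ t ∈ Q, t.1.1 ∈ V ∧ t.1.2 ∈ V ∧ t.2.1 ∈ V ∧ t.2.2 ∈ V)
    (hL : ∀ t ∈ Q, ∃ (t01 t10 t02 t20 t03 t30 t12 t21 t13 t31 t23 t32 : ℕ) (k k' : κ),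
      (((t01, t10), ((t02, t20), k), (t03, t30)) ∈ S1 V π f g ∧
        ((t01, t10), (t12, t21), ((t13, t31), k')) ∈ S2 V π f g ∧
        (((t02, t20), k), (t12, t21), (t23, t32)) ∈ S3 V π f g ∧
        ((t03, t30), ((t13, t31), k'), (t23, t32)) ∈ S4 V π f g) ∧
      (π t.1.1 = k ∧ f t.1.1 = t01 * t02 * t03 ∧ g t.1.1 = t10 * t20 * t30) ∧
      (π t.1.2 = k' ∧ f t.1.2 = t10 * t12 * t13 ∧ g t.1.2 = t01 * t21 * t31) ∧
      (π t.2.1 = k ∧ f t.2.1 = t02 * t12 * t32 ∧ g t.2.1 = t20 * t21 * t23) ∧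
      (π t.2.2 = k' ∧ f t.2.2 = t03 * t13 * t23 ∧ g t.2.2 = t30 * t31 * t32)) :
    Q.card ^ 2 ≤ ((S1 V π f g).card * (S2 V π f g).card) *
      ((S3 V π f g).card * (S4 V π f g).card) := by
  have key : ∀ t ∈ Q, ∃ z : Lab κ,
      ((z.1, z.2.1, z.2.2.1) ∈ S1 V π f g ∧ (z.1, z.2.2.2.1, z.2.2.2.2.1) ∈ S2 V π f g ∧
        (z.2.1, z.2.2.2.1, z.2.2.2.2.2) ∈ S3 V π f g ∧
        (z.2.2.1, z.2.2.2.2.1, z.2.2.2.2.2) ∈ S4 V π f g) ∧
      (π t.1.1 = z.2.1.2 ∧ f t.1.1 = z.1.1 * z.2.1.1.1 * z.2.2.1.1 ∧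
        g t.1.1 = z.1.2 * z.2.1.1.2 * z.2.2.1.2) ∧
      (π t.1.2 = z.2.2.2.2.1.2 ∧ f t.1.2 = z.1.2 * z.2.2.2.1.1 * z.2.2.2.2.1.1.1 ∧
        g t.1.2 = z.1.1 * z.2.2.2.1.2 * z.2.2.2.2.1.1.2) ∧
      (π t.2.1 = z.2.1.2 ∧ f t.2.1 = z.2.1.1.1 * z.2.2.2.1.1 * z.2.2.2.2.2.2 ∧
        g t.2.1 = z.2.1.1.2 * z.2.2.2.1.2 * z.2.2.2.2.2.1) ∧
      (π t.2.2 = z.2.2.2.2.1.2 ∧ f t.2.2 = z.2.2.1.1 * z.2.2.2.2.1.1.1 * z.2.2.2.2.2.1 ∧
        g t.2.2 = z.2.2.1.2 * z.2.2.2.2.1.1.2 * z.2.2.2.2.2.2) := by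
    intro t ht
    obtain ⟨t01, t10, t02, t20, t03, t30, t12, t21, t13, t31, t23, t32, k, k', h1, h2⟩ := hL t ht
    exact ⟨((t01, t10), ((t02, t20), k), (t03, t30), (t12, t21), ((t13, t31), k'), (t23, t32)),
      h1, h2⟩
  classical
  have key' : ∀ t : Q, ∃ z : Lab κ,
      ((z.1, z.2.1, z.2.2.1) ∈ S1 V π f g ∧ (z.1, z.2.2.2.1, z.2.2.2.2.1) ∈ S2 V π f g ∧
        (z.2.1, z.2.2.2.1, z.2.2.2.2.2) ∈ S3 V π f g ∧
        (z.2.2.1, z.2.2.2.2.1, z.2.2.2.2.2) ∈ S4 V π f g) ∧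
      (π t.1.1.1 = z.2.1.2 ∧ f t.1.1.1 = z.1.1 * z.2.1.1.1 * z.2.2.1.1 ∧
        g t.1.1.1 = z.1.2 * z.2.1.1.2 * z.2.2.1.2) ∧
      (π t.1.1.2 = z.2.2.2.2.1.2 ∧ f t.1.1.2 = z.1.2 * z.2.2.2.1.1 * z.2.2.2.2.1.1.1 ∧
        g t.1.1.2 = z.1.1 * z.2.2.2.1.2 * z.2.2.2.2.1.1.2) ∧
      (π t.1.2.1 = z.2.1.2 ∧ f t.1.2.1 = z.2.1.1.1 * z.2.2.2.1.1 * z.2.2.2.2.2.2 ∧
        g t.1.2.1 = z.2.1.1.2 * z.2.2.2.1.2 * z.2.2.2.2.2.1) ∧
      (π t.1.2.2 = z.2.2.2.2.1.2 ∧ f t.1.2.2 = z.2.2.1.1 * z.2.2.2.2.1.1.1 * z.2.2.2.2.2.1 ∧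
        g t.1.2.2 = z.2.2.1.2 * z.2.2.2.2.1.1.2 * z.2.2.2.2.2.2) := fun t => key t.1 t.2
  choose lab hlab1 hlab2 using key'
  have hinjL : Function.Injective lab := by
    intro s t hst
    have hs := hlab2 s
    have ht := hlab2 t
    rw [hst] at hs
    obtain ⟨a1, a2, a3, a4⟩ := hQ s.1 s.2
    obtain ⟨b1, b2, b3, b4⟩ := hQ t.1 t.2
    obtain ⟨⟨p1, p2, p3⟩, ⟨p4, p5, p6⟩, ⟨p7, p8, p9⟩, ⟨p10, p11, p12⟩⟩ := hs
    obtain ⟨⟨q1, q2, q3⟩, ⟨q4, q5, q6⟩, ⟨q7, q8, q9⟩, ⟨q10, q11, q12⟩⟩ := ht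
    apply Subtype.ext
    exact Prod.ext
      (Prod.ext (hinj _ a1 _ b1 (p1.trans q1.symm) (p2.trans q2.symm) (p3.trans q3.symm))
        (hinj _ a2 _ b2 (p4.trans q4.symm) (p5.trans q5.symm) (p6.trans q6.symm)))
      (Prod.ext (hinj _ a3 _ b3 (p7.trans q7.symm) (p8.trans q8.symm) (p9.trans q9.symm))
        (hinj _ a4 _ b4 (p10.trans q10.symm) (p11.trans q11.symm) (p12.trans q12.symm)))
  have hc : (Q.attach.image lab).card = Q.card := by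
    rw [Finset.card_image_of_injective _ hinjL, Finset.card_attach]
  rw [← hc]
  refine k4_ineq (S1 V π f g) (S2 V π f g) (S3 V π f g) (S4 V π f g) (Q.attach.image lab) ?_
  intro x12 x13 x14 x23 x24 x34 hz
  obtain ⟨t, -, ht⟩ := Finset.mem_image.1 hz
  have h1 := hlab1 t
  rw [ht] at h1
  exact h1

end CntAux

open CntAux in
theorem k4_count {α κ : Type*} [DecidableEq α] [DecidableEq κ] (V : Finset α) (π : α → κ)
    (f g : α → ℕ) (T : ℕ)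
    (hf : ∀ a ∈ V, 0 < f a) (hg : ∀ a ∈ V, 0 < g a) (hcop : ∀ a ∈ V, Nat.Coprime (f a) (g a))
    (hTf : ∀ a ∈ V, (f a).divisors.card ≤ T) (hTg : ∀ a ∈ V, (g a).divisors.card ≤ T)
    (hinj : ∀ a ∈ V, ∀ b ∈ V, π a = π b → f a = f b → g a = g b → a = b) :
    (((V ×ˢ V) ×ˢ (V ×ˢ V)).filter (fun t => π t.1.1 = π t.2.1 ∧ π t.1.2 = π t.2.2 ∧
      f t.1.1 * f t.1.2 * g t.2.1 * g t.2.2 = f t.2.1 * f t.2.2 * g t.1.1 * g t.1.2)).card
      ≤ V.card ^ 2 * T ^ 8 := by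
  set Q := (((V ×ˢ V) ×ˢ (V ×ˢ V)).filter (fun t => π t.1.1 = π t.2.1 ∧ π t.1.2 = π t.2.2 ∧
      f t.1.1 * f t.1.2 * g t.2.1 * g t.2.2 = f t.2.1 * f t.2.2 * g t.1.1 * g t.1.2)) with hQdef
  have hmem : ∀ t ∈ Q, (t.1.1 ∈ V ∧ t.1.2 ∈ V ∧ t.2.1 ∈ V ∧ t.2.2 ∈ V) ∧
      π t.1.1 = π t.2.1 ∧ π t.1.2 = π t.2.2 ∧
      f t.1.1 * f t.1.2 * g t.2.1 * g t.2.2 = f t.2.1 * f t.2.2 * g t.1.1 * g t.1.2 := by
    intro t ht
    rw [hQdef, Finset.mem_filter, Finset.mem_product, Finset.mem_product,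
      Finset.mem_product] at ht
    exact ⟨⟨ht.1.1.1, ht.1.1.2, ht.1.2.1, ht.1.2.2⟩, ht.2⟩
  have h1 := inj_lab V π f g hinj Q (fun t ht => (hmem t ht).1) (fun t ht => by
    obtain ⟨⟨m1, m2, m3, m4⟩, m5, m6, m7⟩ := hmem t ht
    exact exists_lab V π f g hf hg hcop m1 m2 m3 m4 m5 m6 m7)
  have hB := card_base V π f g T hTf hTg
  have c1 : (S1 V π f g).card ≤ V.card * T ^ 4 := Finset.card_image_le.trans hB
  have c2 : (S2 V π f g).card ≤ V.card * T ^ 4 := Finset.card_image_le.trans hB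
  have c3 : (S3 V π f g).card ≤ V.card * T ^ 4 := Finset.card_image_le.trans hB
  have c4 : (S4 V π f g).card ≤ V.card * T ^ 4 := Finset.card_image_le.trans hB
  have h2 : Q.card ^ 2 ≤ (V.card ^ 2 * T ^ 8) ^ 2 := by
    refine h1.trans ((Nat.mul_le_mul (Nat.mul_le_mul c1 c2) (Nat.mul_le_mul c3 c4)).trans
      (le_of_eq ?_))
    ring
  exact (Nat.pow_le_pow_iff_left (two_ne_zero)).1 h2

end Pool.Agent.Lib.SAP
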