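import Pool.Agent.Lib.SAP.Defs

/-!
# No three collinear solutions
-/

set_option autoImplicit false

namespace Pool.Agent.Lib.SAP

open Finset

/-- the hypotheses on a set `S` of solutions `v` of `qf (x + d v) = 0` -/
structure Sol (d : ℤ) (x : Fin 4 → ℤ) (H : ℕ) (S : Finset (Fin 4 → ℤ)) : Prop where
  box : ∀ v ∈ S, ∀ i, 0 ≤ v i ∧ v i < H
  zero : ∀ v ∈ S, qf (fun i => x i + d * v i) = 0
  ne : ∀ v ∈ S, ∀ w ∈ S, v ≠ w → qf (fun i => w i - v i) ≠ 0

lemma qf_add (y w : Fin 4 → ℤ) : qf (fun i => y i + w i) = qf y + bil y w + qf w := by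
  unfold qf bil
  ring

/-- the difference equation -/
lemma Sol.diff {d : ℤ} {x : Fin 4 → ℤ} {H : ℕ} {S : Finset (Fin 4 → ℤ)} (h : Sol d x H S)
    (hd : d ≠ 0) {v w : Fin 4 → ℤ} (hv : v ∈ S) (hw : w ∈ S) :
    bil (fun i => x i + d * v i) (fun i => w i - v i) + d * qf (fun i => w i - v i) = 0 := by
  have h1 := h.zero v hv
  have h2 := h.zero w hw
  unfold qf at *
  unfold bil
  apply mul_left_cancel₀ hd
  linear_combination h2 - h1

/-- three distinct solutions are not collinear -/
theorem Sol.not_collinear {d : ℤ} {x : Fin 4 → ℤ} {H : ℕ} {S : Finset (Fin 4 → ℤ)}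
    (h : Sol d x H S) (hd : d ≠ 0) {v w z : Fin 4 → ℤ} (hv : v ∈ S) (hw : w ∈ S) (hz : z ∈ S)
    (h1 : v ≠ w) (h2 : v ≠ z) (h3 : w ≠ z) :
    ∃ i j : Fin 4, (w i - v i) * (z j - v j) - (w j - v j) * (z i - v i) ≠ 0 := by
  by_contra hcon
  push Not at hcon
  have e1 := h.diff hd hv hw
  have e2 := h.diff hd hv hz
  have q1 := h.ne v hv w hw h1
  have q2 := h.ne v hv z hz h2
  have p := fun i j => hcon i j
  obtain ⟨k, hk⟩ : ∃ k, w k - v k ≠ 0 := by
    by_contra h0
    push Not at h0
    apply h1
    funext i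
    have := h0 i
    linarith
  have hk' : z k - v k ≠ 0 := by
    intro h0
    apply h2
    funext i
    have := p k i
    rw [h0, mul_zero, sub_zero] at this
    rcases mul_eq_zero.1 this with h4 | h4
    · exact absurd h4 hk
    · linarith
  -- s e = t f with s = z k - v k, t = w k - v k
  have hp : ∀ i, (z k - v k) * (w i - v i) = (w k - v k) * (z i - v i) := by
    intro i
    have := p k i
    linarith
  set s := z k - v k with hs
  set t := w k - v k with ht
  have g0 := hp 0
  have g1 := hp 1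
  have g2 := hp 2
  have g3 := hp 3
  -- s² q(e) = t² q(f), and from e1, e2: s * q(e) = t * q(f)
  have a1 : s ^ 2 * qf (fun i => w i - v i) = t ^ 2 * qf (fun i => z i - v i) := by
    unfold qf
    linear_combination (s * (w 1 - v 1)) * g0 + (t * (z 0 - v 0)) * g1 - (s * (w 3 - v 3)) * g2 -
      (t * (z 2 - v 2)) * g3
  have a2 : s * bil (fun i => x i + d * v i) (fun i => w i - v i) =
      t * bil (fun i => x i + d * v i) (fun i => z i - v i) := by
    unfold bil
    linear_combination (x 0 + d * v 0) * g1 + (x 1 + d * v 1) * g0 - (x 2 + d * v 2) * g3 -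
      (x 3 + d * v 3) * g2
  have a3 : s * qf (fun i => w i - v i) = t * qf (fun i => z i - v i) := by
    apply mul_left_cancel₀ hd
    linear_combination s * e1 - t * e2 - a2
  have a4 : t * qf (fun i => z i - v i) * (s - t) = 0 := by
    linear_combination a1 - s * a3
  have a5 : s = t := by
    rcases mul_eq_zero.1 a4 with h4 | h4
    · rcases mul_eq_zero.1 h4 with h5 | h5
      · exact absurd h5 hk
      · exact absurd h5 q2
    · linarith
  apply h3
  funext i
  have := hp i
  rw [a5] at this
  have := mul_left_cancel₀ (by rw [← a5]; exact hk') this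
  linarith

end Pool.Agent.Lib.SAP
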