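import Pool.Agent.Lib.SAP.Col

/-!
# Three independent differences

Proof. Put `y i = x i + d * v 0 i`, `e a i = v a.succ i - v 0 i` (`a : Fin 3`), `|e a i| < H`. By
`h` as in `Sol.diff`: `bil y (e a) + d * qf (e a) = 0` for `a = 0, 1, 2`. Write
`bil y w = ∑ i, ê w i * y i` with `ê w = (w 1, w 0, - w 3, - w 2)`. The given nonzero 3 × 3 minor of `e` (columns
`σ 0, σ 1, σ 2`) is up to sign the minor of `ê` with the columns `τ (σ b)`, `τ` the exchange of 0, 1 and of
2, 3; it is nonzero, so `σ` is injective; let `k` be the index not of the form `τ (σ b)`. Let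
`M : Matrix (Fin 3) (Fin 3) ℤ`, `M a b = ê (e a) (τ (σ b))`, `Δ = det M ≠ 0`. The three equations read
`∑ b, M a b * y (τ (σ b)) = - ê (e a) k * y k - d * qf (e a)`. Multiply by the adjugate:
`Δ * y (τ (σ b)) = ∑ a, adj b a * (- ê (e a) k * y k - d * qf (e a))`, where `|adj b a| ≤ 2 H ^ 2`. So
`Δ * y i + β * y k = d * γ` with `|Δ| ≤ 6 H ^ 3`, `|β| ≤ 6 H ^ 3`, `|γ| ≤ 3 * 2 H ^ 2 * 2 H ^ 2 = 12 H ^ 4`, and
`Δ * x i + β * x k = d * (γ - Δ * v 0 i - β * v 0 k)` where the bracket is at most `24 H ^ 4`. For `i = k` take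
`α = 1`, `β = -1`, `γ = 0`. (It may be easiest to expand everything in coordinates: four cases for the
omitted index; `Fin` decisions by `fin_cases`, `Matrix.det_fin_three`.)
-/

set_option autoImplicit false

namespace Pool.Agent.Lib.SAP

open Finset

namespace CramerAux

/-- the coefficients of the polar form -/
def eh (w : Fin 4 → ℤ) : Fin 4 → ℤ := ![w 1, w 0, -w 3, -w 2]

/-- exchange of 0, 1 and of 2, 3 -/
def tau : Fin 4 → Fin 4 := ![1, 0, 3, 2]

/-- signs -/
def sg : Fin 4 → ℤ := ![1, 1, -1, -1]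

theorem tau_inj : Function.Injective tau := by
  intro a b h
  fin_cases a <;> fin_cases b <;> simp_all [tau]

theorem sg_ne (j : Fin 4) : sg j ≠ 0 := by
  fin_cases j <;> simp [sg]

theorem eh_tau (w : Fin 4 → ℤ) (j : Fin 4) : eh w (tau j) = sg j * w j := by
  fin_cases j <;> simp [eh, tau, sg]

theorem bil_eq (y w : Fin 4 → ℤ) : bil y w = ∑ j, eh w j * y j := by
  simp [bil, eh, Fin.sum_univ_four]
  ring

theorem eh_bd {H : ℤ} {w : Fin 4 → ℤ} (h : ∀ i, |w i| ≤ H) (i : Fin 4) : |eh w i| ≤ H := by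
  fin_cases i <;> simp [eh, h]

theorem abs_mul_le {a b A B : ℤ} (ha : |a| ≤ A) (hb : |b| ≤ B) : |a * b| ≤ A * B := by
  rw [abs_mul]
  exact mul_le_mul ha hb (abs_nonneg _) ((abs_nonneg _).trans ha)

theorem sub_bd {a b A B : ℤ} (ha : |a| ≤ A) (hb : |b| ≤ B) : |a - b| ≤ A + B := by
  rw [abs_le] at *
  constructor <;> linarith [ha.1, ha.2, hb.1, hb.2]

theorem add_bd {a b A B : ℤ} (ha : |a| ≤ A) (hb : |b| ≤ B) : |a + b| ≤ A + B := by
  rw [abs_le] at *
  constructor <;> linarith [ha.1, ha.2, hb.1, hb.2]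

theorem det_bd {H : ℤ} (M : Matrix (Fin 3) (Fin 3) ℤ) (h : ∀ i j, |M i j| ≤ H) :
    |M.det| ≤ 6 * H ^ 3 := by
  rw [Matrix.det_fin_three]
  have key : ∀ a b c : ℤ, |a| ≤ H → |b| ≤ H → |c| ≤ H → |a * b * c| ≤ H * H * H :=
    fun a b c ha hb hc => abs_mul_le (abs_mul_le ha hb) hc
  have h1 := key _ _ _ (h 0 0) (h 1 1) (h 2 2)
  have h2 := key _ _ _ (h 0 0) (h 1 2) (h 2 1)
  have h3 := key _ _ _ (h 0 1) (h 1 0) (h 2 2)
  have h4 := key _ _ _ (h 0 1) (h 1 2) (h 2 0)
  have h5 := key _ _ _ (h 0 2) (h 1 0) (h 2 1)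
  have h6 := key _ _ _ (h 0 2) (h 1 1) (h 2 0)
  rw [abs_le] at *
  constructor
  · nlinarith [h1.1, h2.2, h3.2, h4.1, h5.1, h6.2]
  · nlinarith [h1.2, h2.1, h3.1, h4.2, h5.2, h6.1]

theorem adj_bd {H : ℤ} (M : Matrix (Fin 3) (Fin 3) ℤ) (h : ∀ i j, |M i j| ≤ H) (i j : Fin 3) :
    |M.adjugate i j| ≤ 2 * H ^ 2 := by
  have key : ∀ a b c e : ℤ, |a| ≤ H → |b| ≤ H → |c| ≤ H → |e| ≤ H →
      |a * b - c * e| ≤ 2 * H ^ 2 := by
    intro a b c e ha hb hc he
    have := sub_bd (abs_mul_le ha hb) (abs_mul_le hc he)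
    calc _ ≤ H * H + H * H := this
      _ = 2 * H ^ 2 := by ring
  have key2 : ∀ a b c e : ℤ, |a| ≤ H → |b| ≤ H → |c| ≤ H → |e| ≤ H →
      |-(a * b) + c * e| ≤ 2 * H ^ 2 := by
    intro a b c e ha hb hc he
    have := key c e a b hc he ha hb
    rwa [show -(a * b) + c * e = c * e - a * b by ring]
  rw [Matrix.adjugate_fin_three]
  fin_cases i <;> fin_cases j <;>
    simp only [Matrix.of_apply, Matrix.cons_val', Matrix.cons_val_zero, Matrix.cons_val_one,
      Matrix.cons_val_two, Matrix.empty_val', Matrix.cons_val_fin_one, Matrix.head_cons,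
      Matrix.tail_cons, Matrix.cons_val, Fin.zero_eta, Fin.mk_one, Fin.reduceFinMk] <;>
    first
    | exact key _ _ _ _ (h _ _) (h _ _) (h _ _) (h _ _)
    | exact key2 _ _ _ _ (h _ _) (h _ _) (h _ _) (h _ _)

theorem sum3_bd {A : ℤ} (f : Fin 3 → ℤ) (h : ∀ a, |f a| ≤ A) : |∑ a, f a| ≤ 3 * A := by
  calc |∑ a, f a| ≤ ∑ a, |f a| := Finset.abs_sum_le_sum_abs _ _
    _ ≤ ∑ _a : Fin 3, A := Finset.sum_le_sum fun a _ => h a
    _ = 3 * A := by simp

end CramerAux

open CramerAux in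
theorem cramer_rel (d : ℤ) (hd : d ≠ 0) (H : ℕ) (hH : 1 ≤ H) (x : Fin 4 → ℤ)
    (v : Fin 4 → Fin 4 → ℤ) (hbox : ∀ a i, 0 ≤ v a i ∧ v a i < H)
    (hq : ∀ a, qf (fun i => x i + d * v a i) = 0)
    (σ : Fin 3 → Fin 4)
    (hdet : (Matrix.of (fun (a b : Fin 3) => v a.succ (σ b) - v 0 (σ b))).det ≠ 0) :
    ∃ k : Fin 4, ∀ i, Rel d (24 * H ^ 4) (x i) (x k) := by
  have hH' : (1 : ℤ) ≤ H := by exact_mod_cast hH
  set e : Fin 3 → Fin 4 → ℤ := fun a i => v a.succ i - v 0 i with he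
  set y : Fin 4 → ℤ := fun i => x i + d * v 0 i with hy
  have hebd : ∀ a i, |e a i| ≤ (H : ℤ) := by
    intro a i
    have h1 := hbox a.succ i
    have h2 := hbox 0 i
    simp only [he]
    rw [abs_le]
    constructor <;> linarith [h1.1, h1.2, h2.1, h2.2]
  have hvbd : ∀ i, |v 0 i| ≤ (H : ℤ) := by
    intro i
    have h2 := hbox 0 i
    rw [abs_le]
    constructor <;> linarith [h2.1, h2.2]
  have hσ : Function.Injective σ := by
    intro b1 b2 h
    by_contra hne
    refine hdet (Matrix.det_zero_of_column_eq hne fun a => ?_)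
    simp [h]
  set ρ : Fin 3 → Fin 4 := fun b => tau (σ b) with hρ
  have hρi : Function.Injective ρ := tau_inj.comp hσ
  -- the missing index
  obtain ⟨k, hk⟩ : ∃ k : Fin 4, k ∉ Finset.univ.image ρ := by
    by_contra hcon
    push Not at hcon
    have h1 : Finset.univ.image ρ = (Finset.univ : Finset (Fin 4)) :=
      Finset.eq_univ_iff_forall.2 hcon
    have h2 := Finset.card_image_of_injective (Finset.univ : Finset (Fin 3)) hρi
    rw [h1] at h2
    simp at h2
  have huniv : (Finset.univ : Finset (Fin 4)) = insert k (Finset.univ.image ρ) := by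
    refine (Finset.eq_univ_of_card _ ?_).symm
    rw [Finset.card_insert_of_notMem hk, Finset.card_image_of_injective _ hρi]
    simp
  set M : Matrix (Fin 3) (Fin 3) ℤ := Matrix.of (fun a b => eh (e a) (ρ b)) with hM
  have hMbd : ∀ i j, |M i j| ≤ (H : ℤ) := fun i j => by
    simp only [hM, Matrix.of_apply]
    exact eh_bd (hebd i) _
  have hMdet : M.det ≠ 0 := by
    have h1 : M = Matrix.of (fun a b => sg (σ b) *
        (Matrix.of (fun (a b : Fin 3) => v a.succ (σ b) - v 0 (σ b))) a b) := by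
      ext a b
      simp only [hM, Matrix.of_apply, hρ, eh_tau, he]
    rw [h1, Matrix.det_mul_row]
    exact mul_ne_zero (Finset.prod_ne_zero_iff.2 fun b _ => sg_ne _) hdet
  have heq : ∀ a, ∑ b, M a b * y (ρ b) = -(eh (e a) k * y k) - d * qf (e a) := by
    intro a
    have h1 := hq a.succ
    have h0 := hq 0
    have h2 : bil y (e a) + d * qf (e a) = 0 := by
      have h3 : d * (bil y (e a) + d * qf (e a)) = 0 := by
        simp only [qf, bil, hy, he] at *
        linear_combination h1 - h0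
      rcases mul_eq_zero.1 h3 with h | h
      · exact absurd h hd
      · exact h
    rw [bil_eq, huniv, Finset.sum_insert hk, Finset.sum_image (fun _ _ _ _ h => hρi h)] at h2
    simp only [hM, Matrix.of_apply]
    linarith
  refine ⟨k, fun i => ?_⟩
  by_cases hik : i = k
  · subst hik
    refine ⟨1, -1, 0, one_ne_zero, ?_, ?_, ?_, by ring⟩
    · push_cast
      rw [abs_one]
      have : (1 : ℤ) ≤ (H : ℤ) ^ 4 := one_le_pow₀ hH'
      linarith
    · push_cast
      rw [abs_neg, abs_one]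
      have : (1 : ℤ) ≤ (H : ℤ) ^ 4 := one_le_pow₀ hH'
      linarith
    · push_cast
      rw [abs_zero]
      positivity
  · obtain ⟨b, hb⟩ : ∃ b, ρ b = i := by
      have : i ∈ insert k (Finset.univ.image ρ) := by rw [← huniv]; exact Finset.mem_univ _
      rcases Finset.mem_insert.1 this with h | h
      · exact absurd h hik
      · obtain ⟨b, -, hb⟩ := Finset.mem_image.1 h
        exact ⟨b, hb⟩
    have hadj : M.det * y i = ∑ a, M.adjugate b a * (-(eh (e a) k * y k) - d * qf (e a)) := by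
      have h1 : (M.adjugate * M).mulVec (fun b => y (ρ b)) b = M.det * y i := by
        rw [Matrix.adjugate_mul, Matrix.smul_mulVec, Matrix.one_mulVec]
        simp [hb]
      rw [← h1, ← Matrix.mulVec_mulVec]
      unfold Matrix.mulVec dotProduct
      refine Finset.sum_congr rfl fun a _ => ?_
      rw [← heq a]
    set β : ℤ := ∑ a, M.adjugate b a * eh (e a) k with hβ
    set γ : ℤ := -∑ a, M.adjugate b a * qf (e a) with hγ
    have hmain : M.det * y i + β * y k = d * γ := by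
      rw [hadj, hβ, hγ, Finset.sum_mul, mul_neg, Finset.mul_sum, ← Finset.sum_add_distrib,
        ← Finset.sum_neg_distrib]
      refine Finset.sum_congr rfl fun a _ => ?_
      ring
    have hdbd := det_bd M hMbd
    have hβbd : |β| ≤ 3 * (2 * (H : ℤ) ^ 2 * H) :=
      sum3_bd _ fun a => abs_mul_le (adj_bd M hMbd b a) (eh_bd (hebd a) k)
    have hqbd : ∀ a, |qf (e a)| ≤ 2 * (H : ℤ) ^ 2 := by
      intro a
      have := sub_bd (abs_mul_le (hebd a 0) (hebd a 1)) (abs_mul_le (hebd a 2) (hebd a 3))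
      unfold qf
      calc _ ≤ (H : ℤ) * H + H * H := this
        _ = 2 * (H : ℤ) ^ 2 := by ring
    have hγbd : |γ| ≤ 3 * (2 * (H : ℤ) ^ 2 * (2 * (H : ℤ) ^ 2)) := by
      rw [hγ, abs_neg]
      exact sum3_bd _ fun a => abs_mul_le (adj_bd M hMbd b a) (hqbd a)
    have h3 : (H : ℤ) ^ 3 ≤ (H : ℤ) ^ 4 := pow_le_pow_right₀ hH' (by norm_num)
    have hp4 : (0 : ℤ) ≤ (H : ℤ) ^ 4 := by positivity
    refine ⟨M.det, β, γ - M.det * v 0 i - β * v 0 k, hMdet, ?_, ?_, ?_, ?_⟩
    · push_cast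
      linarith
    · push_cast
      nlinarith
    · push_cast
      have ha := abs_mul_le hdbd (hvbd i)
      have hb' := abs_mul_le hβbd (hvbd k)
      have := sub_bd (sub_bd hγbd ha) hb'
      calc _ ≤ 3 * (2 * (H : ℤ) ^ 2 * (2 * (H : ℤ) ^ 2)) + 6 * (H : ℤ) ^ 3 * H
          + 3 * (2 * (H : ℤ) ^ 2 * H) * H := this
        _ = 24 * (H : ℤ) ^ 4 := by ring
    · simp only [hy] at hmain
      linear_combination hmain

end Pool.Agent.Lib.SAP
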