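import Mathlib

/-!
# Sets covered by few translates of an arithmetic progression: definitions (MP_c028f8_co)
-/

set_option autoImplicit false

namespace Pool.Agent.Lib.SAP

open Finset

/-- the quadruples `a * b = c * e` of elements of `A`, written `((a, b), (c, e))` -/
def quads (A : Finset ℤ) : Finset ((ℤ × ℤ) × (ℤ × ℤ)) :=
  ((A ×ˢ A) ×ˢ (A ×ˢ A)).filter (fun t => t.1.1 * t.1.2 = t.2.1 * t.2.2)

/-- multiplicative energy -/
def emul (A : Finset ℤ) : ℕ := (quads A).card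

/-- the quadratic form `w₀ w₁ - w₂ w₃` -/
def qf (w : Fin 4 → ℤ) : ℤ := w 0 * w 1 - w 2 * w 3

/-- its polar form: `qf (y + w) = qf y + bil y w + qf w` -/
def bil (y w : Fin 4 → ℤ) : ℤ := y 0 * w 1 + y 1 * w 0 - y 2 * w 3 - y 3 * w 2

/-- `y` is related to `θ`: `α y + β θ = d γ` with small coefficients, `α ≠ 0` -/
def Rel (d : ℤ) (U : ℕ) (y θ : ℤ) : Prop :=
  ∃ α β γ : ℤ, α ≠ 0 ∧ |α| ≤ U ∧ |β| ≤ U ∧ |γ| ≤ U ∧ α * y + β * θ = d * γ

/-- every `a` in `A` is positive and `a = F a + d * u a` with `F a ∈ X` and `0 ≤ u a < H` -/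
structure Cov (A X : Finset ℤ) (d : ℤ) (H : ℕ) (F u : ℤ → ℤ) : Prop where
  pos : ∀ a ∈ A, 0 < a
  mem : ∀ a ∈ A, F a ∈ X
  lo : ∀ a ∈ A, 0 ≤ u a
  hi : ∀ a ∈ A, u a < H
  eq : ∀ a ∈ A, a = F a + d * u a

/-- the quadruples `a * b = c * e` with `q a = p c` for some `1 ≤ p, q ≤ H` -/
noncomputable def shortQ (A : Finset ℤ) (H : ℕ) : Finset ((ℤ × ℤ) × (ℤ × ℤ)) :=
  (quads A).filter (fun t => ∃ p ∈ Finset.Icc (1 : ℤ) H, ∃ q ∈ Finset.Icc (1 : ℤ) H,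
    q * t.1.1 = p * t.2.1)

end Pool.Agent.Lib.SAP
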