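import Pool.Agent.Lib.SAP.Defs
import Pool.Agent.Lib.CSid.Sid

/-!
# Multiplicative Sidon subsets from the multiplicative energy

Copy the proof of `addSidon_of_en` (in `Pool/Agent/Lib/CSid/Sid.lean`) with `bad4_mul_le'`,
`bad3_mul_sq_le` below in place of `bad4_add_le`, `bad3_add_sq_le` (whose proofs can be copied as
well: the numbers are positive, so `a * a` determines `a`). `sidon_del (· * ·)` is applied as in
`mulSidon_of_reps` of the same file.
-/

set_option autoImplicit false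

namespace Pool.Agent.Lib.SAP

open Finset Pool.Agent.Lib.CSid

lemma bad4_mul_le' (A : Finset ℤ) : (bad4 (· * ·) A).card ≤ emul A := by
  unfold bad4 emul quads
  refine card_le_card fun t ht => ?_
  rw [mem_filter] at ht ⊢
  exact ⟨ht.1, ht.2.1⟩

lemma bad3_mul_sq_le (A : Finset ℤ) (hpos : ∀ a ∈ A, 0 < a) :
    (bad3 (· * ·) A).card ^ 2 ≤ A.card * emul A := by
  set x : ℤ → ℕ := fun a => ((A ×ˢ A).filter (fun t => a * a = t.1 * t.2)).card with hx
  have e1 : (bad3 (· * ·) A).card ≤ ∑ a ∈ A, x a := by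
    unfold bad3
    rw [card_filter, sum_product]
    refine sum_le_sum fun a _ => ?_
    rw [hx]
    simp only [card_filter]
    refine sum_le_sum fun t _ => ?_
    split_ifs with h1 h2
    · exact le_rfl
    · exact absurd h1.1 h2
    · exact Nat.zero_le _
    · exact le_rfl
  have e2 : ∑ a ∈ A, x a ^ 2 ≤ emul A := by
    have : ∑ a ∈ A, x a ^ 2 = (A.sigma (fun a => ((A ×ˢ A).filter (fun t => a * a = t.1 * t.2)) ×ˢ
        ((A ×ˢ A).filter (fun t => a * a = t.1 * t.2)))).card := by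
      rw [card_sigma]
      refine sum_congr rfl fun a _ => ?_
      rw [card_product, sq]
    rw [this]
    unfold emul quads
    refine card_le_card_of_injOn (fun t => ((t.2.1.1, t.2.1.2), (t.2.2.1, t.2.2.2))) ?_ ?_
    · rintro ⟨a, ⟨c, d⟩, ⟨c', d'⟩⟩ ht
      simp only [mem_coe, mem_sigma, mem_filter, mem_product] at ht ⊢
      obtain ⟨ha, ⟨⟨hc, hd⟩, h1⟩, ⟨hc', hd'⟩, h2⟩ := ht
      exact ⟨⟨⟨hc, hd⟩, hc', hd'⟩, h1.symm.trans h2⟩
    · rintro ⟨a, ⟨c, d⟩, ⟨c', d'⟩⟩ ht ⟨b, ⟨p, q⟩, ⟨p', q'⟩⟩ ht' h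
      simp only [mem_coe, mem_sigma, mem_filter, mem_product] at ht ht'
      simp only [Prod.mk.injEq] at h
      obtain ⟨⟨rfl, rfl⟩, rfl, rfl⟩ := h
      have : a = b := by
        have h1 := ht.2.1.2
        have h2 := ht'.2.1.2
        have h3 := hpos a ht.1
        have h4 := hpos b ht'.1
        nlinarith
      subst this
      rfl
  have e3 : (∑ a ∈ A, x a) ^ 2 ≤ A.card * ∑ a ∈ A, x a ^ 2 := sq_sum_le_card_mul_sum_sq
  calc (bad3 (· * ·) A).card ^ 2 ≤ (∑ a ∈ A, x a) ^ 2 := Nat.pow_le_pow_left e1 2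
    _ ≤ A.card * ∑ a ∈ A, x a ^ 2 := e3
    _ ≤ A.card * emul A := Nat.mul_le_mul_left _ e2

theorem mulSidon_of_emul (A : Finset ℤ) (hpos : ∀ a ∈ A, 0 < a) (m : ℕ) (hm : 0 < m)
    (h : 8 * emul A ≤ A.card * m ^ 3) :
    ∃ B ⊆ A, MulSidon B ∧ (A.card : ℝ) ≤ 2 * m * B.card := by
  obtain ⟨B, hB, hS, hc⟩ := sidon_del (· * ·) A (fun a b => mul_comm a b)
    (fun a ha b _ c _ h => mul_left_cancel₀ (hpos a ha).ne' h) (fun a ha c hc h => by
      have h1 := hpos a ha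
      have h2 := hpos c hc
      nlinarith) m hm
  refine ⟨B, hB, hS, ?_⟩
  have e4 : ((bad4 (· * ·) A).card : ℝ) ≤ A.card * m ^ 3 / 8 := by
    have h1 : ((bad4 (· * ·) A).card : ℝ) ≤ emul A := by exact_mod_cast bad4_mul_le' A
    have h2 : (8 : ℝ) * emul A ≤ A.card * m ^ 3 := by exact_mod_cast h
    linarith
  have hm1 : (1 : ℝ) ≤ m := by exact_mod_cast hm
  have e3 : ((bad3 (· * ·) A).card : ℝ) ≤ 3 / 8 * (A.card * m ^ 2) := by
    apply le_of_sq_le_sq _ (by positivity)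
    have h1 : ((bad3 (· * ·) A).card : ℝ) ^ 2 ≤ A.card * emul A := by
      exact_mod_cast bad3_mul_sq_le A hpos
    have h2 : (8 : ℝ) * emul A ≤ A.card * m ^ 3 := by exact_mod_cast h
    have h3 : (A.card : ℝ) * emul A ≤ A.card * (A.card * m ^ 3 / 8) :=
      mul_le_mul_of_nonneg_left (by linarith) (by positivity)
    have h4 : (m : ℝ) ^ 3 ≤ (m : ℝ) ^ 4 := pow_le_pow_right₀ hm1 (by norm_num)
    have h5 : (A.card : ℝ) * (A.card * m ^ 3 / 8) ≤ (A.card : ℝ) ^ 2 * m ^ 4 / 8 := by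
      have : (A.card : ℝ) ^ 2 * (m : ℝ) ^ 3 ≤ (A.card : ℝ) ^ 2 * m ^ 4 :=
        mul_le_mul_of_nonneg_left h4 (by positivity)
      nlinarith
    have h6 : (3 / 8 * ((A.card : ℝ) * m ^ 2)) ^ 2 = 9 / 64 * ((A.card : ℝ) ^ 2 * m ^ 4) := by ring
    rw [h6]
    have h7 : 0 ≤ (A.card : ℝ) ^ 2 * m ^ 4 := by positivity
    linarith
  have hm0 : (0 : ℝ) < m := by linarith
  have f3 : ((bad3 (· * ·) A).card : ℝ) / (m : ℝ) ^ 3 ≤ 3 / 8 * (A.card / m) := by
    rw [div_le_iff₀ (by positivity)]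
    have : 3 / 8 * ((A.card : ℝ) / m) * (m : ℝ) ^ 3 = 3 / 8 * (A.card * m ^ 2) := by
      field_simp
    rw [this]
    exact e3
  have f4 : ((bad4 (· * ·) A).card : ℝ) / (m : ℝ) ^ 4 ≤ 1 / 8 * (A.card / m) := by
    rw [div_le_iff₀ (by positivity)]
    have : 1 / 8 * ((A.card : ℝ) / m) * (m : ℝ) ^ 4 = A.card * m ^ 3 / 8 := by
      field_simp
    rw [this]
    exact e4
  have f5 : (A.card : ℝ) / m ≤ 2 * B.card := by linarith
  rw [div_le_iff₀ hm0] at f5
  linarith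

end Pool.Agent.Lib.SAP
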