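import Pool.Agent.Lib.SAP.Total
import Pool.Agent.Lib.SAP.Del
import Pool.Agent.Lib.CSid.Neg
import Pool.Agent.Lib.P5632c9.DivBound

/-!
# Multiplicative Sidon subsets of sets covered by few translates of an arithmetic progression
-/

set_option autoImplicit false

namespace Pool.Agent.Lib.SAP

open Finset Pool.Agent.Lib.CSid

theorem del_real (A : Finset ℤ) (hpos : ∀ a ∈ A, 0 < a) (x e : ℝ) (hx : 0 < x)
    (hn : (A.card : ℝ) = x ^ 3) (hE : (emul A : ℝ) ≤ e ^ 3) (hxe : x ≤ e) :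
    ∃ B ⊆ A, MulSidon B ∧ x ^ 4 ≤ 8 * e * B.card := by
  have he : 0 < e := hx.trans_le hxe
  set y : ℝ := 2 * e / x with hy
  have hy1 : 1 ≤ y := by
    rw [hy, le_div_iff₀ hx]
    linarith
  set μ : ℕ := ⌈y⌉₊ with hμ
  have hμ1 : y ≤ μ := Nat.le_ceil y
  have hμ2 : (μ : ℝ) ≤ 2 * y := by
    have := Nat.ceil_lt_add_one (by linarith : 0 ≤ y)
    linarith
  obtain ⟨B, hB, hS, hc⟩ := mulSidon_of_emul A hpos μ (Nat.ceil_pos.2 (by linarith)) (by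
    have : (8 * emul A : ℝ) ≤ A.card * (μ : ℝ) ^ 3 := by
      calc (8 * emul A : ℝ) ≤ 8 * e ^ 3 := by linarith
        _ = A.card * y ^ 3 := by rw [hn, hy]; field_simp; ring
        _ ≤ A.card * (μ : ℝ) ^ 3 := by gcongr
    exact_mod_cast this)
  refine ⟨B, hB, hS, ?_⟩
  have hB0 : (0 : ℝ) ≤ B.card := by positivity
  have h1 : x ^ 3 ≤ 2 * (2 * y) * B.card := by
    rw [← hn]
    refine hc.trans ?_
    gcongr
  calc x ^ 4 = x * x ^ 3 := by ring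
    _ ≤ x * (2 * (2 * y) * B.card) := by gcongr
    _ = 8 * e * B.card := by rw [hy]; field_simp; ring

lemma Cov.card_le {A X : Finset ℤ} {d : ℤ} {H : ℕ} {F u : ℤ → ℤ} (h : Cov A X d H F u) :
    A.card ≤ X.card * H := by
  have : A.card ≤ (X ×ˢ Finset.range H).card := by
    refine card_le_card_of_injOn (fun a => (F a, (u a).toNat)) ?_ ?_
    · intro a ha
      rw [mem_coe, mem_product, mem_range]
      have h1 := h.lo a ha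
      have h2 := h.hi a ha
      exact ⟨h.mem a ha, by simp only; omega⟩
    · intro a ha b hb hab
      simp only [Prod.mk.injEq] at hab
      have h1 := h.lo a ha
      have h2 := h.lo b hb
      have h3 : u a = u b := by omega
      rw [h.eq a ha, h.eq b hb, hab.1, h3]
  rwa [card_product, card_range] at this

/-- first bound, with ninth roots -/
theorem pos1 {A X : Finset ℤ} {d : ℤ} {H : ℕ} {F u : ℤ → ℤ} (h : Cov A X d H F u)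
    (hd : 0 < d) (hH : 1 ≤ H) (T : ℕ)
    (hT : ∀ n : ℕ, 1 ≤ n → n ≤ 8 * (48 * H ^ 5) ^ 5 → n.divisors.card ≤ T)
    (α β γ ν τ : ℝ) (hα : 1 ≤ α) (hβ : 1 ≤ β) (hγ : 1 ≤ γ) (hν : 0 < ν) (hν1 : ν ≤ 1)
    (hτ : 1 ≤ τ) (hαn : α ^ 9 = A.card) (hβm : β ^ 9 = X.card) (hγH : γ ^ 9 = H)
    (hτT : τ ^ 3 = T) (hνβ : β ^ 2 * ν ≤ α) :
    ∃ B ⊆ A, MulSidon B ∧ α ^ 8 * ν ^ 4 ≤ 40 * τ ^ 8 * (β ^ 4 * γ ^ 2) * B.card := by
  have hα0 : 0 < α := by linarith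
  have hβ0 : 0 < β := by linarith
  have hγ0 : 0 < γ := by linarith
  have hτ0 : 0 < τ := by linarith
  have hαβγ : α ≤ β * γ := by
    have h1 : α ^ 9 ≤ (β * γ) ^ 9 := by
      rw [mul_pow, hαn, hβm, hγH]
      exact_mod_cast h.card_le
    exact le_of_pow_le_pow_left₀ (by norm_num) (by positivity) h1
  have hT8 : (T : ℝ) ^ 8 = τ ^ 24 := by rw [← hτT]; ring
  have hτ24 : 1 ≤ τ ^ 24 := one_le_pow₀ hτ
  set z : ℝ := Real.sqrt (α ^ 12 * β ^ 3 * γ ^ 6) with hz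
  have hz0 : 0 ≤ z := Real.sqrt_nonneg _
  have hz2 : z ^ 2 = α ^ 12 * β ^ 3 * γ ^ 6 := Real.sq_sqrt (by positivity)
  set s : ℕ := ⌊z⌋₊ with hs
  by_cases hcase : ∀ θ ∈ X, (As A F d H θ).card ≤ s
  · -- second case: few related translates
    set ρ : ℝ := β ^ 6 * γ ^ 3 / α ^ 3 with hρ
    have hρ1 : 1 ≤ ρ := by
      rw [hρ, le_div_iff₀ (by positivity), one_mul]
      calc α ^ 3 ≤ (β * γ) ^ 3 := pow_le_pow_left₀ hα0.le hαβγ 3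
        _ = β ^ 3 * γ ^ 3 := by ring
        _ ≤ β ^ 6 * γ ^ 3 := by
            have : β ^ 3 ≤ β ^ 6 := pow_le_pow_right₀ hβ (by norm_num)
            gcongr
    set K : ℕ := ⌈ρ⌉₊ with hK
    have hK1 : ρ ≤ K := Nat.le_ceil ρ
    have hK2 : (K : ℝ) ≤ 2 * ρ := by
      have := Nat.ceil_lt_add_one (by linarith : 0 ≤ ρ)
      linarith
    have hK0 : 1 ≤ K := Nat.ceil_pos.2 (by linarith)
    set R : ℕ := ⌈γ ^ 3⌉₊ with hR
    have hγ3 : 1 ≤ γ ^ 3 := one_le_pow₀ hγ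
    have hR1 : γ ^ 3 ≤ R := Nat.le_ceil _
    have hR2 : (R : ℝ) ≤ 2 * γ ^ 3 := by
      have := Nat.ceil_lt_add_one (by linarith : 0 ≤ γ ^ 3)
      linarith
    have hR0 : 1 ≤ R := Nat.ceil_pos.2 (by linarith)
    have hmain := total1 h hd hH T hT K R s hK0 hR0 hcase
    have hmainR : (K : ℝ) * emul A ≤ 2 * ((K : ℝ) ^ 3 * (A.card : ℝ) ^ 2 +
        4 * A.card * (X.card : ℝ) ^ 2 * H + 4 * K * (A.card : ℝ) ^ 2 * (T : ℝ) ^ 8) +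
        K * ((X.card : ℝ) ^ 4 * (4 * (((H / R : ℕ) : ℝ) + 1 + 4 * (R : ℝ) ^ 2)) +
        X.card * (2 * (s : ℝ) ^ 2 * (T : ℝ) ^ 8)) := by exact_mod_cast hmain
    rw [← hαn, ← hβm, ← hγH, hT8] at hmainR
    have hKR : (0 : ℝ) < K := by linarith
    have hs2 : (s : ℝ) ^ 2 ≤ α ^ 12 * β ^ 3 * γ ^ 6 := by
      rw [← hz2]
      exact pow_le_pow_left₀ (by positivity) (Nat.floor_le hz0) 2
    have hHR : ((H / R : ℕ) : ℝ) ≤ γ ^ 6 := by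
      calc ((H / R : ℕ) : ℝ) ≤ (H : ℝ) / R := Nat.cast_div_le
        _ ≤ γ ^ 9 / γ ^ 3 := by rw [← hγH]; gcongr
        _ = γ ^ 6 := by field_simp
    have hblock : ((H / R : ℕ) : ℝ) + 1 + 4 * (R : ℝ) ^ 2 ≤ 18 * γ ^ 6 := by
      have h1 : (R : ℝ) ^ 2 ≤ (2 * γ ^ 3) ^ 2 := pow_le_pow_left₀ (by positivity) hR2 2
      have h2 : (2 * γ ^ 3) ^ 2 = 4 * γ ^ 6 := by ring
      have h3 : 1 ≤ γ ^ 6 := one_le_pow₀ hγ
      linarith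
    set W : ℝ := α ^ 12 * β ^ 12 * γ ^ 6 with hW
    have hW0 : 0 < W := by positivity
    -- bound each term after division by K
    have t1 : 2 * ((K : ℝ) ^ 3 * (α ^ 9) ^ 2) ≤ K * (8 * W) := by
      have h1 : (K : ℝ) ^ 2 ≤ (2 * ρ) ^ 2 := pow_le_pow_left₀ hKR.le hK2 2
      have h2 : (2 * ρ) ^ 2 * (α ^ 9) ^ 2 = 4 * W := by
        rw [hρ, hW]; field_simp; ring
      calc 2 * ((K : ℝ) ^ 3 * (α ^ 9) ^ 2) = K * (2 * ((K : ℝ) ^ 2 * (α ^ 9) ^ 2)) := by ring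
        _ ≤ K * (2 * ((2 * ρ) ^ 2 * (α ^ 9) ^ 2)) := by gcongr
        _ = K * (8 * W) := by rw [h2]; ring
    have t2 : 2 * (4 * α ^ 9 * (β ^ 9) ^ 2 * γ ^ 9) ≤ K * (8 * W) := by
      have h1 : ρ * W = α ^ 9 * (β ^ 9) ^ 2 * γ ^ 9 := by
        rw [hρ, hW]; field_simp
      calc 2 * (4 * α ^ 9 * (β ^ 9) ^ 2 * γ ^ 9) = 8 * (ρ * W) := by rw [h1]; ring
        _ ≤ 8 * (K * W) := by gcongr
        _ = K * (8 * W) := by ring
    have hα18 : (α ^ 9) ^ 2 ≤ W := by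
      calc (α ^ 9) ^ 2 = α ^ 12 * α ^ 6 := by ring
        _ ≤ α ^ 12 * (β * γ) ^ 6 := by gcongr
        _ = α ^ 12 * (β ^ 6 * γ ^ 6) := by ring
        _ ≤ α ^ 12 * (β ^ 12 * γ ^ 6) := by
            have : β ^ 6 ≤ β ^ 12 := pow_le_pow_right₀ hβ (by norm_num)
            gcongr
        _ = W := by rw [hW]; ring
    have t3 : 2 * (4 * K * (α ^ 9) ^ 2 * τ ^ 24) ≤ K * (8 * τ ^ 24 * W) := by
      calc 2 * (4 * K * (α ^ 9) ^ 2 * τ ^ 24) = K * (8 * τ ^ 24 * (α ^ 9) ^ 2) := by ring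
        _ ≤ K * (8 * τ ^ 24 * W) := by gcongr
    have t4 : (β ^ 9) ^ 4 * (4 * (((H / R : ℕ) : ℝ) + 1 + 4 * (R : ℝ) ^ 2)) ≤
        72 * (β ^ 36 * γ ^ 6) := by
      calc (β ^ 9) ^ 4 * (4 * (((H / R : ℕ) : ℝ) + 1 + 4 * (R : ℝ) ^ 2)) ≤
          (β ^ 9) ^ 4 * (4 * (18 * γ ^ 6)) := by gcongr
        _ = 72 * (β ^ 36 * γ ^ 6) := by ring
    have t5 : β ^ 9 * (2 * (s : ℝ) ^ 2 * τ ^ 24) ≤ 2 * τ ^ 24 * W := by
      calc β ^ 9 * (2 * (s : ℝ) ^ 2 * τ ^ 24) ≤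
          β ^ 9 * (2 * (α ^ 12 * β ^ 3 * γ ^ 6) * τ ^ 24) := by gcongr
        _ = 2 * τ ^ 24 * W := by rw [hW]; ring
    have hE1 : (emul A : ℝ) ≤ 26 * τ ^ 24 * W + 72 * (β ^ 36 * γ ^ 6) := by
      have h1 : (K : ℝ) * emul A ≤ K * (26 * τ ^ 24 * W + 72 * (β ^ 36 * γ ^ 6)) := by
        have h16 : (16 : ℝ) * W ≤ 16 * τ ^ 24 * W := by
          have : W ≤ τ ^ 24 * W := le_mul_of_one_le_left hW0.le hτ24
          linarith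
        have h2 := add_le_add t4 t5
        have h3 := mul_le_mul_of_nonneg_left h2 hKR.le
        calc (K : ℝ) * emul A ≤ _ := hmainR
          _ = 2 * ((K : ℝ) ^ 3 * (α ^ 9) ^ 2) + 2 * (4 * α ^ 9 * (β ^ 9) ^ 2 * γ ^ 9) +
            2 * (4 * K * (α ^ 9) ^ 2 * τ ^ 24) +
            K * ((β ^ 9) ^ 4 * (4 * (((H / R : ℕ) : ℝ) + 1 + 4 * (R : ℝ) ^ 2)) +
            β ^ 9 * (2 * (s : ℝ) ^ 2 * τ ^ 24)) := by ring
          _ ≤ K * (8 * W) + K * (8 * W) + K * (8 * τ ^ 24 * W) +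
            K * (72 * (β ^ 36 * γ ^ 6) + 2 * τ ^ 24 * W) := by linarith
          _ = K * (16 * W + 10 * τ ^ 24 * W + 72 * (β ^ 36 * γ ^ 6)) := by ring
          _ ≤ K * (26 * τ ^ 24 * W + 72 * (β ^ 36 * γ ^ 6)) := by
              apply mul_le_mul_of_nonneg_left _ hKR.le
              linarith
      exact le_of_mul_le_mul_left h1 hKR
    have hE2 : (emul A : ℝ) * ν ^ 12 ≤ 125 * τ ^ 24 * W := by
      have h1 : ν ^ 12 ≤ 1 := pow_le_one₀ hν.le hν1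
      have h2 : 72 * (β ^ 36 * γ ^ 6) * ν ^ 12 ≤ 72 * W := by
        calc 72 * (β ^ 36 * γ ^ 6) * ν ^ 12 = 72 * ((β ^ 2 * ν) ^ 12 * β ^ 12 * γ ^ 6) := by ring
          _ ≤ 72 * (α ^ 12 * β ^ 12 * γ ^ 6) := by gcongr
          _ = 72 * W := by rw [hW]
      have h3 : 26 * τ ^ 24 * W * ν ^ 12 ≤ 26 * τ ^ 24 * W :=
        mul_le_of_le_one_right (by positivity) h1
      have h4 : (72 : ℝ) * W ≤ 72 * τ ^ 24 * W := by
        have : W ≤ τ ^ 24 * W := le_mul_of_one_le_left hW0.le hτ24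
        linarith
      calc (emul A : ℝ) * ν ^ 12 ≤ (26 * τ ^ 24 * W + 72 * (β ^ 36 * γ ^ 6)) * ν ^ 12 := by gcongr
        _ = 26 * τ ^ 24 * W * ν ^ 12 + 72 * (β ^ 36 * γ ^ 6) * ν ^ 12 := by ring
        _ ≤ 26 * τ ^ 24 * W + 72 * τ ^ 24 * W := by linarith
        _ ≤ 125 * τ ^ 24 * W := by
            have : 0 ≤ τ ^ 24 * W := by positivity
            linarith
    set e : ℝ := 5 * τ ^ 8 * α ^ 4 * β ^ 4 * γ ^ 2 / ν ^ 4 with he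
    have he3 : (emul A : ℝ) ≤ e ^ 3 := by
      have : e ^ 3 = 125 * τ ^ 24 * W / ν ^ 12 := by
        rw [he, hW]; field_simp; ring
      rw [this, le_div_iff₀ (by positivity)]
      exact hE2
    have hxe : α ^ 3 ≤ e := by
      rw [he, le_div_iff₀ (by positivity)]
      have h1 : ν ^ 4 ≤ 1 := pow_le_one₀ hν.le hν1
      have h2 : (1 : ℝ) ≤ τ ^ 8 := one_le_pow₀ hτ
      have h3 : (1 : ℝ) ≤ β ^ 4 := one_le_pow₀ hβ
      have h4 : (1 : ℝ) ≤ γ ^ 2 := one_le_pow₀ hγ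
      have h5 : α ^ 3 ≤ α ^ 4 := pow_le_pow_right₀ hα (by norm_num)
      calc α ^ 3 * ν ^ 4 ≤ α ^ 4 * 1 := by gcongr
        _ = 1 * 1 * α ^ 4 * 1 * 1 := by ring
        _ ≤ 5 * τ ^ 8 * α ^ 4 * β ^ 4 * γ ^ 2 := by gcongr; norm_num
    obtain ⟨B, hB, hS, hc⟩ := del_real A h.pos (α ^ 3) e (by positivity)
      (by rw [← hαn]; ring) he3 hxe
    refine ⟨B, hB, hS, ?_⟩
    have h1 : α ^ 12 * ν ^ 4 ≤ 40 * τ ^ 8 * (β ^ 4 * γ ^ 2) * α ^ 4 * B.card := by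
      have h2 : α ^ 12 ≤ 8 * e * B.card := by
        calc α ^ 12 = (α ^ 3) ^ 4 := by ring
          _ ≤ _ := hc
      have h3 : 8 * e * B.card = 40 * τ ^ 8 * (β ^ 4 * γ ^ 2) * α ^ 4 * B.card / ν ^ 4 := by
        rw [he]; ring
      rw [h3, le_div_iff₀ (by positivity)] at h2
      exact h2
    have h4 : α ^ 4 * (α ^ 8 * ν ^ 4) ≤ α ^ 4 * (40 * τ ^ 8 * (β ^ 4 * γ ^ 2) * B.card) := by
      calc α ^ 4 * (α ^ 8 * ν ^ 4) = α ^ 12 * ν ^ 4 := by ring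
        _ ≤ _ := h1
        _ = _ := by ring
    exact le_of_mul_le_mul_left h4 (by positivity)
  · -- first case: many related translates
    push Not at hcase
    obtain ⟨θ, hθ, hlarge⟩ := hcase
    have hzN : z ≤ (As A F d H θ).card := by
      have h1 : z < s + 1 := Nat.lt_floor_add_one z
      have h2 : ((s + 1 : ℕ) : ℝ) ≤ (As A F d H θ).card := by exact_mod_cast hlarge
      push_cast at h2
      linarith
    have hN1 : (1 : ℝ) ≤ (As A F d H θ).card := by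
      have : 1 ≤ (As A F d H θ).card := by omega
      exact_mod_cast this
    set N : ℝ := ((As A F d H θ).card : ℝ) with hN
    set x : ℝ := N ^ (1 / 3 : ℝ) with hx
    have hx1 : 1 ≤ x := Real.one_le_rpow hN1 (by norm_num)
    have hx3 : x ^ 3 = N := by
      rw [hx, ← Real.rpow_natCast, ← Real.rpow_mul (by linarith)]
      norm_num
    have hsubA : As A F d H θ ⊆ A := by
      classical
      rw [As]
      exact filter_subset _ _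
    have hposA : ∀ a ∈ As A F d H θ, 0 < a := fun a ha => h.pos a (hsubA ha)
    have hE : (emul (As A F d H θ) : ℝ) ≤ (2 * x ^ 2 * τ ^ 8) ^ 3 := by
      have h1 : (emul (As A F d H θ) : ℝ) ≤ 2 * N ^ 2 * (T : ℝ) ^ 8 := by
        rw [hN]
        exact_mod_cast emul_As h hd hH θ T hT
      rw [hT8, ← hx3] at h1
      calc (emul (As A F d H θ) : ℝ) ≤ 2 * (x ^ 3) ^ 2 * τ ^ 24 := h1
        _ ≤ 8 * (x ^ 3) ^ 2 * τ ^ 24 := by gcongr; norm_num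
        _ = (2 * x ^ 2 * τ ^ 8) ^ 3 := by ring
    have hxe : x ≤ 2 * x ^ 2 * τ ^ 8 := by
      have h2 : (1 : ℝ) ≤ τ ^ 8 := one_le_pow₀ hτ
      have h3 : x ≤ x ^ 2 := by nlinarith
      calc x ≤ x ^ 2 := h3
        _ = 1 * x ^ 2 * 1 := by ring
        _ ≤ 2 * x ^ 2 * τ ^ 8 := by gcongr; norm_num
    obtain ⟨B, hB, hS, hc⟩ := del_real (As A F d H θ) hposA x (2 * x ^ 2 * τ ^ 8) (by linarith)
      hx3.symm hE hxe
    refine ⟨B, hB.trans hsubA, hS, ?_⟩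
    have h1 : x ^ 2 ≤ 16 * τ ^ 8 * B.card := by
      have : x ^ 2 * x ^ 2 ≤ x ^ 2 * (16 * τ ^ 8 * B.card) := by
        calc x ^ 2 * x ^ 2 = x ^ 4 := by ring
          _ ≤ _ := hc
          _ = _ := by ring
      exact le_of_mul_le_mul_left this (by positivity)
    have h2 : α ^ 8 ≤ β ^ 4 * γ ^ 2 * x ^ 2 := by
      have h3 : (α ^ 8) ^ 3 ≤ (β ^ 4 * γ ^ 2 * x ^ 2) ^ 3 := by
        have h4 : α ^ 12 * β ^ 3 * γ ^ 6 ≤ N ^ 2 := by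
          rw [← hz2]
          exact pow_le_pow_left₀ hz0 hzN 2
        calc (α ^ 8) ^ 3 = α ^ 12 * α ^ 12 := by ring
          _ ≤ α ^ 12 * (β * γ) ^ 12 := by gcongr
          _ = β ^ 12 * γ ^ 6 * (α ^ 12 * 1 * γ ^ 6) := by ring
          _ ≤ β ^ 12 * γ ^ 6 * (α ^ 12 * β ^ 3 * γ ^ 6) := by
              have : (1 : ℝ) ≤ β ^ 3 := one_le_pow₀ hβ
              gcongr
          _ ≤ β ^ 12 * γ ^ 6 * N ^ 2 := by gcongr
          _ = (β ^ 4 * γ ^ 2 * x ^ 2) ^ 3 := by rw [← hx3]; ring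
      exact le_of_pow_le_pow_left₀ (by norm_num) (by positivity) h3
    have h5 : ν ^ 4 ≤ 1 := pow_le_one₀ hν.le hν1
    calc α ^ 8 * ν ^ 4 ≤ α ^ 8 * 1 := by gcongr
      _ ≤ β ^ 4 * γ ^ 2 * x ^ 2 := by rw [mul_one]; exact h2
      _ ≤ β ^ 4 * γ ^ 2 * (16 * τ ^ 8 * B.card) := by gcongr
      _ ≤ β ^ 4 * γ ^ 2 * (40 * τ ^ 8 * B.card) := by gcongr; norm_num
      _ = 40 * τ ^ 8 * (β ^ 4 * γ ^ 2) * B.card := by ring

/-- second bound, with ninth roots -/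
theorem pos2 {A X : Finset ℤ} {d : ℤ} {H : ℕ} {F u : ℤ → ℤ} (h : Cov A X d H F u)
    (hd : 0 < d) (hH : 1 ≤ H) (T : ℕ)
    (hT : ∀ n : ℕ, 1 ≤ n → n ≤ 8 * (48 * H ^ 5) ^ 5 → n.divisors.card ≤ T)
    (α β ν τ : ℝ) (hα : 1 ≤ α) (hβ : 1 ≤ β) (hν : 0 < ν) (hν1 : ν ≤ 1)
    (hτ : 1 ≤ τ) (hαn : α ^ 9 = A.card) (hβm : β ^ 9 = X.card)
    (hτT : τ ^ 3 = T) (hνβ : β ^ 2 * ν ≤ α) :
    ∃ B ⊆ A, MulSidon B ∧ α ^ 6 * ν ^ 3 ≤ 24 * τ ^ 8 * β ^ 3 * B.card := by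
  have hα0 : 0 < α := by linarith
  have hβ0 : 0 < β := by linarith
  have hτ0 : 0 < τ := by linarith
  have hT8 : (T : ℝ) ^ 8 = τ ^ 24 := by rw [← hτT]; ring
  have hτ24 : 1 ≤ τ ^ 24 := one_le_pow₀ hτ
  have hmain := total2 h hd hH T hT
  have hmainR : (emul A : ℝ) ≤ 2 * (4 * (A.card : ℝ) ^ 2 * (T : ℝ) ^ 8 +
      2 * X.card * (A.card : ℝ) ^ 2) + (8 * (X.card : ℝ) ^ 3 * A.card +
      X.card * (2 * (A.card : ℝ) ^ 2 * (T : ℝ) ^ 8)) := by exact_mod_cast hmain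
  rw [← hαn, ← hβm, hT8] at hmainR
  have hβ9 : 1 ≤ β ^ 9 := one_le_pow₀ hβ
  set V : ℝ := β ^ 9 * α ^ 18 with hV
  have hV0 : 0 < V := by positivity
  have h1 : (emul A : ℝ) ≤ 14 * τ ^ 24 * V + 8 * (β ^ 27 * α ^ 9) := by
    have a1 : (α ^ 9) ^ 2 ≤ V := by
      calc (α ^ 9) ^ 2 = 1 * α ^ 18 := by ring
        _ ≤ β ^ 9 * α ^ 18 := by gcongr
        _ = V := rfl
    have a2 : V ≤ τ ^ 24 * V := le_mul_of_one_le_left hV0.le hτ24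
    have a3 : (α ^ 9) ^ 2 * τ ^ 24 ≤ V * τ ^ 24 := by gcongr
    calc (emul A : ℝ) ≤ _ := hmainR
      _ = 8 * ((α ^ 9) ^ 2 * τ ^ 24) + 4 * V + (8 * (β ^ 27 * α ^ 9) + 2 * τ ^ 24 * V) := by
          rw [hV]; ring
      _ ≤ 8 * (V * τ ^ 24) + 4 * (τ ^ 24 * V) + (8 * (β ^ 27 * α ^ 9) + 2 * τ ^ 24 * V) := by
          linarith
      _ = 14 * τ ^ 24 * V + 8 * (β ^ 27 * α ^ 9) := by ring
  have h2 : (emul A : ℝ) * ν ^ 9 ≤ 27 * τ ^ 24 * V := by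
    have b1 : ν ^ 9 ≤ 1 := pow_le_one₀ hν.le hν1
    have b2 : 8 * (β ^ 27 * α ^ 9) * ν ^ 9 ≤ 8 * V := by
      calc 8 * (β ^ 27 * α ^ 9) * ν ^ 9 = 8 * ((β ^ 2 * ν) ^ 9 * β ^ 9 * α ^ 9) := by ring
        _ ≤ 8 * (α ^ 9 * β ^ 9 * α ^ 9) := by gcongr
        _ = 8 * V := by rw [hV]; ring
    have b3 : 14 * τ ^ 24 * V * ν ^ 9 ≤ 14 * τ ^ 24 * V :=
      mul_le_of_le_one_right (by positivity) b1
    have b4 : V ≤ τ ^ 24 * V := le_mul_of_one_le_left hV0.le hτ24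
    calc (emul A : ℝ) * ν ^ 9 ≤ (14 * τ ^ 24 * V + 8 * (β ^ 27 * α ^ 9)) * ν ^ 9 := by gcongr
      _ = 14 * τ ^ 24 * V * ν ^ 9 + 8 * (β ^ 27 * α ^ 9) * ν ^ 9 := by ring
      _ ≤ 14 * τ ^ 24 * V + 8 * (τ ^ 24 * V) := by linarith
      _ ≤ 27 * τ ^ 24 * V := by
          have : 0 ≤ τ ^ 24 * V := by positivity
          linarith
  set e : ℝ := 3 * τ ^ 8 * β ^ 3 * α ^ 6 / ν ^ 3 with he
  have he3 : (emul A : ℝ) ≤ e ^ 3 := by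
    have : e ^ 3 = 27 * τ ^ 24 * V / ν ^ 9 := by
      rw [he, hV]; field_simp; ring
    rw [this, le_div_iff₀ (by positivity)]
    exact h2
  have hxe : α ^ 3 ≤ e := by
    rw [he, le_div_iff₀ (by positivity)]
    have c1 : ν ^ 3 ≤ 1 := pow_le_one₀ hν.le hν1
    have c2 : (1 : ℝ) ≤ τ ^ 8 := one_le_pow₀ hτ
    have c3 : (1 : ℝ) ≤ β ^ 3 := one_le_pow₀ hβ
    have c5 : α ^ 3 ≤ α ^ 6 := pow_le_pow_right₀ hα (by norm_num)
    calc α ^ 3 * ν ^ 3 ≤ α ^ 6 * 1 := by gcongr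
      _ = 1 * 1 * 1 * α ^ 6 := by ring
      _ ≤ 3 * τ ^ 8 * β ^ 3 * α ^ 6 := by gcongr; norm_num
  obtain ⟨B, hB, hS, hc⟩ := del_real A h.pos (α ^ 3) e (by positivity)
    (by rw [← hαn]; ring) he3 hxe
  refine ⟨B, hB, hS, ?_⟩
  have h3 : α ^ 12 * ν ^ 3 ≤ 24 * τ ^ 8 * β ^ 3 * α ^ 6 * B.card := by
    have h4 : α ^ 12 ≤ 8 * e * B.card := by
      calc α ^ 12 = (α ^ 3) ^ 4 := by ring
        _ ≤ _ := hc
    have h5 : 8 * e * B.card = 24 * τ ^ 8 * β ^ 3 * α ^ 6 * B.card / ν ^ 3 := by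
      rw [he]; ring
    rw [h5, le_div_iff₀ (by positivity)] at h4
    exact h4
  have h6 : α ^ 6 * (α ^ 6 * ν ^ 3) ≤ α ^ 6 * (24 * τ ^ 8 * β ^ 3 * B.card) := by
    calc α ^ 6 * (α ^ 6 * ν ^ 3) = α ^ 12 * ν ^ 3 := by ring
      _ ≤ _ := h3
      _ = _ := by ring
  exact le_of_mul_le_mul_left h6 (by positivity)

/-- positive sets, real exponents -/
theorem pos_main {A X : Finset ℤ} {d : ℤ} {H : ℕ} {F u : ℤ → ℤ} (h : Cov A X d H F u)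
    (hd : 0 < d) (hH : 1 ≤ H) (hne : A.Nonempty) (T : ℕ) (hT1 : 1 ≤ T)
    (hT : ∀ n : ℕ, 1 ≤ n → n ≤ 8 * (48 * H ^ 5) ^ 5 → n.divisors.card ≤ T) :
    ∃ B ⊆ A, MulSidon B ∧
      max ((A.card : ℝ) ^ (8 / 9 : ℝ) * ((X.card : ℝ) ^ 2 * H) ^ (-(2 / 9) : ℝ) *
          (min 1 ((A.card : ℝ) / (X.card : ℝ) ^ 2)) ^ (4 / 9 : ℝ))
        ((A.card : ℝ) ^ (2 / 3 : ℝ) * (X.card : ℝ) ^ (-(1 / 3) : ℝ) *
          (min 1 ((A.card : ℝ) / (X.card : ℝ) ^ 2)) ^ (1 / 3 : ℝ)) ≤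
        40 * (T : ℝ) ^ (8 / 3 : ℝ) * B.card := by
  have hn : (1 : ℝ) ≤ A.card := by exact_mod_cast card_pos.2 hne
  have hm : (1 : ℝ) ≤ X.card := by
    obtain ⟨a, ha⟩ := hne
    exact_mod_cast card_pos.2 ⟨F a, h.mem a ha⟩
  have hHR : (1 : ℝ) ≤ H := by exact_mod_cast hH
  have hTR : (1 : ℝ) ≤ T := by exact_mod_cast hT1
  set n : ℝ := (A.card : ℝ) with hndef
  set m : ℝ := (X.card : ℝ) with hmdef
  set ω : ℝ := min 1 (n / m ^ 2) with hω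
  have hω0 : 0 < ω := lt_min one_pos (by positivity)
  have hω1 : ω ≤ 1 := min_le_left _ _
  have hω2 : ω * m ^ 2 ≤ n := by
    have : ω ≤ n / m ^ 2 := min_le_right _ _
    rwa [le_div_iff₀ (by positivity)] at this
  have root : ∀ y : ℝ, 0 < y → ∀ k : ℕ, (y ^ (1 / 9 : ℝ)) ^ k = y ^ ((k : ℝ) / 9) := by
    intro y hy k
    rw [← Real.rpow_natCast, ← Real.rpow_mul hy.le]
    congr 1
    ring
  have root9 : ∀ y : ℝ, 0 < y → (y ^ (1 / 9 : ℝ)) ^ 9 = y := by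
    intro y hy
    rw [root y hy]
    norm_num
  set α : ℝ := n ^ (1 / 9 : ℝ) with hα
  set β : ℝ := m ^ (1 / 9 : ℝ) with hβ
  set γ : ℝ := (H : ℝ) ^ (1 / 9 : ℝ) with hγ
  set ν : ℝ := ω ^ (1 / 9 : ℝ) with hν
  set τ : ℝ := (T : ℝ) ^ (1 / 3 : ℝ) with hτ
  have hα1 : 1 ≤ α := Real.one_le_rpow hn (by norm_num)
  have hβ1 : 1 ≤ β := Real.one_le_rpow hm (by norm_num)
  have hγ1 : 1 ≤ γ := Real.one_le_rpow hHR (by norm_num)
  have hτ1 : 1 ≤ τ := Real.one_le_rpow hTR (by norm_num)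
  have hν0 : 0 < ν := Real.rpow_pos_of_pos hω0 _
  have hν1 : ν ≤ 1 := Real.rpow_le_one hω0.le hω1 (by norm_num)
  have hα0 : 0 < α := by linarith
  have hβ0 : 0 < β := by linarith
  have hγ0 : 0 < γ := by linarith
  have hn0 : 0 < n := by linarith
  have hm0 : 0 < m := by linarith
  have hH0 : (0 : ℝ) < H := by linarith
  have hα9 : α ^ 9 = n := root9 n hn0
  have hβ9 : β ^ 9 = m := root9 m hm0
  have hγ9 : γ ^ 9 = H := root9 H hH0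
  have hν9 : ν ^ 9 = ω := root9 ω hω0
  have hτ3 : τ ^ 3 = T := by
    rw [hτ, ← Real.rpow_natCast, ← Real.rpow_mul (by linarith)]
    norm_num
  have hτ8 : τ ^ 8 = (T : ℝ) ^ (8 / 3 : ℝ) := by
    rw [hτ, ← Real.rpow_natCast, ← Real.rpow_mul (by linarith)]
    norm_num
  have hνβ : β ^ 2 * ν ≤ α := by
    have : (β ^ 2 * ν) ^ 9 ≤ α ^ 9 := by
      calc (β ^ 2 * ν) ^ 9 = ν ^ 9 * (β ^ 9) ^ 2 := by ring
        _ = ω * m ^ 2 := by rw [hν9, hβ9]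
        _ ≤ α ^ 9 := by rw [hα9]; exact hω2
    exact le_of_pow_le_pow_left₀ (by norm_num) hα0.le this
  have e1 : n ^ (8 / 9 : ℝ) * (m ^ 2 * H) ^ (-(2 / 9) : ℝ) * ω ^ (4 / 9 : ℝ) =
      α ^ 8 * ν ^ 4 / (β ^ 4 * γ ^ 2) := by
    have a1 : n ^ (8 / 9 : ℝ) = α ^ 8 := by
      rw [hα, root n hn0]; norm_num
    have a2 : ω ^ (4 / 9 : ℝ) = ν ^ 4 := by
      rw [hν, root ω hω0]; norm_num
    have a3 : (m ^ 2 * (H : ℝ)) ^ (-(2 / 9) : ℝ) = (β ^ 4 * γ ^ 2)⁻¹ := by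
      rw [Real.rpow_neg (by positivity), Real.mul_rpow (by positivity) (by positivity)]
      congr 2
      · rw [← Real.rpow_natCast, ← Real.rpow_mul hm0.le, hβ, root m hm0]
        norm_num
      · rw [hγ, root (H : ℝ) hH0]
        norm_num
    rw [a1, a2, a3]
    ring
  have e2 : n ^ (2 / 3 : ℝ) * m ^ (-(1 / 3) : ℝ) * ω ^ (1 / 3 : ℝ) =
      α ^ 6 * ν ^ 3 / β ^ 3 := by
    have a1 : n ^ (2 / 3 : ℝ) = α ^ 6 := by
      rw [hα, root n hn0]; norm_num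
    have a2 : ω ^ (1 / 3 : ℝ) = ν ^ 3 := by
      rw [hν, root ω hω0]; norm_num
    have a3 : m ^ (-(1 / 3) : ℝ) = (β ^ 3)⁻¹ := by
      rw [Real.rpow_neg hm0.le, hβ, root m hm0]
      norm_num
    rw [a1, a2, a3]
    ring
  rw [e1, e2, ← hτ8]
  obtain ⟨B1, hB1, hS1, hc1⟩ := pos1 h hd hH T hT α β γ ν τ hα1 hβ1 hγ1 hν0 hν1 hτ1 hα9 hβ9
    hγ9 hτ3 hνβ
  obtain ⟨B2, hB2, hS2, hc2⟩ := pos2 h hd hH T hT α β ν τ hα1 hβ1 hν0 hν1 hτ1 hα9 hβ9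
    hτ3 hνβ
  have f1 : α ^ 8 * ν ^ 4 / (β ^ 4 * γ ^ 2) ≤ 40 * τ ^ 8 * B1.card := by
    rw [div_le_iff₀ (by positivity)]
    calc α ^ 8 * ν ^ 4 ≤ _ := hc1
      _ = _ := by ring
  have f2 : α ^ 6 * ν ^ 3 / β ^ 3 ≤ 40 * τ ^ 8 * B2.card := by
    rw [div_le_iff₀ (by positivity)]
    calc α ^ 6 * ν ^ 3 ≤ _ := hc2
      _ ≤ 40 * τ ^ 8 * β ^ 3 * B2.card := by gcongr; norm_num
      _ = _ := by ring
  rcases le_total (α ^ 8 * ν ^ 4 / (β ^ 4 * γ ^ 2)) (α ^ 6 * ν ^ 3 / β ^ 3) with hle | hle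
  · rw [max_eq_right hle]
    exact ⟨B2, hB2, hS2, f2⟩
  · rw [max_eq_left hle]
    exact ⟨B1, hB1, hS1, f1⟩

end Pool.Agent.Lib.SAP
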