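import Pool.Agent.Lib.SAP.Defs
import Pool.Agent.Lib.SAP.Cnt

/-!
# Quadruples of labelled fractions

Proof. For `a ∈ A` let `f a / g a` be `N a / D a` in lowest terms: with `h = gcd (N a) (D a)` (natural number)
`f a = (N a).toNat / h`, `g a = (D a).toNat / h`; `0 < f a, g a ≤ U`, coprime, and
`g a * a = W (π a) * f a`. So `(π a, f a, g a)` determines `a` (`g a > 0`). If `a b = c e`, `π a = π c`,
`π b = π e` then multiplying the four equations gives
`f a f b g c g e = f c f e g a g b` (cancel `W (π a) W (π b) > 0` and `a b = c e > 0`: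
`a b g a g b = W W' f a f b`, `c e g c g e = W W' f c f e`). Apply `k4_count`.
-/

set_option autoImplicit false

namespace Pool.Agent.Lib.SAP

open Finset

namespace FracAux

theorem lowest {n d : ℤ} (hn : 0 < n) (hd : 0 < d) :
    ∃ f g : ℕ, 0 < f ∧ 0 < g ∧ Nat.Coprime f g ∧ (f : ℤ) ≤ n ∧ (g : ℤ) ≤ d ∧
      (f : ℤ) * d = g * n := by
  have hg0 : 0 < n.toNat.gcd d.toNat := Nat.gcd_pos_of_pos_left _ (by omega)
  obtain ⟨f, hf⟩ := Nat.gcd_dvd_left n.toNat d.toNat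
  obtain ⟨g, hg⟩ := Nat.gcd_dvd_right n.toNat d.toNat
  have hcop : Nat.Coprime (n.toNat / n.toNat.gcd d.toNat) (d.toNat / n.toNat.gcd d.toNat) :=
    Nat.coprime_div_gcd_div_gcd hg0
  set h := n.toNat.gcd d.toNat with hh
  have e1 : n.toNat / h = f := by
    rw [hf]
    exact Nat.mul_div_cancel_left f hg0
  have e2 : d.toNat / h = g := by
    rw [hg]
    exact Nat.mul_div_cancel_left g hg0
  rw [e1, e2] at hcop
  have hn' : (n.toNat : ℤ) = n := Int.toNat_of_nonneg hn.le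
  have hd' : (d.toNat : ℤ) = d := Int.toNat_of_nonneg hd.le
  have hf0 : 0 < f := by
    rcases Nat.eq_zero_or_pos f with h0 | h0
    · rw [h0, Nat.mul_zero] at hf
      omega
    · exact h0
  have hg1 : 0 < g := by
    rcases Nat.eq_zero_or_pos g with h0 | h0
    · rw [h0, Nat.mul_zero] at hg
      omega
    · exact h0
  refine ⟨f, g, hf0, hg1, hcop, ?_, ?_, ?_⟩
  · rw [← hn', hf]
    exact_mod_cast Nat.le_mul_of_pos_left f hg0
  · rw [← hd', hg]
    exact_mod_cast Nat.le_mul_of_pos_left g hg0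
  · rw [← hn', ← hd', hf, hg]
    push_cast
    ring

end FracAux

open FracAux in
theorem quads_label {κ : Type*} [DecidableEq κ] (A : Finset ℤ) (hpos : ∀ a ∈ A, 0 < a)
    (π : ℤ → κ) (W : κ → ℤ) (hW : ∀ a ∈ A, 0 < W (π a)) (N D : ℤ → ℤ) (U T : ℕ)
    (hN : ∀ a ∈ A, 0 < N a ∧ N a ≤ U) (hD : ∀ a ∈ A, 0 < D a ∧ D a ≤ U)
    (h : ∀ a ∈ A, D a * a = W (π a) * N a)
    (hT : ∀ n : ℕ, 1 ≤ n → n ≤ U → n.divisors.card ≤ T) :
    ((quads A).filter (fun t => π t.1.1 = π t.2.1 ∧ π t.1.2 = π t.2.2)).card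
      ≤ A.card ^ 2 * T ^ 8 := by
  classical
  have hex : ∀ a : ℤ, ∃ fg : ℕ × ℕ, a ∈ A → 0 < fg.1 ∧ 0 < fg.2 ∧ Nat.Coprime fg.1 fg.2 ∧
      fg.1 ≤ U ∧ fg.2 ≤ U ∧ (fg.2 : ℤ) * a = W (π a) * fg.1 := by
    intro a
    by_cases ha : a ∈ A
    · obtain ⟨f, g, h1, h2, h3, h4, h5, h6⟩ := lowest (hN a ha).1 (hD a ha).1
      refine ⟨(f, g), fun _ => ⟨h1, h2, h3, ?_, ?_, ?_⟩⟩
      · have := h4.trans (hN a ha).2
        exact_mod_cast this
      · have := h5.trans (hD a ha).2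
        exact_mod_cast this
      · have hh := h a ha
        have hD0 : D a ≠ 0 := (hD a ha).1.ne'
        apply mul_left_cancel₀ hD0
        calc D a * ((g : ℤ) * a) = g * (D a * a) := by ring
          _ = g * (W (π a) * N a) := by rw [hh]
          _ = W (π a) * (g * N a) := by ring
          _ = W (π a) * (f * D a) := by rw [h6]
          _ = D a * (W (π a) * (f : ℤ)) := by ring
    · exact ⟨(0, 0), fun hh => absurd hh ha⟩
  choose fg hfg using hex
  have key := k4_count A π (fun a => (fg a).1) (fun a => (fg a).2) T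
    (fun a ha => (hfg a ha).1) (fun a ha => (hfg a ha).2.1) (fun a ha => (hfg a ha).2.2.1)
    (fun a ha => hT _ (hfg a ha).1 (hfg a ha).2.2.2.1)
    (fun a ha => hT _ (hfg a ha).2.1 (hfg a ha).2.2.2.2.1) ?_
  · refine le_trans (Finset.card_le_card ?_) key
    rintro ⟨⟨a, b⟩, ⟨c, e⟩⟩ ht
    simp only [quads, Finset.mem_filter, Finset.mem_product] at ht ⊢
    obtain ⟨⟨⟨⟨ha, hb⟩, hc, he⟩, hprod⟩, hp1, hp2⟩ := ht
    refine ⟨⟨⟨ha, hb⟩, hc, he⟩, hp1, hp2, ?_⟩
    have ea := (hfg a ha).2.2.2.2.2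
    have eb := (hfg b hb).2.2.2.2.2
    have ec := (hfg c hc).2.2.2.2.2
    have ee := (hfg e he).2.2.2.2.2
    rw [← hp1] at ec
    rw [← hp2] at ee
    have hWa := (hW a ha).ne'
    have hWb := (hW b hb).ne'
    have goal : ((fg a).1 : ℤ) * (fg b).1 * (fg c).2 * (fg e).2 =
        (fg c).1 * (fg e).1 * (fg a).2 * (fg b).2 := by
      apply mul_left_cancel₀ (mul_ne_zero hWa hWb)
      calc W (π a) * W (π b) * (((fg a).1 : ℤ) * (fg b).1 * (fg c).2 * (fg e).2)
          = (W (π a) * (fg a).1) * (W (π b) * (fg b).1) * (fg c).2 * (fg e).2 := by ring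
        _ = ((fg a).2 * a) * ((fg b).2 * b) * (fg c).2 * (fg e).2 := by rw [ea, eb]
        _ = (a * b) * (fg a).2 * (fg b).2 * (fg c).2 * (fg e).2 := by ring
        _ = (c * e) * (fg a).2 * (fg b).2 * (fg c).2 * (fg e).2 := by rw [hprod]
        _ = ((fg c).2 * c) * ((fg e).2 * e) * (fg a).2 * (fg b).2 := by ring
        _ = (W (π a) * (fg c).1) * (W (π b) * (fg e).1) * (fg a).2 * (fg b).2 := by rw [ec, ee]
        _ = W (π a) * W (π b) * ((fg c).1 * (fg e).1 * (fg a).2 * (fg b).2) := by ring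
    exact_mod_cast goal
  · intro a ha b hb hp hf hg
    have ea := (hfg a ha).2.2.2.2.2
    have eb := (hfg b hb).2.2.2.2.2
    rw [← hp, ← hf, ← hg, ← ea] at eb
    have hg0 : ((fg a).2 : ℤ) ≠ 0 := by
      have := (hfg a ha).2.1
      positivity
    exact (mul_left_cancel₀ hg0 eb).symm

end Pool.Agent.Lib.SAP
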