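import Pool.Agent.Lib.SAP.Planar
import Pool.Agent.Lib.SAP.Cramer

/-!
# Few solutions or related translates

Proof. If there are four solutions with a nonzero 3 × 3 minor as in `cramer_rel`, the first alternative
holds. Otherwise: if `S.card ≤ 2`, the second is clear (`S.image` is nonempty if `S` is). If `S.card ≥ 3`, choose
three distinct `v, w, z ∈ S` and by `Sol.not_collinear` indices `i, j` with
`δ := (w i - v i) * (z j - v j) - (w j - v j) * (z i - v i) ≠ 0`. For `v' ∈ S` the minors of
`(w - v, z - v, v' - v)` vanish for all columns `i, j, k`, which says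
`δ * (v' k - v k) = (v' i - v i) * a k + (v' j - v j) * b k` with
`a k = (z j - v j) * (w k - v k) - (w j - v j) * (z k - v k)`,
`b k = (w i - v i) * (z k - v k) - (z i - v i) * (w k - v k)`; subtract for two elements: `Plane S i j a b δ`.
Apply `planar` and `card_fibre`.
-/

set_option autoImplicit false

namespace Pool.Agent.Lib.SAP

open Finset

theorem lemmaJ {d : ℤ} {x : Fin 4 → ℤ} {H : ℕ} {S : Finset (Fin 4 → ℤ)} (h : Sol d x H S)
    (hd : d ≠ 0) (hH : 1 ≤ H) :
    (∃ k : Fin 4, ∀ i, Rel d (24 * H ^ 4) (x i) (x k)) ∨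
    ((∀ R : ℕ, 1 ≤ R → S.card ≤ 4 * (H / R + 1 + 4 * R ^ 2)) ∧
      ∃ i, S.card ≤ 2 * (S.image (fun v => v i)).card) := by
  classical
  by_cases hc : ∃ (v : Fin 4 → Fin 4 → ℤ) (σ : Fin 3 → Fin 4), (∀ a, v a ∈ S) ∧
      (Matrix.of (fun (a b : Fin 3) => v a.succ (σ b) - v 0 (σ b))).det ≠ 0
  · left
    obtain ⟨v, σ, hv, hdet⟩ := hc
    exact cramer_rel d hd H hH x v (fun a i => h.box (v a) (hv a) i) (fun a => h.zero (v a) (hv a))
      σ hdet
  · right
    push Not at hc
    rcases Nat.lt_or_ge 2 S.card with hS | hS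
    swap
    · refine ⟨fun R _ => ?_, 0, ?_⟩
      · have : 0 ≤ H / R := Nat.zero_le _
        omega
      · rcases S.eq_empty_or_nonempty with h0 | h0
        · rw [h0]
          simp
        · have : 0 < (S.image (fun v => v 0)).card := Finset.card_pos.2 (h0.image _)
          omega
    obtain ⟨v, hv, w, hw, z, hz, h1, h2, h3⟩ := Finset.two_lt_card.1 hS
    obtain ⟨i, j, hδ⟩ := h.not_collinear hd hv hw hz h1 h2 h3
    set δ : ℤ := (w i - v i) * (z j - v j) - (w j - v j) * (z i - v i) with hδdef
    have key : ∀ u ∈ S, ∀ k, δ * (u k - v k) =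
        (u i - v i) * ((z j - v j) * (w k - v k) - (w j - v j) * (z k - v k)) +
          (u j - v j) * ((w i - v i) * (z k - v k) - (z i - v i) * (w k - v k)) := by
      intro u hu k
      have hdet := hc ![v, w, z, u] ![i, j, k] (by
        intro a
        fin_cases a
        · exact hv
        · exact hw
        · exact hz
        · exact hu)
      rw [Matrix.det_fin_three] at hdet
      have f1 : (Fin.succ 0 : Fin 4) = 1 := rfl
      have f2 : (Fin.succ 1 : Fin 4) = 2 := rfl
      have f3 : (Fin.succ 2 : Fin 4) = 3 := rfl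
      simp only [Matrix.of_apply, f1, f2, f3] at hdet
      have g0 : (![v, w, z, u] : Fin 4 → Fin 4 → ℤ) 0 = v := rfl
      have g1 : (![v, w, z, u] : Fin 4 → Fin 4 → ℤ) 1 = w := rfl
      have g2 : (![v, w, z, u] : Fin 4 → Fin 4 → ℤ) 2 = z := rfl
      have g3 : (![v, w, z, u] : Fin 4 → Fin 4 → ℤ) 3 = u := rfl
      have s0 : (![i, j, k] : Fin 3 → Fin 4) 0 = i := rfl
      have s1 : (![i, j, k] : Fin 3 → Fin 4) 1 = j := rfl
      have s2 : (![i, j, k] : Fin 3 → Fin 4) 2 = k := rfl
      simp only [g0, g1, g2, g3, s0, s1, s2] at hdet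
      rw [hδdef]
      linear_combination hdet
    have hpl : Plane S i j (fun k => (z j - v j) * (w k - v k) - (w j - v j) * (z k - v k))
        (fun k => (w i - v i) * (z k - v k) - (z i - v i) * (w k - v k)) δ := by
      intro u hu u' hu' k
      have e1 := key u hu k
      have e2 := key u' hu' k
      linear_combination e2 - e1
    exact ⟨fun R hR => planar h hd hδ hpl R hR, i, card_fibre h hd hδ hpl⟩

end Pool.Agent.Lib.SAP
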