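import Mathlib

/-!
# Cauchy-Schwarz on the complete graph with four vertices

Proof. For `w = (x₁₃, x₁₄, x₂₃, x₂₄)` let `F w` be the number of `x₁₂` with `(x₁₂, x₁₃, x₁₄) ∈ S₁` and
`(x₁₂, x₂₃, x₂₄) ∈ S₂`, and `G w` the number of `x₃₄` with `(x₁₃, x₂₃, x₃₄) ∈ S₃` and
`(x₁₄, x₂₄, x₃₄) ∈ S₄`. Then `|Z| ≤ ∑ F w G w` (sum over a finite set of `w`: for instance the image
of `Z`), so `|Z|² ≤ (∑ F²) (∑ G²)` by Cauchy-Schwarz. Further
`F w ≤ #{x : (x, x₁₃, x₁₄) ∈ S₁}` and `F w ≤ #{x : (x, x₂₃, x₂₄) ∈ S₂}`, so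
`F w ^ 2 ≤ #{x : (x, x₁₃, x₁₄) ∈ S₁} * #{x : (x, x₂₃, x₂₄) ∈ S₂}`, and the sum over `w` is at most
`|S₁| |S₂|`. The same for `G`.
-/

set_option autoImplicit false

namespace Pool.Agent.Lib.SAP

open Finset

namespace K4Aux

theorem sum_fiber_le {α β : Type*} [DecidableEq β] (s : Finset α) (f : α → β) (W : Finset β) :
    ∑ w ∈ W, #{a ∈ s | f a = w} ≤ #s := by
  classical
  rw [← Finset.card_biUnion]
  · refine card_le_card fun a ha => ?_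
    rw [mem_biUnion] at ha
    obtain ⟨w, _, ha⟩ := ha
    exact (mem_filter.1 ha).1
  · intro w _ w' _ hw
    refine disjoint_left.2 fun a ha ha' => hw ?_
    rw [← (mem_filter.1 ha).2, ← (mem_filter.1 ha').2]

/-- a sum of squares of numbers bounded by the sizes of two fibres -/
theorem sum_sq_le {α β ω υ υ' : Type*} [DecidableEq υ] [DecidableEq υ']
    (S : Finset α) (T : Finset β) (f : α → υ) (g : β → υ') (W : Finset ω) (p : ω → υ) (q : ω → υ')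
    (hpq : ∀ w w', p w = p w' → q w = q w' → w = w') (F : ω → ℕ)
    (h1 : ∀ w, F w ≤ #{a ∈ S | f a = p w}) (h2 : ∀ w, F w ≤ #{b ∈ T | g b = q w}) :
    ∑ w ∈ W, F w ^ 2 ≤ #S * #T := by
  classical
  have hinj : Function.Injective fun w => (p w, q w) := by
    intro w w' h
    exact hpq w w' (congrArg Prod.fst h) (congrArg Prod.snd h)
  calc ∑ w ∈ W, F w ^ 2 ≤ ∑ w ∈ W, #{x ∈ S ×ˢ T | (f x.1, g x.2) = (p w, q w)} := by
        refine sum_le_sum fun w _ => ?_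
        have h3 : #{x ∈ S ×ˢ T | (f x.1, g x.2) = (p w, q w)} =
            #{a ∈ S | f a = p w} * #{b ∈ T | g b = q w} := by
          rw [← card_product]
          congr 1
          ext x
          simp only [mem_filter, mem_product, Prod.mk.injEq]
          tauto
        rw [h3, pow_two]
        exact Nat.mul_le_mul (h1 w) (h2 w)
    _ = ∑ v ∈ W.image (fun w => (p w, q w)), #{x ∈ S ×ˢ T | (f x.1, g x.2) = v} := by
        rw [sum_image fun a _ b _ h => hinj h]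
    _ ≤ #(S ×ˢ T) := sum_fiber_le _ _ _
    _ = #S * #T := card_product _ _

end K4Aux

open K4Aux

theorem k4_ineq {E₁₂ E₁₃ E₁₄ E₂₃ E₂₄ E₃₄ : Type*} [DecidableEq E₁₂] [DecidableEq E₁₃]
    [DecidableEq E₁₄] [DecidableEq E₂₃] [DecidableEq E₂₄] [DecidableEq E₃₄]
    (S₁ : Finset (E₁₂ × E₁₃ × E₁₄)) (S₂ : Finset (E₁₂ × E₂₃ × E₂₄))
    (S₃ : Finset (E₁₃ × E₂₃ × E₃₄)) (S₄ : Finset (E₁₄ × E₂₄ × E₃₄))
    (Z : Finset (E₁₂ × E₁₃ × E₁₄ × E₂₃ × E₂₄ × E₃₄))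
    (hZ : ∀ x₁₂ x₁₃ x₁₄ x₂₃ x₂₄ x₃₄, (x₁₂, x₁₃, x₁₄, x₂₃, x₂₄, x₃₄) ∈ Z →
      (x₁₂, x₁₃, x₁₄) ∈ S₁ ∧ (x₁₂, x₂₃, x₂₄) ∈ S₂ ∧ (x₁₃, x₂₃, x₃₄) ∈ S₃ ∧
        (x₁₄, x₂₄, x₃₄) ∈ S₄) :
    Z.card ^ 2 ≤ (S₁.card * S₂.card) * (S₃.card * S₄.card) := by
  classical
  let pr : E₁₂ × E₁₃ × E₁₄ × E₂₃ × E₂₄ × E₃₄ → E₁₃ × E₁₄ × E₂₃ × E₂₄ :=
    fun z => (z.2.1, z.2.2.1, z.2.2.2.1, z.2.2.2.2.1)
  let F : E₁₃ × E₁₄ × E₂₃ × E₂₄ → ℕ := fun w =>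
    #{x ∈ S₁.image Prod.fst | (x, w.1, w.2.1) ∈ S₁ ∧ (x, w.2.2.1, w.2.2.2) ∈ S₂}
  let G : E₁₃ × E₁₄ × E₂₃ × E₂₄ → ℕ := fun w =>
    #{y ∈ S₃.image (fun s => s.2.2) | (w.1, w.2.2.1, y) ∈ S₃ ∧ (w.2.1, w.2.2.2, y) ∈ S₄}
  have hZle : #Z ≤ ∑ w ∈ Z.image pr, F w * G w := by
    rw [card_eq_sum_card_image pr Z]
    refine sum_le_sum fun w _ => ?_
    show #{z ∈ Z | pr z = w} ≤ #_ * #_
    rw [← card_product]
    refine card_le_card_of_injOn (fun z => (z.1, z.2.2.2.2.2)) ?_ ?_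
    · rintro ⟨a, b, c, d, e, f⟩ hz
      obtain ⟨hz1, hz2⟩ := mem_filter.1 hz
      obtain ⟨i1, i2, i3, i4⟩ := hZ _ _ _ _ _ _ hz1
      subst hz2
      rw [mem_coe, mem_product, mem_filter, mem_filter]
      exact ⟨⟨mem_image.2 ⟨_, i1, rfl⟩, i1, i2⟩, ⟨mem_image.2 ⟨_, i3, rfl⟩, i3, i4⟩⟩
    · rintro ⟨a, b, c, d, e, f⟩ hz ⟨a', b', c', d', e', f'⟩ hz' h
      have h1 := (mem_filter.1 hz).2
      have h2 := (mem_filter.1 hz').2
      rw [← h2] at h1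
      simp only [pr, Prod.mk.injEq] at h1 h ⊢
      tauto
  have hF : ∑ w ∈ Z.image pr, F w ^ 2 ≤ #S₁ * #S₂ := by
    refine sum_sq_le S₁ S₂ (fun s => s.2) (fun s => s.2) _ (fun w => (w.1, w.2.1))
      (fun w => (w.2.2.1, w.2.2.2)) ?_ F ?_ ?_
    · rintro ⟨a, b, c, d⟩ ⟨a', b', c', d'⟩ h h'
      simp only [Prod.mk.injEq] at h h' ⊢
      tauto
    · intro w
      refine card_le_card_of_injOn (fun x => (x, w.1, w.2.1)) ?_ ?_
      · intro x hx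
        have h := (mem_filter.1 hx).2
        exact mem_coe.2 (mem_filter.2 ⟨h.1, rfl⟩)
      · intro x _ y _ h
        exact congrArg Prod.fst h
    · intro w
      refine card_le_card_of_injOn (fun x => (x, w.2.2.1, w.2.2.2)) ?_ ?_
      · intro x hx
        have h := (mem_filter.1 hx).2
        exact mem_coe.2 (mem_filter.2 ⟨h.2, rfl⟩)
      · intro x _ y _ h
        exact congrArg Prod.fst h
  have hG : ∑ w ∈ Z.image pr, G w ^ 2 ≤ #S₃ * #S₄ := by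
    refine sum_sq_le S₃ S₄ (fun s => (s.1, s.2.1)) (fun s => (s.1, s.2.1)) _
      (fun w => (w.1, w.2.2.1)) (fun w => (w.2.1, w.2.2.2)) ?_ G ?_ ?_
    · rintro ⟨a, b, c, d⟩ ⟨a', b', c', d'⟩ h h'
      simp only [Prod.mk.injEq] at h h' ⊢
      tauto
    · intro w
      refine card_le_card_of_injOn (fun y => (w.1, w.2.2.1, y)) ?_ ?_
      · intro y hy
        have h := (mem_filter.1 hy).2
        exact mem_coe.2 (mem_filter.2 ⟨h.1, rfl⟩)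
      · intro x _ y _ h
        exact congrArg (fun s => s.2.2) h
    · intro w
      refine card_le_card_of_injOn (fun y => (w.2.1, w.2.2.2, y)) ?_ ?_
      · intro y hy
        have h := (mem_filter.1 hy).2
        exact mem_coe.2 (mem_filter.2 ⟨h.2, rfl⟩)
      · intro x _ y _ h
        exact congrArg (fun s => s.2.2) h
  calc #Z ^ 2 ≤ (∑ w ∈ Z.image pr, F w * G w) ^ 2 := Nat.pow_le_pow_left hZle 2
    _ ≤ (∑ w ∈ Z.image pr, F w ^ 2) * ∑ w ∈ Z.image pr, G w ^ 2 :=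
        sum_mul_sq_le_sq_mul_sq _ _ _
    _ ≤ (#S₁ * #S₂) * (#S₃ * #S₄) := Nat.mul_le_mul hF hG

end Pool.Agent.Lib.SAP
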