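import Pool.Agent.Lib.SAP.Final

/-!
# Multiplicative Sidon subsets of sets covered by few translates of an arithmetic progression: the theorem
-/

set_option autoImplicit false

namespace Pool.Agent.Lib.SAP

open Finset Pool.Agent.Lib.CSid

/-- every element of `A` lies in one of the progressions `{x + d u : 0 ≤ u < H}`, `x ∈ X` -/
def Covered (A X : Finset ℤ) (d : ℤ) (H : ℕ) : Prop :=
  ∀ a ∈ A, ∃ x ∈ X, ∃ u : ℕ, u < H ∧ a = x + d * u

/-- the bound -/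
noncomputable def G (n m H : ℝ) : ℝ :=
  max (n ^ (8 / 9 : ℝ) * (m ^ 2 * H) ^ (-(2 / 9) : ℝ) * (min 1 (n / m ^ 2)) ^ (4 / 9 : ℝ))
    (n ^ (2 / 3 : ℝ) * m ^ (-(1 / 3) : ℝ) * (min 1 (n / m ^ 2)) ^ (1 / 3 : ℝ))

lemma exists_cov {A X : Finset ℤ} {d : ℤ} {H : ℕ} (hpos : ∀ a ∈ A, 0 < a)
    (hc : Covered A X d H) : ∃ F u : ℤ → ℤ, Cov A X d H F u := by
  classical
  have hc' : ∀ a : ℤ, ∃ x v : ℤ, a ∈ A → x ∈ X ∧ 0 ≤ v ∧ v < H ∧ a = x + d * v := by
    intro a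
    by_cases ha : a ∈ A
    · obtain ⟨x, hx, u, hu, h⟩ := hc a ha
      exact ⟨x, u, fun _ => ⟨hx, by positivity, by exact_mod_cast hu, h⟩⟩
    · exact ⟨0, 0, fun h => absurd h ha⟩
  choose F u hFu using hc'
  exact ⟨F, u, hpos, fun a ha => (hFu a ha).1, fun a ha => (hFu a ha).2.1,
    fun a ha => (hFu a ha).2.2.1, fun a ha => (hFu a ha).2.2.2⟩

lemma Covered.neg {A X : Finset ℤ} {d : ℤ} {H : ℕ} (hc : Covered A X d H) :
    Covered (A.image (fun a => -a)) (X.image (fun x => -x - d * ((H : ℤ) - 1))) d H := by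
  intro a ha
  obtain ⟨b, hb, rfl⟩ := mem_image.1 ha
  obtain ⟨x, hx, u, hu, h⟩ := hc b hb
  refine ⟨_, mem_image.2 ⟨x, hx, rfl⟩, H - 1 - u, by omega, ?_⟩
  have : ((H - 1 - u : ℕ) : ℤ) = (H : ℤ) - 1 - u := by omega
  rw [this, h]
  ring

lemma G_mono {n n' m H : ℝ} (hn : 0 < n') (hm : 0 < m) (hH : 0 < H) (h0 : 0 ≤ n)
    (h : n ≤ 3 * n') : G n m H ≤ 5 * G n' m H := by
  have hmin : min 1 (n / m ^ 2) ≤ 3 * min 1 (n' / m ^ 2) := by
    have h1 : n / m ^ 2 ≤ 3 * (n' / m ^ 2) := by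
      calc n / m ^ 2 ≤ 3 * n' / m ^ 2 := by gcongr
        _ = 3 * (n' / m ^ 2) := by ring
    rw [mul_min_of_nonneg _ _ (by norm_num : (0 : ℝ) ≤ 3)]
    refine min_le_min ?_ h1
    norm_num
  have hmin0 : 0 ≤ min 1 (n / m ^ 2) := le_min (by norm_num) (by positivity)
  have hmin1 : 0 < min 1 (n' / m ^ 2) := lt_min (by norm_num) (by positivity)
  have h3 : (3 : ℝ) ^ (8 / 9 : ℝ) * 3 ^ (4 / 9 : ℝ) ≤ 5 := by
    rw [← Real.rpow_add (by norm_num)]
    have : (3 : ℝ) ^ (8 / 9 + 4 / 9 : ℝ) = (81 : ℝ) ^ (1 / 3 : ℝ) := by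
      rw [show (81 : ℝ) = 3 ^ (4 : ℝ) by norm_num, ← Real.rpow_mul (by norm_num)]
      norm_num
    rw [this]
    calc (81 : ℝ) ^ (1 / 3 : ℝ) ≤ (125 : ℝ) ^ (1 / 3 : ℝ) :=
          Real.rpow_le_rpow (by norm_num) (by norm_num) (by norm_num)
      _ = 5 := by
          rw [show (125 : ℝ) = 5 ^ (3 : ℝ) by norm_num, ← Real.rpow_mul (by norm_num)]
          norm_num
  have h4 : (3 : ℝ) ^ (2 / 3 : ℝ) * 3 ^ (1 / 3 : ℝ) ≤ 5 := by
    rw [← Real.rpow_add (by norm_num)]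
    norm_num
  unfold G
  rw [mul_max_of_nonneg _ _ (by norm_num : (0 : ℝ) ≤ 5)]
  refine max_le_max ?_ ?_
  · calc n ^ (8 / 9 : ℝ) * (m ^ 2 * H) ^ (-(2 / 9) : ℝ) * (min 1 (n / m ^ 2)) ^ (4 / 9 : ℝ)
        ≤ (3 * n') ^ (8 / 9 : ℝ) * (m ^ 2 * H) ^ (-(2 / 9) : ℝ) *
          (3 * min 1 (n' / m ^ 2)) ^ (4 / 9 : ℝ) := by
          gcongr
      _ = (3 ^ (8 / 9 : ℝ) * 3 ^ (4 / 9 : ℝ)) * (n' ^ (8 / 9 : ℝ) *
          (m ^ 2 * H) ^ (-(2 / 9) : ℝ) * (min 1 (n' / m ^ 2)) ^ (4 / 9 : ℝ)) := by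
          rw [Real.mul_rpow (by norm_num) hn.le, Real.mul_rpow (by norm_num) hmin1.le]
          ring
      _ ≤ 5 * (n' ^ (8 / 9 : ℝ) *
          (m ^ 2 * H) ^ (-(2 / 9) : ℝ) * (min 1 (n' / m ^ 2)) ^ (4 / 9 : ℝ)) := by
          gcongr
  · calc n ^ (2 / 3 : ℝ) * m ^ (-(1 / 3) : ℝ) * (min 1 (n / m ^ 2)) ^ (1 / 3 : ℝ)
        ≤ (3 * n') ^ (2 / 3 : ℝ) * m ^ (-(1 / 3) : ℝ) *
          (3 * min 1 (n' / m ^ 2)) ^ (1 / 3 : ℝ) := by
          gcongr
      _ = (3 ^ (2 / 3 : ℝ) * 3 ^ (1 / 3 : ℝ)) * (n' ^ (2 / 3 : ℝ) *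
          m ^ (-(1 / 3) : ℝ) * (min 1 (n' / m ^ 2)) ^ (1 / 3 : ℝ)) := by
          rw [Real.mul_rpow (by norm_num) hn.le, Real.mul_rpow (by norm_num) hmin1.le]
          ring
      _ ≤ 5 * (n' ^ (2 / 3 : ℝ) *
          m ^ (-(1 / 3) : ℝ) * (min 1 (n' / m ^ 2)) ^ (1 / 3 : ℝ)) := by
          gcongr

lemma G_one_le {m H : ℝ} (hm : 1 ≤ m) (hH : 1 ≤ H) : G 1 m H ≤ 1 := by
  have hmin1 : min 1 (1 / m ^ 2) ≤ 1 := min_le_left _ _
  have hmin0 : 0 ≤ min 1 (1 / m ^ 2) := le_min (by norm_num) (by positivity)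
  unfold G
  refine max_le ?_ ?_
  · rw [Real.one_rpow, one_mul]
    refine mul_le_one₀ ?_ (by positivity) ?_
    · apply Real.rpow_le_one_of_one_le_of_nonpos _ (by norm_num)
      have : 1 ≤ m ^ 2 := one_le_pow₀ hm
      nlinarith
    · exact Real.rpow_le_one hmin0 hmin1 (by norm_num)
  · rw [Real.one_rpow, one_mul]
    refine mul_le_one₀ ?_ (by positivity) ?_
    · exact Real.rpow_le_one_of_one_le_of_nonpos hm (by norm_num)
    · exact Real.rpow_le_one hmin0 hmin1 (by norm_num)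

lemma mulSidon_of_card_le_one {B : Finset ℤ} (h : B.card ≤ 1) : MulSidon B := by
  intro a ha b hb c hc d hd _
  rw [card_le_one] at h
  exact Or.inl ⟨h a ha c hc, h b hb d hd⟩

theorem main (ε : ℝ) (hε : 0 < ε) : ∃ c : ℝ, 0 < c ∧ ∀ (A X : Finset ℤ) (d : ℤ) (H : ℕ), 0 < d →
    Covered A X d H → ∃ B ⊆ A, MulSidon B ∧
      c * (H : ℝ) ^ (-ε) * G A.card X.card H ≤ B.card := by
  classical
  obtain ⟨C, hC1, hC⟩ := P5632c9.card_divisors_le (ε / 100) (by linarith)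
  set D : ℝ := (8 * 48 ^ 5 : ℝ) ^ (ε / 100) with hD
  have hD1 : 1 ≤ D := Real.one_le_rpow (by norm_num) (by linarith)
  set C2 : ℝ := (C * D) ^ (8 / 3 : ℝ) with hC2
  have hC21 : 1 ≤ C2 := Real.one_le_rpow (by nlinarith) (by norm_num)
  refine ⟨1 / (200 * C2), by positivity, ?_⟩
  -- positive sets
  have hpos : ∀ (A X : Finset ℤ) (d : ℤ) (H : ℕ), 0 < d → 1 ≤ H → A.Nonempty →
      (∀ a ∈ A, 0 < a) → Covered A X d H →
      ∃ B ⊆ A, MulSidon B ∧ G A.card X.card H ≤ 40 * (C2 * (H : ℝ) ^ ε) * B.card := by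
    intro A X d H hd hH hne hp hc
    obtain ⟨F, u, hcov⟩ := exists_cov hp hc
    have hHR : (1 : ℝ) ≤ H := by exact_mod_cast hH
    have hH0 : (0 : ℝ) < H := by linarith
    set M : ℕ := 8 * (48 * H ^ 5) ^ 5 with hM
    have hM1 : 1 ≤ M := by
      rw [hM]
      have : 0 < 8 * (48 * H ^ 5) ^ 5 := by positivity
      omega
    have hMR : (M : ℝ) ^ (ε / 100) = D * (H : ℝ) ^ (ε / 4) := by
      have : (M : ℝ) = (8 * 48 ^ 5 : ℝ) * (H : ℝ) ^ (25 : ℝ) := by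
        rw [hM]
        push_cast
        rw [show (25 : ℝ) = ((25 : ℕ) : ℝ) by norm_num, Real.rpow_natCast]
        ring
      rw [this, Real.mul_rpow (by norm_num) (by positivity), ← Real.rpow_mul hH0.le]
      congr 2
      ring
    set T : ℕ := ⌊C * (M : ℝ) ^ (ε / 100)⌋₊ with hTdef
    have hM1R : (1 : ℝ) ≤ (M : ℝ) ^ (ε / 100) :=
      Real.one_le_rpow (by exact_mod_cast hM1) (by linarith)
    have hT1 : 1 ≤ T := Nat.le_floor (by push_cast; nlinarith)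
    have hT : ∀ n : ℕ, 1 ≤ n → n ≤ 8 * (48 * H ^ 5) ^ 5 → n.divisors.card ≤ T := by
      intro n hn1 hn2
      apply Nat.le_floor
      refine (hC n (by omega)).trans ?_
      have h1 : (n : ℝ) ≤ M := by exact_mod_cast hn2
      gcongr
    have hTle : (T : ℝ) ^ (8 / 3 : ℝ) ≤ C2 * (H : ℝ) ^ ε := by
      calc (T : ℝ) ^ (8 / 3 : ℝ) ≤ (C * (M : ℝ) ^ (ε / 100)) ^ (8 / 3 : ℝ) := by
            apply Real.rpow_le_rpow (by positivity) (Nat.floor_le (by positivity)) (by norm_num)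
        _ = ((C * D) * (H : ℝ) ^ (ε / 4)) ^ (8 / 3 : ℝ) := by rw [hMR]; ring_nf
        _ = C2 * (H : ℝ) ^ (ε / 4 * (8 / 3)) := by
            rw [Real.mul_rpow (by positivity) (by positivity), ← Real.rpow_mul hH0.le]
        _ ≤ C2 * (H : ℝ) ^ ε := by
            have : (H : ℝ) ^ (ε / 4 * (8 / 3)) ≤ (H : ℝ) ^ ε :=
              Real.rpow_le_rpow_of_exponent_le hHR (by linarith)
            gcongr
    obtain ⟨B, hB, hS, hcB⟩ := pos_main hcov hd hH hne T hT1 hT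
    refine ⟨B, hB, hS, ?_⟩
    calc G A.card X.card H ≤ 40 * (T : ℝ) ^ (8 / 3 : ℝ) * B.card := hcB
      _ ≤ 40 * (C2 * (H : ℝ) ^ ε) * B.card := by gcongr
  intro A X d H hd hc
  rcases A.eq_empty_or_nonempty with rfl | ⟨a0, ha0⟩
  · refine ⟨∅, Subset.refl _, mulSidon_of_card_le_one (by simp), ?_⟩
    have : G ((∅ : Finset ℤ).card : ℝ) X.card H = 0 := by
      unfold G
      rw [card_empty, Nat.cast_zero, Real.zero_rpow (by norm_num), Real.zero_rpow (by norm_num)]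
      simp
    rw [this]
    simp
  obtain ⟨x0, hx0, u0, hu0, -⟩ := hc a0 ha0
  have hH : 1 ≤ H := by omega
  have hHR : (1 : ℝ) ≤ H := by exact_mod_cast hH
  have hH0 : (0 : ℝ) < H := by linarith
  have hm : (1 : ℝ) ≤ X.card := by exact_mod_cast card_pos.2 ⟨x0, hx0⟩
  have hneg : (H : ℝ) ^ (-ε) = ((H : ℝ) ^ ε)⁻¹ := Real.rpow_neg hH0.le ε
  have hHε : 0 < (H : ℝ) ^ ε := Real.rpow_pos_of_pos hH0 ε
  have hG0 : ∀ n : ℝ, 0 ≤ n → 0 ≤ G n X.card H := by
    intro n hn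
    unfold G
    refine le_max_of_le_left ?_
    have : 0 ≤ min 1 (n / (X.card : ℝ) ^ 2) := le_min (by norm_num) (by positivity)
    positivity
  -- conclusion from a comparison of cardinalities
  have conclude : ∀ (n' : ℕ) (b : ℝ), 0 < n' → A.card ≤ 3 * n' →
      G n' X.card H ≤ 40 * (C2 * (H : ℝ) ^ ε) * b →
      1 / (200 * C2) * (H : ℝ) ^ (-ε) * G A.card X.card H ≤ b := by
    intro n' b hn' hle hb
    have h1 : G A.card X.card H ≤ 5 * G n' X.card H :=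
      G_mono (by exact_mod_cast hn') (by linarith) hH0 (by positivity) (by exact_mod_cast hle)
    rw [hneg]
    have h2 : G A.card X.card H ≤ 200 * C2 * (H : ℝ) ^ ε * b := by
      calc G A.card X.card H ≤ 5 * G n' X.card H := h1
        _ ≤ 5 * (40 * (C2 * (H : ℝ) ^ ε) * b) := by gcongr
        _ = 200 * C2 * (H : ℝ) ^ ε * b := by ring
    calc 1 / (200 * C2) * ((H : ℝ) ^ ε)⁻¹ * G A.card X.card H
        ≤ 1 / (200 * C2) * ((H : ℝ) ^ ε)⁻¹ * (200 * C2 * (H : ℝ) ^ ε * b) := by gcongr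
      _ = b := by
          field_simp
  by_cases h1 : A.card ≤ 1
  · refine ⟨A, Subset.refl _, mulSidon_of_card_le_one h1, ?_⟩
    have hA1 : A.card = 1 := le_antisymm h1 (card_pos.2 ⟨a0, ha0⟩)
    rw [hA1, Nat.cast_one]
    have h2 := G_one_le hm hHR
    have h3 : (H : ℝ) ^ (-ε) ≤ 1 := Real.rpow_le_one_of_one_le_of_nonpos hHR (by linarith)
    have h4 : 1 / (200 * C2) ≤ 1 := by
      rw [div_le_one (by positivity)]
      linarith
    have h5 := hG0 1 (by norm_num)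
    have h6 : 0 ≤ (H : ℝ) ^ (-ε) := by positivity
    calc 1 / (200 * C2) * (H : ℝ) ^ (-ε) * G 1 X.card H ≤ 1 * 1 * 1 := by gcongr
      _ = 1 := by ring
  push Not at h1
  set Ap := A.filter (fun a => 0 < a) with hAp
  set An := A.filter (fun a => a < 0) with hAn
  have hcovc : A.card ≤ Ap.card + An.card + 1 := by
    have h1 : A ⊆ Ap ∪ An ∪ {0} := by
      intro a ha
      rw [mem_union, mem_union, mem_singleton, hAp, hAn, mem_filter, mem_filter]
      rcases lt_trichotomy a 0 with h | h | h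
      · left; right; exact ⟨ha, h⟩
      · right; exact h
      · left; left; exact ⟨ha, h⟩
    have h2 := card_le_card h1
    have h3 := card_union_le (Ap ∪ An) {0}
    have h4 := card_union_le Ap An
    rw [card_singleton] at h3
    omega
  rcases le_total An.card Ap.card with h | h
  · have hne : Ap.Nonempty := card_pos.1 (by omega)
    obtain ⟨B, hB, hBS, hBc⟩ := hpos Ap X d H hd hH hne (fun a ha => (mem_filter.1 ha).2)
      (fun a ha => hc a (mem_filter.1 ha).1)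
    exact ⟨B, hB.trans (filter_subset _ _), hBS,
      conclude Ap.card B.card (card_pos.2 hne) (by omega) hBc⟩
  · have hAnc : Covered An X d H := fun a ha => hc a (mem_filter.1 ha).1
    have hc1 : (An.image (fun a => -a)).card = An.card := card_image_of_injective _ neg_injective
    have hne : (An.image (fun a => -a)).Nonempty := card_pos.1 (by omega)
    have hXc : (X.image (fun x => -x - d * ((H : ℤ) - 1))).card = X.card := by
      apply card_image_of_injective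
      intro a b hab
      simp only at hab
      linarith
    obtain ⟨B, hB, hBS, hBc⟩ := hpos (An.image (fun a => -a)) _ d H hd hH hne (fun a ha => by
        obtain ⟨b, hb, rfl⟩ := mem_image.1 ha
        have := (mem_filter.1 hb).2
        omega) hAnc.neg
    rw [hc1, hXc] at hBc
    refine ⟨B.image (fun a => -a), ?_, hBS.neg, ?_⟩
    · intro a ha
      obtain ⟨b, hb, rfl⟩ := mem_image.1 ha
      obtain ⟨c, hc', rfl⟩ := mem_image.1 (hB hb)
      rw [neg_neg]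
      exact (mem_filter.1 hc').1
    · rw [card_image_of_injective _ neg_injective]
      exact conclude An.card B.card (by omega) (by omega) hBc

end Pool.Agent.Lib.SAP
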