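import Pool.Agent.Lib.SAP.Col
import Pool.Agent.Lib.SAP.Block

/-!
# Solutions in a plane

All differences `w = v' - v` of solutions satisfy `δ w = w i • a + w j • b` with `δ ≠ 0`: the coordinates
`i`, `j` determine the solution. Write `y v = x + d v`.

(1) `card_fibre`: for a fixed value of `v i` there are at most 2 solutions: three of them, `v, w, z`, would
satisfy `δ (w - v) = (w j - v j) b`, `δ (z - v) = (z j - v j) b`, so all the minors in `Sol.not_collinear`
times `δ ^ 2` vanish. Hence `S.card ≤ 2 * (S.image (fun v => v i)).card`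
(`Finset.card_le_mul_card_image`).

(2) `card_diff`: for `t ≠ 0` (a vector) there are at most 2 solutions `v` with `v + t ∈ S`. Suppose `v, w, z`
are three. By `Sol.diff` for `(v, v + t)` etc. `bil (y v) t = bil (y w) t = bil (y z) t = - d q(t)`, so
`bil (w - v) t = 0 = bil (z - v) t` (as `d ≠ 0`); and `bil t t = 2 q(t) ≠ 0` by `Sol.ne`. Put
`A = bil a t`, `B = bil b t`. From `δ bil w' t = w' i A + w' j B` for `w' = w - v, z - v, t`:
`(w - v) i A + (w - v) j B = 0`, `(z - v) i A + (z - v) j B = 0`, `t i A + t j B = 2 δ q(t) ≠ 0`, so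
`(A, B) ≠ 0` and `(w - v) i (z - v) j - (w - v) j (z - v) i = 0`. As the coordinates `i, j` determine the others
linearly, all minors of `(w - v, z - v)` vanish (`δ ^ 2` times the minor `(k, l)` is
`(a k b l - a l b k)` times the minor `(i, j)`): contradiction to `Sol.not_collinear`.

(3) The main bound. Let `G v = bil (y v) a`, `G' v = bil (y v) b`. For `v, w ∈ S`: adding `Sol.diff` for `(v, w)`
and for `(w, v)` (with the opposite sign) gives `bil (y v + y w) (w - v) = 0`, hence
`(w i - v i) (G v + G w) + (w j - v j) (G' v + G' w) = 0`. Split `S` into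
`C₁ = {|G| ≤ |G'|, 0 < G'}`, `C₂ = {|G| ≤ |G'|, G' < 0}`, `C₃ = {|G'| < |G|, 0 < G}`,
`C₄ = {|G'| < |G|, G < 0}`, `C₅ = {G = G' = 0}`. If `v ∈ C₅` and `S` has another element `w` then
`bil (y v) (w - v) = 0` and `Sol.diff` gives `q(w - v) = 0`, impossible; so `C₅` is empty if `S.card ≥ 2`
(if `S.card ≤ 1` the bound is trivial). For `v, w` in `C₁` or `C₂`: `|G v + G w| ≤ |G' v + G' w| ≠ 0`, so
`|w j - v j| ≤ |w i - v i|`: apply `block` to the image of the class under `v ↦ (v i, v j)` (injective on `S`;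
`hdiff` follows from (2): a difference `(s, t)` of images of two solutions is the image of a unique vector
difference, because `δ (v' - v) = s a + t b`). For `C₃`, `C₄` use `v ↦ (v j, v i)`.
-/

set_option autoImplicit false

namespace Pool.Agent.Lib.SAP

open Finset

/-- the plane condition -/
def Plane (S : Finset (Fin 4 → ℤ)) (i j : Fin 4) (a b : Fin 4 → ℤ) (δ : ℤ) : Prop :=
  ∀ v ∈ S, ∀ w ∈ S, ∀ k, δ * (w k - v k) = (w i - v i) * a k + (w j - v j) * b k

namespace PlanarAux

lemma minors {S : Finset (Fin 4 → ℤ)} {i j : Fin 4} {a b : Fin 4 → ℤ} {δ : ℤ} (hδ : δ ≠ 0)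
    (hpl : Plane S i j a b δ) {v w z : Fin 4 → ℤ} (hv : v ∈ S) (hw : w ∈ S) (hz : z ∈ S)
    (h0 : (w i - v i) * (z j - v j) - (w j - v j) * (z i - v i) = 0) (k l : Fin 4) :
    (w k - v k) * (z l - v l) - (w l - v l) * (z k - v k) = 0 := by
  have e1 := hpl v hv w hw k
  have e2 := hpl v hv w hw l
  have e3 := hpl v hv z hz k
  have e4 := hpl v hv z hz l
  have h1 : δ ^ 2 * ((w k - v k) * (z l - v l) - (w l - v l) * (z k - v k)) = 0 := by
    linear_combination (δ * (z l - v l)) * e1 + ((w i - v i) * a k + (w j - v j) * b k) * e4 -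
      (δ * (z k - v k)) * e2 - ((w i - v i) * a l + (w j - v j) * b l) * e3 +
      (a k * b l - a l * b k) * h0
  rcases mul_eq_zero.1 h1 with h2 | h2
  · exact absurd (pow_eq_zero_iff (two_ne_zero)|>.1 h2) hδ
  · exact h2

lemma no_three {d : ℤ} {x : Fin 4 → ℤ} {H : ℕ} {S : Finset (Fin 4 → ℤ)} (h : Sol d x H S)
    (hd : d ≠ 0) {i j : Fin 4} {a b : Fin 4 → ℤ} {δ : ℤ} (hδ : δ ≠ 0) (hpl : Plane S i j a b δ)
    {v w z : Fin 4 → ℤ} (hv : v ∈ S) (hw : w ∈ S) (hz : z ∈ S)
    (h1 : v ≠ w) (h2 : v ≠ z) (h3 : w ≠ z)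
    (h0 : (w i - v i) * (z j - v j) - (w j - v j) * (z i - v i) = 0) : False := by
  obtain ⟨k, l, hkl⟩ := h.not_collinear hd hv hw hz h1 h2 h3
  exact hkl (minors hδ hpl hv hw hz h0 k l)

lemma inj {S : Finset (Fin 4 → ℤ)} {i j : Fin 4} {a b : Fin 4 → ℤ} {δ : ℤ} (hδ : δ ≠ 0)
    (hpl : Plane S i j a b δ) {v w : Fin 4 → ℤ} (hv : v ∈ S) (hw : w ∈ S)
    (hi : w i = v i) (hj : w j = v j) : w = v := by
  funext k
  have e := hpl v hv w hw k
  rw [hi, hj, sub_self, sub_self, zero_mul, zero_mul, add_zero] at e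
  rcases mul_eq_zero.1 e with h | h
  · exact absurd h hδ
  · linarith

lemma slope {X Y P Q : ℤ} (h : X * P + Y * Q = 0) (hPQ : |P| ≤ |Q|) (hQ : Q ≠ 0) : |Y| ≤ |X| := by
  have h1 : |Y| * |Q| = |X| * |P| := by
    rw [← abs_mul, ← abs_mul, ← abs_neg (X * P)]
    congr 1
    linarith
  have h2 : 0 < |Q| := abs_pos.2 hQ
  have h3 : |Y| * |Q| ≤ |X| * |Q| := by
    rw [h1]
    exact mul_le_mul_of_nonneg_left hPQ (abs_nonneg _)
  exact le_of_mul_le_mul_right h3 h2

end PlanarAux

open PlanarAux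

theorem card_fibre {d : ℤ} {x : Fin 4 → ℤ} {H : ℕ} {S : Finset (Fin 4 → ℤ)} (h : Sol d x H S)
    (hd : d ≠ 0) {i j : Fin 4} {a b : Fin 4 → ℤ} {δ : ℤ} (hδ : δ ≠ 0) (hpl : Plane S i j a b δ) :
    S.card ≤ 2 * (S.image (fun v => v i)).card := by
  apply Finset.card_le_mul_card_image
  intro c _
  by_contra hcon
  push Not at hcon
  obtain ⟨v, hv, w, hw, z, hz, h1, h2, h3⟩ := Finset.two_lt_card.1 hcon
  rw [Finset.mem_filter] at hv hw hz
  refine no_three h hd hδ hpl hv.1 hw.1 hz.1 h1 h2 h3 ?_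
  rw [hv.2, hw.2, hz.2]
  ring

theorem card_diff {d : ℤ} {x : Fin 4 → ℤ} {H : ℕ} {S : Finset (Fin 4 → ℤ)} (h : Sol d x H S)
    (hd : d ≠ 0) {i j : Fin 4} {a b : Fin 4 → ℤ} {δ : ℤ} (hδ : δ ≠ 0) (hpl : Plane S i j a b δ)
    (t : Fin 4 → ℤ) (ht : t ≠ 0) : (S.filter (fun v => v + t ∈ S)).card ≤ 2 := by
  by_contra hcon
  push Not at hcon
  obtain ⟨v, hv, w, hw, z, hz, h1, h2, h3⟩ := Finset.two_lt_card.1 hcon
  rw [Finset.mem_filter] at hv hw hz
  have key : ∀ u : Fin 4 → ℤ, u ∈ S → u + t ∈ S →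
      bil (fun i => x i + d * u i) t + d * qf t = 0 := by
    intro u hu hut
    have e := h.diff hd hu hut
    have e2 : (fun i => (u + t) i - u i) = t := by
      funext i
      simp
    rw [e2] at e
    exact e
  have hqt : qf t ≠ 0 := by
    have hne : v ≠ v + t := by
      intro h0
      apply ht
      funext i
      have := congrFun h0 i
      simp at this
      simpa using this
    have e := h.ne v hv.1 (v + t) hv.2 hne
    have e2 : (fun i => (v + t) i - v i) = t := by
      funext i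
      simp
    rw [e2] at e
    exact e
  have kv := key v hv.1 hv.2
  have kw := key w hw.1 hw.2
  have kz := key z hz.1 hz.2
  have bw : bil (fun i => w i - v i) t = 0 := by
    apply mul_left_cancel₀ hd
    unfold bil at *
    linear_combination kw - kv
  have bz : bil (fun i => z i - v i) t = 0 := by
    apply mul_left_cancel₀ hd
    unfold bil at *
    linear_combination kz - kv
  have lin : ∀ u ∈ S, δ * bil (fun i => u i - v i) t =
      (u i - v i) * bil a t + (u j - v j) * bil b t := by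
    intro u hu
    have p0 := hpl v hv.1 u hu 0
    have p1 := hpl v hv.1 u hu 1
    have p2 := hpl v hv.1 u hu 2
    have p3 := hpl v hv.1 u hu 3
    unfold bil
    linear_combination t 1 * p0 + t 0 * p1 - t 3 * p2 - t 2 * p3
  have lw := lin w hw.1
  have lz := lin z hz.1
  have lt := lin (v + t) hv.2
  rw [bw, mul_zero] at lw
  rw [bz, mul_zero] at lz
  have e2 : (fun i => (v + t) i - v i) = t := by
    funext i
    simp
  rw [e2] at lt
  have btt : bil t t = 2 * qf t := by
    unfold bil qf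
    ring
  rw [btt] at lt
  have hne : bil a t ≠ 0 ∨ bil b t ≠ 0 := by
    by_contra h0
    push Not at h0
    rw [h0.1, h0.2, mul_zero, mul_zero, add_zero] at lt
    rcases mul_eq_zero.1 lt with h4 | h4
    · exact hδ h4
    · rcases mul_eq_zero.1 h4 with h5 | h5
      · exact absurd h5 two_ne_zero
      · exact hqt h5
  refine no_three h hd hδ hpl hv.1 hw.1 hz.1 h1 h2 h3 ?_
  rcases hne with hA | hB
  · apply mul_left_cancel₀ hA
    linear_combination (w j - v j) * lz - (z j - v j) * lw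
  · apply mul_left_cancel₀ hB
    linear_combination (z i - v i) * lw - (w i - v i) * lz

namespace PlanarAux

lemma cls {d : ℤ} {x : Fin 4 → ℤ} {H : ℕ} {S : Finset (Fin 4 → ℤ)} (h : Sol d x H S)
    (hd : d ≠ 0) {i j : Fin 4} {a b : Fin 4 → ℤ} {δ : ℤ} (hδ : δ ≠ 0) (hpl : Plane S i j a b δ)
    (R : ℕ) (hR : 1 ≤ R) (C : Finset (Fin 4 → ℤ)) (hC : C ⊆ S)
    (hs : ∀ v ∈ C, ∀ w ∈ C, |w j - v j| ≤ |w i - v i|) :
    C.card ≤ H / R + 1 + 4 * R ^ 2 := by
  classical
  have hinj : Set.InjOn (fun v : Fin 4 → ℤ => (v i, v j)) (C : Set (Fin 4 → ℤ)) := by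
    intro v hv w hw hvw
    simp only [Prod.mk.injEq] at hvw
    exact (inj hδ hpl (hC hv) (hC hw) hvw.1.symm hvw.2.symm).symm
  rw [← Finset.card_image_of_injOn hinj]
  apply block _ H R hR
  · intro p hp
    obtain ⟨v, hv, rfl⟩ := Finset.mem_image.1 hp
    exact h.box v (hC hv) i
  · intro p hp p' hp'
    obtain ⟨v, hv, rfl⟩ := Finset.mem_image.1 hp
    obtain ⟨w, hw, rfl⟩ := Finset.mem_image.1 hp'
    exact hs v hv w hw
  · intro w hw
    by_contra hcon
    push Not at hcon
    obtain ⟨p1, hp1, p2, hp2, p3, hp3, h12, h13, h23⟩ := Finset.two_lt_card.1 hcon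
    rw [Finset.mem_filter] at hp1 hp2 hp3
    obtain ⟨hp1, hq1⟩ := hp1
    obtain ⟨hp2, hq2⟩ := hp2
    obtain ⟨hp3, hq3⟩ := hp3
    obtain ⟨v1, hv1, rfl⟩ := Finset.mem_image.1 hp1
    obtain ⟨v2, hv2, rfl⟩ := Finset.mem_image.1 hp2
    obtain ⟨v3, hv3, rfl⟩ := Finset.mem_image.1 hp3
    obtain ⟨u1, hu1, e1⟩ := Finset.mem_image.1 hq1
    obtain ⟨u2, hu2, e2⟩ := Finset.mem_image.1 hq2
    obtain ⟨u3, hu3, e3⟩ := Finset.mem_image.1 hq3
    have key : ∀ u ∈ C, ∀ v ∈ C, (u i, u j) = (v i, v j) + w →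
        ∀ k, δ * (u k - v k) = w.1 * a k + w.2 * b k := by
      intro u hu v hv e k
      rw [hpl v (hC hv) u (hC hu) k]
      have e1 : u i = v i + w.1 := congrArg Prod.fst e
      have e2 : u j = v j + w.2 := congrArg Prod.snd e
      rw [e1, e2]
      ring
    have k1 := key u1 hu1 v1 hv1 e1
    have k2 := key u2 hu2 v2 hv2 e2
    have k3 := key u3 hu3 v3 hv3 e3
    have ht : u1 - v1 ≠ 0 := by
      intro h0
      apply hw
      have e : u1 = v1 := sub_eq_zero.1 h0
      rw [e] at e1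
      have : (v1 i, v1 j) + 0 = (v1 i, v1 j) + w := by rw [add_zero]; exact e1
      exact (add_left_cancel this).symm
    have hfil : ∀ u ∈ C, ∀ v ∈ C, (∀ k, δ * (u k - v k) = w.1 * a k + w.2 * b k) →
        v ∈ S.filter (fun v => v + (u1 - v1) ∈ S) := by
      intro u hu v hv hk
      rw [Finset.mem_filter]
      refine ⟨hC hv, ?_⟩
      have : v + (u1 - v1) = u := by
        funext k
        have h1 := hk k
        have h2 := k1 k
        have h3 : δ * (u k - v k) = δ * (u1 k - v1 k) := by rw [h1, h2]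
        have h4 := mul_left_cancel₀ hδ h3
        simp only [Pi.add_apply, Pi.sub_apply]
        linarith
      rw [this]
      exact hC hu
    have hle := card_diff h hd hδ hpl (u1 - v1) ht
    have hlt : 2 < (S.filter (fun v => v + (u1 - v1) ∈ S)).card := by
      apply Finset.two_lt_card.2
      refine ⟨v1, hfil u1 hu1 v1 hv1 k1, v2, hfil u2 hu2 v2 hv2 k2, v3, hfil u3 hu3 v3 hv3 k3,
        ?_, ?_, ?_⟩
      · rintro rfl
        exact h12 rfl
      · rintro rfl
        exact h13 rfl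
      · rintro rfl
        exact h23 rfl
    omega

end PlanarAux

theorem planar {d : ℤ} {x : Fin 4 → ℤ} {H : ℕ} {S : Finset (Fin 4 → ℤ)} (h : Sol d x H S)
    (hd : d ≠ 0) {i j : Fin 4} {a b : Fin 4 → ℤ} {δ : ℤ} (hδ : δ ≠ 0) (hpl : Plane S i j a b δ)
    (R : ℕ) (hR : 1 ≤ R) : S.card ≤ 4 * (H / R + 1 + 4 * R ^ 2) := by
  classical
  rcases Nat.lt_or_ge 1 S.card with hS | hS
  swap
  · have : 0 ≤ H / R := Nat.zero_le _
    omega
  set G : (Fin 4 → ℤ) → ℤ := fun v => bil (fun k => x k + d * v k) a with hG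
  set G' : (Fin 4 → ℤ) → ℤ := fun v => bil (fun k => x k + d * v k) b with hG'
  have lin : ∀ v ∈ S, ∀ w ∈ S, δ * bil (fun k => x k + d * v k) (fun k => w k - v k) =
      (w i - v i) * G v + (w j - v j) * G' v := by
    intro v hv w hw
    have p0 := hpl v hv w hw 0
    have p1 := hpl v hv w hw 1
    have p2 := hpl v hv w hw 2
    have p3 := hpl v hv w hw 3
    simp only [hG, hG']
    unfold bil
    linear_combination (x 0 + d * v 0) * p1 + (x 1 + d * v 1) * p0 - (x 2 + d * v 2) * p3 -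
      (x 3 + d * v 3) * p2
  have main : ∀ v ∈ S, ∀ w ∈ S, (w i - v i) * (G v + G w) + (w j - v j) * (G' v + G' w) = 0 := by
    intro v hv w hw
    have e1 := h.diff hd hv hw
    have e2 := h.diff hd hw hv
    have l1 := lin v hv w hw
    have l2 := lin w hw v hv
    have e3 : bil (fun k => x k + d * v k) (fun k => w k - v k) =
        bil (fun k => x k + d * w k) (fun k => v k - w k) := by
      have : qf (fun k => w k - v k) = qf (fun k => v k - w k) := by
        unfold qf
        ring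
      rw [this] at e1
      linarith
    rw [← e3] at l2
    linear_combination l2 - l1
  have nz : ∀ v ∈ S, ¬ (G v = 0 ∧ G' v = 0) := by
    intro v hv h0
    obtain ⟨w, hw, hne⟩ := Finset.exists_mem_ne hS v
    have l1 := lin v hv w hw
    rw [h0.1, h0.2, mul_zero, mul_zero, add_zero] at l1
    rcases mul_eq_zero.1 l1 with h2 | h2
    · exact hδ h2
    · have e1 := h.diff hd hv hw
      rw [h2, zero_add] at e1
      rcases mul_eq_zero.1 e1 with h3 | h3
      · exact hd h3
      · exact h.ne v hv w hw (Ne.symm hne) h3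
  have hplane' : Plane S j i b a δ := by
    intro v hv w hw k
    rw [hpl v hv w hw k]
    ring
  set C1 := S.filter (fun v => |G v| ≤ |G' v| ∧ 0 < G' v) with hC1
  set C2 := S.filter (fun v => |G v| ≤ |G' v| ∧ G' v < 0) with hC2
  set C3 := S.filter (fun v => |G' v| < |G v| ∧ 0 < G v) with hC3
  set C4 := S.filter (fun v => |G' v| < |G v| ∧ G v < 0) with hC4
  have b1 : C1.card ≤ H / R + 1 + 4 * R ^ 2 := by
    apply cls h hd hδ hpl R hR C1 (Finset.filter_subset _ _)
    intro v hv w hw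
    rw [hC1, Finset.mem_filter] at hv hw
    apply slope (main v hv.1 w hw.1)
    · have a1 := hv.2.1
      have a2 := hw.2.1
      rw [abs_of_pos hv.2.2] at a1
      rw [abs_of_pos hw.2.2] at a2
      rw [abs_of_pos (add_pos hv.2.2 hw.2.2)]
      exact (abs_add_le _ _).trans (add_le_add a1 a2)
    · have := add_pos hv.2.2 hw.2.2
      exact this.ne'
  have b2 : C2.card ≤ H / R + 1 + 4 * R ^ 2 := by
    apply cls h hd hδ hpl R hR C2 (Finset.filter_subset _ _)
    intro v hv w hw
    rw [hC2, Finset.mem_filter] at hv hw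
    apply slope (main v hv.1 w hw.1)
    · have a1 := hv.2.1
      have a2 := hw.2.1
      rw [abs_of_neg hv.2.2] at a1
      rw [abs_of_neg hw.2.2] at a2
      rw [abs_of_neg (add_neg hv.2.2 hw.2.2)]
      refine (abs_add_le _ _).trans ?_
      linarith
    · have := add_neg hv.2.2 hw.2.2
      exact this.ne
  have b3 : C3.card ≤ H / R + 1 + 4 * R ^ 2 := by
    apply cls h hd hδ hplane' R hR C3 (Finset.filter_subset _ _)
    intro v hv w hw
    rw [hC3, Finset.mem_filter] at hv hw
    have m := main v hv.1 w hw.1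
    rw [add_comm] at m
    apply slope m
    · have a1 := hv.2.1
      have a2 := hw.2.1
      rw [abs_of_pos hv.2.2] at a1
      rw [abs_of_pos hw.2.2] at a2
      rw [abs_of_pos (add_pos hv.2.2 hw.2.2)]
      exact (abs_add_le _ _).trans (add_le_add a1.le a2.le)
    · have := add_pos hv.2.2 hw.2.2
      exact this.ne'
  have b4 : C4.card ≤ H / R + 1 + 4 * R ^ 2 := by
    apply cls h hd hδ hplane' R hR C4 (Finset.filter_subset _ _)
    intro v hv w hw
    rw [hC4, Finset.mem_filter] at hv hw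
    have m := main v hv.1 w hw.1
    rw [add_comm] at m
    apply slope m
    · have a1 := hv.2.1
      have a2 := hw.2.1
      rw [abs_of_neg hv.2.2] at a1
      rw [abs_of_neg hw.2.2] at a2
      rw [abs_of_neg (add_neg hv.2.2 hw.2.2)]
      refine (abs_add_le _ _).trans ?_
      linarith
    · have := add_neg hv.2.2 hw.2.2
      exact this.ne
  have hcov : S ⊆ (C1 ∪ C2) ∪ (C3 ∪ C4) := by
    intro v hv
    simp only [hC1, hC2, hC3, hC4, Finset.mem_union, Finset.mem_filter]
    rcases le_or_gt (|G v|) (|G' v|) with hle | hlt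
    · rcases lt_trichotomy (G' v) 0 with h0 | h0 | h0
      · exact Or.inl (Or.inr ⟨hv, hle, h0⟩)
      · exfalso
        rw [h0, abs_zero] at hle
        exact nz v hv ⟨abs_eq_zero.1 (le_antisymm hle (abs_nonneg _)), h0⟩
      · exact Or.inl (Or.inl ⟨hv, hle, h0⟩)
    · rcases lt_trichotomy (G v) 0 with h0 | h0 | h0
      · exact Or.inr (Or.inr ⟨hv, hlt, h0⟩)
      · exfalso
        rw [h0, abs_zero] at hlt
        exact absurd hlt (not_lt.2 (abs_nonneg _))
      · exact Or.inr (Or.inl ⟨hv, hlt, h0⟩)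
  have hc := Finset.card_le_card hcov
  have u1 := Finset.card_union_le (C1 ∪ C2) (C3 ∪ C4)
  have u2 := Finset.card_union_le C1 C2
  have u3 := Finset.card_union_le C3 C4
  omega

end Pool.Agent.Lib.SAP
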