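import Pool.Agent.Lib.SAP.Defs

/-!
# Pairs of given ratio in two translates

For `p, q ∈ [1, H]` let `ratio A p q` be the set of `(a, c) ∈ A × A` with `q a = p c`.
-/

set_option autoImplicit false

namespace Pool.Agent.Lib.SAP

open Finset

/-- the pairs with `q a = p c` -/
def ratio (A : Finset ℤ) (p q : ℤ) : Finset (ℤ × ℤ) :=
  (A ×ˢ A).filter (fun t => q * t.1 = p * t.2)

/-- the pairs with `q a = p c`, `a` over `i` and `c` over `j` -/
def nij (A : Finset ℤ) (F : ℤ → ℤ) (p q i j : ℤ) : Finset (ℤ × ℤ) :=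
  (ratio A p q).filter (fun t => F t.1 = i ∧ F t.2 = j)

/-- small translates -/
def Small (d : ℤ) (H : ℕ) (i : ℤ) : Prop :=
  ∃ D k : ℤ, D ≠ 0 ∧ |D| ≤ 2 * (H : ℤ) ^ 2 ∧ |k| ≤ 2 * (H : ℤ) ^ 3 ∧ D * i = d * k

namespace RatioAux

theorem mem_ratio {A : Finset ℤ} {p q : ℤ} {t : ℤ × ℤ} :
    t ∈ ratio A p q ↔ t.1 ∈ A ∧ t.2 ∈ A ∧ q * t.1 = p * t.2 := by
  unfold ratio
  rw [Finset.mem_filter, Finset.mem_product]
  tauto

theorem mem_nij {A : Finset ℤ} {F : ℤ → ℤ} {p q i j : ℤ} {t : ℤ × ℤ} :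
    t ∈ nij A F p q i j ↔
      t.1 ∈ A ∧ t.2 ∈ A ∧ q * t.1 = p * t.2 ∧ F t.1 = i ∧ F t.2 = j := by
  unfold nij
  rw [Finset.mem_filter, mem_ratio]
  tauto

/-- a set of integers in `[0, H)` in one class modulo `p` -/
theorem card_class {S : Finset ℤ} {p : ℤ} {H K : ℕ} (hp : 1 ≤ p) (hpH : p ≤ H) (hK : (K : ℤ) < p)
    (h0 : ∀ s ∈ S, 0 ≤ s ∧ s < H) (hc : ∀ s ∈ S, ∀ t ∈ S, p ∣ s - t) : K * S.card ≤ 2 * H := by
  have hp0 : (0 : ℤ) < p := by linarith
  have hH : (1 : ℤ) ≤ H := le_trans hp hpH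
  have h1 : S.card ≤ (Finset.Icc (0 : ℤ) (((H : ℤ) - 1) / p)).card := by
    apply Finset.card_le_card_of_injOn (fun s => s / p)
    · intro s hs
      have hs' := h0 s hs
      simp only [Finset.coe_Icc, Set.mem_Icc]
      exact ⟨Int.ediv_nonneg hs'.1 hp0.le, Int.ediv_le_ediv hp0 (by linarith)⟩
    · intro s hs t ht hst
      simp only at hst
      obtain ⟨k, hk⟩ := hc s hs t ht
      have e1 := Int.emod_add_mul_ediv s p
      have e2 := Int.emod_add_mul_ediv t p
      have e3 : s % p = t % p := by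
        have : s = t + p * k := by linarith
        rw [this, Int.add_mul_emod_self_left]
      rw [hst, e3] at e1
      linarith
  rw [Int.card_Icc] at h1
  have h2 : (0 : ℤ) ≤ ((H : ℤ) - 1) / p := Int.ediv_nonneg (by linarith) hp0.le
  have h3 : ((S.card : ℕ) : ℤ) ≤ ((H : ℤ) - 1) / p + 1 := by
    have : ((S.card : ℕ) : ℤ) ≤ ((((H : ℤ) - 1) / p + 1 - 0).toNat : ℤ) := by exact_mod_cast h1
    rw [Int.toNat_of_nonneg (by linarith)] at this
    linarith
  have h4 : p * (((H : ℤ) - 1) / p) ≤ (H : ℤ) - 1 := Int.mul_ediv_self_le (by linarith)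
  have hK0 : (0 : ℤ) ≤ K := by positivity
  have h5 : (K : ℤ) * (S.card : ℤ) ≤ 2 * H := by
    calc (K : ℤ) * (S.card : ℤ) ≤ K * (((H : ℤ) - 1) / p + 1) := by
          apply mul_le_mul_of_nonneg_left h3 hK0
      _ = K * (((H : ℤ) - 1) / p) + K := by ring
      _ ≤ p * (((H : ℤ) - 1) / p) + K := by
          have := mul_le_mul_of_nonneg_right hK.le h2
          linarith
      _ ≤ 2 * H := by linarith
  exact_mod_cast h5

/-- coprime positive pairs are proportional only if they are equal -/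
theorem eq_of_prop {p q p' q' : ℤ} (hp : 1 ≤ p) (hp' : 1 ≤ p')
    (hcop : IsCoprime p q) (hcop' : IsCoprime p' q') (h : q * p' = q' * p) : (p, q) = (p', q') := by
  have h1 : p ∣ p' := by
    apply hcop.dvd_of_dvd_mul_left
    exact ⟨q', by linarith⟩
  have h2 : p' ∣ p := by
    apply hcop'.dvd_of_dvd_mul_left
    exact ⟨q, by linarith⟩
  have h3 : p = p' := by
    apply le_antisymm
    · exact Int.le_of_dvd (by linarith) h1
    · exact Int.le_of_dvd (by linarith) h2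
  subst h3
  have h4 : q = q' := by
    apply mul_right_cancel₀ (b := p) (by linarith)
    exact h
  rw [h4]

end RatioAux

open RatioAux

/-- `a` determines `c` -/
theorem card_ratio_le (A : Finset ℤ) (p q : ℤ) (hp : 1 ≤ p) : (ratio A p q).card ≤ A.card := by
  apply Finset.card_le_card_of_injOn (fun t => t.1)
  · intro t ht
    exact (mem_ratio.1 ht).1
  · intro t ht s hs hts
    simp only at hts
    have h1 := (mem_ratio.1 ht).2.2
    have h2 := (mem_ratio.1 hs).2.2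
    refine Prod.ext hts ?_
    apply mul_left_cancel₀ (a := p) (by linarith)
    rw [← h1, ← h2, hts]

theorem card_nij_le_fibre (A : Finset ℤ) (F : ℤ → ℤ) (p q i j : ℤ) (hp : 1 ≤ p) :
    (nij A F p q i j).card ≤ (A.filter (fun a => F a = i)).card := by
  apply Finset.card_le_card_of_injOn (fun t => t.1)
  · intro t ht
    have h := mem_nij.1 ht
    simp only [Finset.coe_filter, Set.mem_ofPred_eq]
    exact ⟨h.1, h.2.2.2.1⟩
  · intro t ht s hs hts
    simp only at hts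
    have h1 := (mem_nij.1 ht).2.2.1
    have h2 := (mem_nij.1 hs).2.2.1
    refine Prod.ext hts ?_
    apply mul_left_cancel₀ (a := p) (by linarith)
    rw [← h1, ← h2, hts]

/-- Proof. For two elements `(a, c), (a', c')` of `nij`: `q d (u a - u a') = p d (u c - u c')`, so
`p ∣ u a - u a'` and `q ∣ u c - u c'` (coprime). If `K < p`: `(a, c) ↦ u a` is injective on `nij` (`a = i + d u a`,
`c` is determined by `a`), its values lie in `[0, H)` and in one class modulo `p`, so there are at most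
`(H - 1) / p + 1` of them, and `K * ((H - 1) / p + 1) ≤ H + K ≤ 2 H` as `K < p ≤ H`. If `K < q` use
`(a, c) ↦ u c` in the same way. -/
theorem card_nij_le {A X : Finset ℤ} {d : ℤ} {H : ℕ} {F u : ℤ → ℤ} (h : Cov A X d H F u)
    (hd : 0 < d) (K : ℕ) (p q i j : ℤ) (hp : 1 ≤ p) (hpH : p ≤ H) (hq : 1 ≤ q) (hqH : q ≤ H)
    (hcop : IsCoprime p q) (hK : (K : ℤ) < p ∨ (K : ℤ) < q) :
    K * (nij A F p q i j).card ≤ 2 * H := by
  have key : ∀ t ∈ nij A F p q i j, ∀ s ∈ nij A F p q i j,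
      q * (u t.1 - u s.1) = p * (u t.2 - u s.2) := by
    intro t ht s hs
    obtain ⟨a1, a2, a3, a4, a5⟩ := mem_nij.1 ht
    obtain ⟨b1, b2, b3, b4, b5⟩ := mem_nij.1 hs
    have e1 := h.eq _ a1
    have e2 := h.eq _ a2
    have e3 := h.eq _ b1
    have e4 := h.eq _ b2
    rw [a4] at e1
    rw [a5] at e2
    rw [b4] at e3
    rw [b5] at e4
    apply mul_left_cancel₀ (a := d) hd.ne'
    linear_combination a3 - b3 - q * e1 + p * e2 + q * e3 - p * e4
  rcases hK with hK | hK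
  · have hinj : Set.InjOn (fun t : ℤ × ℤ => u t.1) (nij A F p q i j : Set (ℤ × ℤ)) := by
      intro t ht s hs hts
      simp only at hts
      obtain ⟨a1, a2, a3, a4, a5⟩ := mem_nij.1 ht
      obtain ⟨b1, b2, b3, b4, b5⟩ := mem_nij.1 hs
      have e : t.1 = s.1 := by
        rw [h.eq _ a1, h.eq _ b1, a4, b4, hts]
      refine Prod.ext e ?_
      apply mul_left_cancel₀ (a := p) (by linarith)
      rw [← a3, ← b3, e]
    rw [← Finset.card_image_of_injOn hinj]
    apply card_class hp hpH hK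
    · intro s hs
      obtain ⟨t, ht, rfl⟩ := Finset.mem_image.1 hs
      have a1 := (mem_nij.1 ht).1
      exact ⟨h.lo _ a1, h.hi _ a1⟩
    · intro s hs s' hs'
      obtain ⟨t, ht, rfl⟩ := Finset.mem_image.1 hs
      obtain ⟨t', ht', rfl⟩ := Finset.mem_image.1 hs'
      apply hcop.dvd_of_dvd_mul_left
      exact ⟨_, key t ht t' ht'⟩
  · have hinj : Set.InjOn (fun t : ℤ × ℤ => u t.2) (nij A F p q i j : Set (ℤ × ℤ)) := by
      intro t ht s hs hts
      simp only at hts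
      obtain ⟨a1, a2, a3, a4, a5⟩ := mem_nij.1 ht
      obtain ⟨b1, b2, b3, b4, b5⟩ := mem_nij.1 hs
      have e : t.2 = s.2 := by
        rw [h.eq _ a2, h.eq _ b2, a5, b5, hts]
      refine Prod.ext ?_ e
      apply mul_left_cancel₀ (a := q) (by linarith)
      rw [a3, b3, e]
    rw [← Finset.card_image_of_injOn hinj]
    apply card_class hq hqH hK
    · intro s hs
      obtain ⟨t, ht, rfl⟩ := Finset.mem_image.1 hs
      have a1 := (mem_nij.1 ht).2.1
      exact ⟨h.lo _ a1, h.hi _ a1⟩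
    · intro s hs s' hs'
      obtain ⟨t, ht, rfl⟩ := Finset.mem_image.1 hs
      obtain ⟨t', ht', rfl⟩ := Finset.mem_image.1 hs'
      apply hcop.symm.dvd_of_dvd_mul_left
      exact ⟨_, (key t ht t' ht').symm⟩

/-- Proof. `q i - p j = d γ`, `q' i - p' j = d γ'` with `γ = p * u c - q * u a`, `|γ| ≤ H ^ 2`, and the same for
`γ'`; `Δ = q p' - q' p ≠ 0` (two different coprime pairs of positive integers are not proportional),
`|Δ| ≤ H ^ 2`, and `Δ i = d (p' γ - p γ')`, `Δ j = d (q' γ - q γ')`. -/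
theorem small_of_nij {A X : Finset ℤ} {d : ℤ} {H : ℕ} {F u : ℤ → ℤ} (h : Cov A X d H F u)
    (p q p' q' i j : ℤ) (hp : 1 ≤ p) (hpH : p ≤ H) (hq : 1 ≤ q) (hqH : q ≤ H)
    (hcop : IsCoprime p q) (hp' : 1 ≤ p') (hpH' : p' ≤ H) (hq' : 1 ≤ q') (hqH' : q' ≤ H)
    (hcop' : IsCoprime p' q') (hne : (p, q) ≠ (p', q'))
    (h1 : (nij A F p q i j).Nonempty) (h2 : (nij A F p' q' i j).Nonempty) :
    Small d H i ∧ Small d H j := by
  have hH : (1 : ℤ) ≤ H := le_trans hp hpH
  have gam : ∀ p q : ℤ, 1 ≤ p → p ≤ H → 1 ≤ q → q ≤ H → (nij A F p q i j).Nonempty →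
      ∃ γ : ℤ, |γ| ≤ (H : ℤ) ^ 2 ∧ q * i - p * j = d * γ := by
    intro p q hp hpH hq hqH hn
    obtain ⟨t, ht⟩ := hn
    obtain ⟨a1, a2, a3, a4, a5⟩ := mem_nij.1 ht
    have e1 := h.eq _ a1
    have e2 := h.eq _ a2
    have l1 := h.lo _ a1
    have l2 := h.lo _ a2
    have u1 := h.hi _ a1
    have u2 := h.hi _ a2
    rw [a4] at e1
    rw [a5] at e2
    refine ⟨p * u t.2 - q * u t.1, ?_, ?_⟩
    · rw [abs_le]
      have m1 : p * u t.2 ≤ (H : ℤ) * H := mul_le_mul hpH u2.le l2 (by linarith)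
      have m2 : q * u t.1 ≤ (H : ℤ) * H := mul_le_mul hqH u1.le l1 (by linarith)
      have m3 : 0 ≤ p * u t.2 := mul_nonneg (by linarith) l2
      have m4 : 0 ≤ q * u t.1 := mul_nonneg (by linarith) l1
      constructor <;> nlinarith
    · linear_combination a3 - q * e1 + p * e2
  obtain ⟨γ, g1, g2⟩ := gam p q hp hpH hq hqH h1
  obtain ⟨γ', g1', g2'⟩ := gam p' q' hp' hpH' hq' hqH' h2
  have hΔ : q * p' - q' * p ≠ 0 := by
    intro h0
    exact hne (eq_of_prop hp hp' hcop hcop' (by linarith))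
  have hΔb : |q * p' - q' * p| ≤ 2 * (H : ℤ) ^ 2 := by
    have m1 : q * p' ≤ (H : ℤ) * H := mul_le_mul hqH hpH' (by linarith) (by linarith)
    have m2 : q' * p ≤ (H : ℤ) * H := mul_le_mul hqH' hpH (by linarith) (by linarith)
    have m3 : 0 ≤ q * p' := mul_nonneg (by linarith) (by linarith)
    have m4 : 0 ≤ q' * p := mul_nonneg (by linarith) (by linarith)
    rw [abs_le]
    constructor <;> nlinarith
  have bd : ∀ x y : ℤ, 1 ≤ x → x ≤ H → 1 ≤ y → y ≤ H → |x * γ - y * γ'| ≤ 2 * (H : ℤ) ^ 3 := by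
    intro x y hx hxH hy hyH
    calc |x * γ - y * γ'| ≤ |x * γ| + |y * γ'| := abs_sub _ _
      _ = x * |γ| + y * |γ'| := by
          rw [abs_mul, abs_mul, abs_of_nonneg (by linarith : (0 : ℤ) ≤ x),
            abs_of_nonneg (by linarith : (0 : ℤ) ≤ y)]
      _ ≤ (H : ℤ) * (H : ℤ) ^ 2 + (H : ℤ) * (H : ℤ) ^ 2 := by
          apply add_le_add
          · exact mul_le_mul hxH g1 (abs_nonneg _) (by linarith)
          · exact mul_le_mul hyH g1' (abs_nonneg _) (by linarith)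
      _ = 2 * (H : ℤ) ^ 3 := by ring
  refine ⟨⟨q * p' - q' * p, p' * γ - p * γ', hΔ, hΔb, bd p' p hp' hpH' hp hpH, ?_⟩,
    ⟨q * p' - q' * p, q' * γ - q * γ', hΔ, hΔb, bd q' q hq' hqH' hq hqH, ?_⟩⟩
  · linear_combination p' * g2 - p * g2'
  · linear_combination q' * g2 - q * g2'

end Pool.Agent.Lib.SAP
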