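import Pool.Agent.Lib.SAP.Defs

/-!
# An isotropic difference makes a solution short

Proof. `y 0 y 1 = y 2 y 3`, `e 0 e 1 = e 2 e 3`, `y 0 e 1 + y 1 e 0 = y 2 e 3 + y 3 e 2`. Put
`W = y 0 e 1 - y 2 e 3`, `Z = y 0 e 2 - y 2 e 0`. Then `y 0 W = y 3 Z` (use `y 0 y 1 = y 2 y 3` in
`y 0 * (third equation)`), and `e 0 W = e 3 Z` (use the second). If `W = Z = 0`: `y 0 e 1 = y 2 e 3` and
`y 0 e 2 = y 2 e 0`; not all of `e` vanish, so `e 3 ≠ 0` or `e 0 ≠ 0` (if both vanish then `e 1 = e 2 = 0`), and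
`(p, q) = (|e 1|, |e 3|)` or `(|e 2|, |e 0|)` satisfies `q y 2 = ...`: precisely
`|e 1| y 0 = |e 3| y 2`, so `q = |e 1|`, `p = |e 3|` (both nonzero as `y 0, y 2 > 0`), respectively
`q = |e 2|`, `p = |e 0|`. If `(W, Z) ≠ 0`: both `(y 0, y 3)` and `(e 0, e 3)` are orthogonal to `(W, - Z)`, so
`e 0 y 3 = e 3 y 0`; if `(e 0, e 3) ≠ 0` then `q = |e 3|`, `p = |e 0|` satisfy `q y 0 = p y 3`. If
`e 0 = e 3 = 0` then `W = y 0 e 1`, `Z = y 0 e 2`, so `y 0 e 1 = y 3 e 2`, and `q = |e 1|`, `p = |e 2|`.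
-/

set_option autoImplicit false

namespace Pool.Agent.Lib.SAP

namespace ShAux

theorem key (a c : ℤ) (H : ℕ) (ha : 0 < a) (hc : 0 < c) (x y : ℤ) (h : x * a = y * c)
    (hx : x ≠ 0 ∨ y ≠ 0) (hxH : |x| < H) (hyH : |y| < H) :
    ∃ p ∈ Finset.Icc (1 : ℤ) H, ∃ q ∈ Finset.Icc (1 : ℤ) H, q * a = p * c := by
  have hx0 : x ≠ 0 := by
    intro h0
    rcases hx with h1 | h1
    · exact h1 h0
    · rw [h0, zero_mul] at h
      rcases mul_eq_zero.1 h.symm with h2 | h2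
      · exact h1 h2
      · omega
  have hy0 : y ≠ 0 := by
    intro h0
    rw [h0, zero_mul] at h
    rcases mul_eq_zero.1 h with h2 | h2
    · exact hx0 h2
    · omega
  have hx1 : 0 < |x| := abs_pos.2 hx0
  have hy1 : 0 < |y| := abs_pos.2 hy0
  refine ⟨|y|, Finset.mem_Icc.2 ⟨by omega, by omega⟩, |x|, Finset.mem_Icc.2 ⟨by omega, by omega⟩, ?_⟩
  have h3 : |x * a| = |y * c| := by rw [h]
  rw [abs_mul, abs_mul, abs_of_pos ha, abs_of_pos hc] at h3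
  exact h3

end ShAux

theorem short_of_isotropic (y e : Fin 4 → ℤ) (H : ℕ) (hy : ∀ i, 0 < y i) (he : ∃ i, e i ≠ 0)
    (heH : ∀ i, |e i| < H) (h1 : qf y = 0) (h2 : qf e = 0) (h3 : bil y e = 0) :
    ∃ p ∈ Finset.Icc (1 : ℤ) H, ∃ q ∈ Finset.Icc (1 : ℤ) H,
      q * y 0 = p * y 2 ∨ q * y 0 = p * y 3 := by
  have fin2 : ∀ x z : ℤ, x * y 0 = z * y 2 → (x ≠ 0 ∨ z ≠ 0) → |x| < H → |z| < H →
      ∃ p ∈ Finset.Icc (1 : ℤ) H, ∃ q ∈ Finset.Icc (1 : ℤ) H,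
      q * y 0 = p * y 2 ∨ q * y 0 = p * y 3 := by
    intro x z h hx hxH hzH
    obtain ⟨p, hp, q, hq, h⟩ := ShAux.key (y 0) (y 2) H (hy 0) (hy 2) x z h hx hxH hzH
    exact ⟨p, hp, q, hq, Or.inl h⟩
  have fin3 : ∀ x z : ℤ, x * y 0 = z * y 3 → (x ≠ 0 ∨ z ≠ 0) → |x| < H → |z| < H →
      ∃ p ∈ Finset.Icc (1 : ℤ) H, ∃ q ∈ Finset.Icc (1 : ℤ) H,
      q * y 0 = p * y 2 ∨ q * y 0 = p * y 3 := by
    intro x z h hx hxH hzH
    obtain ⟨p, hp, q, hq, h⟩ := ShAux.key (y 0) (y 3) H (hy 0) (hy 3) x z h hx hxH hzH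
    exact ⟨p, hp, q, hq, Or.inr h⟩
  have ha := hy 0
  have hb := hy 1
  have hc := hy 2
  have hd := hy 3
  simp only [qf, bil] at h1 h2 h3
  have hW : y 0 * (y 0 * e 1 - y 2 * e 3) = y 3 * (y 0 * e 2 - y 2 * e 0) := by
    linear_combination y 0 * h3 - e 0 * h1
  have hZ : e 0 * (y 0 * e 1 - y 2 * e 3) = e 3 * (y 0 * e 2 - y 2 * e 0) := by
    linear_combination y 0 * h2
  by_cases hz : y 0 * e 2 - y 2 * e 0 = 0
  · have hw : y 0 * e 1 - y 2 * e 3 = 0 := by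
      rw [hz, mul_zero] at hW
      rcases mul_eq_zero.1 hW with h | h
      · omega
      · exact h
    by_cases h13 : e 1 ≠ 0 ∨ e 3 ≠ 0
    · exact fin2 (e 1) (e 3) (by linear_combination hw) h13 (heH 1) (heH 3)
    · push Not at h13
      refine fin2 (e 2) (e 0) (by linear_combination hz) ?_ (heH 2) (heH 0)
      obtain ⟨i, hi⟩ := he
      fin_cases i
      · exact Or.inr hi
      · exact absurd h13.1 hi
      · exact Or.inl hi
      · exact absurd h13.2 hi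
  · have hmain : (e 3 * y 0 - e 0 * y 3) * (y 0 * e 2 - y 2 * e 0) = 0 := by
      linear_combination e 0 * hW - y 0 * hZ
    have h03 : e 3 * y 0 = e 0 * y 3 := by
      rcases mul_eq_zero.1 hmain with h | h
      · linear_combination h
      · exact absurd h hz
    by_cases h3' : e 3 ≠ 0 ∨ e 0 ≠ 0
    · exact fin3 (e 3) (e 0) h03 h3' (heH 3) (heH 0)
    · push Not at h3'
      have h5 : e 1 * y 0 = e 2 * y 3 := by
        have := h3
        rw [h3'.1, h3'.2] at this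
        linear_combination this
      refine fin3 (e 1) (e 2) h5 ?_ (heH 1) (heH 2)
      obtain ⟨i, hi⟩ := he
      fin_cases i
      · exact absurd h3'.2 hi
      · exact Or.inl hi
      · exact Or.inr hi
      · exact absurd h3'.1 hi

end Pool.Agent.Lib.SAP
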