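import Pool.Agent.Lib.SAP.Ratio
import Pool.Agent.Lib.SAP.Astar

/-!
# The short quadruples

Notation: `n = A.card`, `m = X.card`, `P` the set of coprime pairs `(p, q)` with `p, q ∈ [1, H]`,
`r (p, q) = (ratio A p q).card ≤ n`. If `((a, b), (c, e)) ∈ shortQ A H` with `q a = p c` (`p, q` may be taken
coprime: divide by the gcd), then `a b = c e` gives `q e = p b`: so `(a, c)` and `(e, b)` belong to
`ratio A p q`, and `|shortQ A H| ≤ ∑_{(p, q) ∈ P} r (p, q) ^ 2` (e.g. `shortQ A H` is the image of, or injects into,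
the sigma type over `P` of `ratio × ratio`).
Call `i` small if `Small d H i`; let `A_s = {a ∈ A : F a small}`. For `a ∈ A_s`, `D * F a = d k`:
`D a = d (k + D u a)`, `|k + D u a| ≤ 4 H ^ 3`, `|D| ≤ 2 H ^ 2 ≤ 4 H ^ 3`. So `emul A_s ≤ 2 n ^ 2 T ^ 8` by `emul_astar`
with `U = 4 H ^ 3`, `θ = 0`, `l = 0`. Split `r = r_s + r_o`, `r_s (p, q)` counting the pairs `(a, c)` with
`F a` and `F c` both small; `r ^ 2 ≤ 2 r_s ^ 2 + 2 r_o ^ 2`, and `∑_P r_s ^ 2 ≤ emul A_s` (`q a = p c`, `q e = p b`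
give `a b = c e`, and the coprime pair `(p, q)` is determined by `(a, c)`). Further
`r_o (p, q) ^ 2 ≤ n * r_o (p, q)`, `r_o (p, q) = ∑ |nij A F p q i j|` over the pairs `(i, j) ∈ X × X` which are not
both small, and for such `(i, j)` at most one `(p, q) ∈ P` has `nij` nonempty (`small_of_nij`).
So, summing over `(p, q) ∈ P` with `K < p` or `K < q`: `K ∑ r_o ≤ ∑_{(i, j)} 2 H ≤ 2 H m ^ 2` (`card_nij_le`), and
`K ∑ r ^ 2 ≤ 2 K * 2 n ^ 2 T ^ 8 + 2 n * 2 H m ^ 2`, while the sum over `p, q ≤ K` of `r ^ 2` is at most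
`K ^ 2 n ^ 2`: this is `short_bound`. For `short_bound'`: summing over all of `P`,
`∑ r_o ≤ ∑_{(i, j) ∈ X × X} #{a ∈ A : F a = i} = m n` (`card_nij_le_fibre`), so
`∑_P r ^ 2 ≤ 2 * 2 n ^ 2 T ^ 8 + 2 n * m n`.
It is best to prove one lemma: for a subset `P'` of `P` and a number `B i j` with
`K * |nij A F p q i j| ≤ B i j` for `(p, q) ∈ P'`:
`K * ∑_{P'} r ^ 2 ≤ 4 K n ^ 2 T ^ 8 + 2 n ∑_{(i, j) ∈ X × X} B i j`.
-/

set_option autoImplicit false

namespace Pool.Agent.Lib.SAP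

open Finset

namespace ShortAux

open RatioAux

/-- the coprime pairs in `[1, H]` -/
noncomputable def cpr (H : ℕ) : Finset (ℤ × ℤ) := by
  classical
  exact ((Finset.Icc (1 : ℤ) H) ×ˢ (Finset.Icc (1 : ℤ) H)).filter (fun t => IsCoprime t.1 t.2)

theorem mem_cpr {H : ℕ} {t : ℤ × ℤ} :
    t ∈ cpr H ↔ 1 ≤ t.1 ∧ t.1 ≤ H ∧ 1 ≤ t.2 ∧ t.2 ≤ H ∧ IsCoprime t.1 t.2 := by
  classical
  unfold cpr
  rw [Finset.mem_filter, Finset.mem_product, Finset.mem_Icc, Finset.mem_Icc]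
  tauto

theorem mem_quads {A : Finset ℤ} {t : (ℤ × ℤ) × (ℤ × ℤ)} :
    t ∈ quads A ↔ t.1.1 ∈ A ∧ t.1.2 ∈ A ∧ t.2.1 ∈ A ∧ t.2.2 ∈ A ∧ t.1.1 * t.1.2 = t.2.1 * t.2.2 := by
  unfold quads
  rw [Finset.mem_filter, Finset.mem_product, Finset.mem_product, Finset.mem_product]
  tauto

/-- the exchange of `((a, c), (e, b))` and `((a, b), (c, e))` -/
def sw (t : (ℤ × ℤ) × (ℤ × ℤ)) : (ℤ × ℤ) × (ℤ × ℤ) := ((t.1.1, t.2.2), (t.1.2, t.2.1))

theorem short_le_sum {A : Finset ℤ} (hpos : ∀ a ∈ A, 0 < a) (H : ℕ) :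
    (shortQ A H).card ≤ ∑ t ∈ cpr H, (ratio A t.1 t.2).card ^ 2 := by
  classical
  have hsub : shortQ A H ⊆
      (cpr H).biUnion (fun t => ((ratio A t.1 t.2) ×ˢ (ratio A t.1 t.2)).image sw) := by
    intro s hs
    unfold shortQ at hs
    rw [Finset.mem_filter] at hs
    obtain ⟨h1, p, hp, q, hq, h2⟩ := hs
    rw [Finset.mem_Icc] at hp hq
    obtain ⟨⟨a, b⟩, ⟨c, e⟩⟩ := s
    obtain ⟨ha, hb, hc, he, habce⟩ := mem_quads.1 h1
    simp only at ha hb hc he habce h2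
    have hgp : 0 < Int.gcd p q := Int.gcd_pos_of_ne_zero_left _ (by linarith)
    obtain ⟨p', q', hco, e1, e2⟩ := Int.exists_gcd_one hgp
    have hg : (1 : ℤ) ≤ (Int.gcd p q : ℤ) := by exact_mod_cast hgp
    set g : ℤ := (Int.gcd p q : ℤ) with hgdef
    have hp'0 : 0 < p' := by
      by_contra hh
      push Not at hh
      have : p' * g ≤ 0 := mul_nonpos_of_nonpos_of_nonneg hh (by linarith)
      linarith [hp.1]
    have hq'0 : 0 < q' := by
      by_contra hh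
      push Not at hh
      have : q' * g ≤ 0 := mul_nonpos_of_nonpos_of_nonneg hh (by linarith)
      linarith [hq.1]
    have hp'1 : p' ≤ p := by
      rw [e1]
      have := mul_le_mul_of_nonneg_left hg hp'0.le
      linarith
    have hq'1 : q' ≤ q := by
      rw [e2]
      have := mul_le_mul_of_nonneg_left hg hq'0.le
      linarith
    have h3 : q' * a = p' * c := by
      apply mul_left_cancel₀ (a := g) (by linarith)
      have := h2
      rw [e1, e2] at this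
      linarith
    have hcpos := hpos c hc
    have h4 : q' * e = p' * b := by
      apply mul_left_cancel₀ (a := c) (by linarith)
      have e5 : q' * (a * b) = q' * (c * e) := by rw [habce]
      have e6 : q' * (a * b) = p' * c * b := by rw [← mul_assoc, h3]
      linarith
    rw [Finset.mem_biUnion]
    refine ⟨(p', q'), mem_cpr.2 ⟨hp'0, le_trans hp'1 hp.2, hq'0, le_trans hq'1 hq.2, Int.isCoprime_iff_gcd_eq_one.2 hco⟩, ?_⟩
    rw [Finset.mem_image]
    refine ⟨((a, c), (e, b)), ?_, rfl⟩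
    rw [Finset.mem_product]
    exact ⟨mem_ratio.2 ⟨ha, hc, h3⟩, mem_ratio.2 ⟨he, hb, h4⟩⟩
  calc (shortQ A H).card ≤ _ := Finset.card_le_card hsub
    _ ≤ ∑ t ∈ cpr H, (((ratio A t.1 t.2) ×ˢ (ratio A t.1 t.2)).image sw).card :=
        Finset.card_biUnion_le
    _ ≤ ∑ t ∈ cpr H, (ratio A t.1 t.2).card ^ 2 := by
        apply Finset.sum_le_sum
        intro t _
        refine le_trans Finset.card_image_le ?_
        rw [Finset.card_product, sq]

theorem sum_le_emul {A : Finset ℤ} (hpos : ∀ a ∈ A, 0 < a) (H : ℕ) (P : Finset (ℤ × ℤ))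
    (hP : P ⊆ cpr H) : ∑ t ∈ P, (ratio A t.1 t.2).card ^ 2 ≤ emul A := by
  classical
  have h1 : ∑ t ∈ P, (ratio A t.1 t.2).card ^ 2 =
      (P.biUnion (fun t => (ratio A t.1 t.2) ×ˢ (ratio A t.1 t.2))).card := by
    rw [Finset.card_biUnion]
    · apply Finset.sum_congr rfl
      intro t _
      rw [Finset.card_product, sq]
    · intro t ht s hs hne
      show Disjoint ((ratio A t.1 t.2) ×ˢ (ratio A t.1 t.2)) ((ratio A s.1 s.2) ×ˢ (ratio A s.1 s.2))
      rw [Finset.disjoint_left]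
      intro x hx hx'
      rw [Finset.mem_product] at hx hx'
      obtain ⟨a1, a2, a3⟩ := mem_ratio.1 hx.1
      obtain ⟨b1, b2, b3⟩ := mem_ratio.1 hx'.1
      obtain ⟨c1, c2, c3, c4, c5⟩ := mem_cpr.1 (hP ht)
      obtain ⟨d1, d2, d3, d4, d5⟩ := mem_cpr.1 (hP hs)
      apply hne
      have hx0 := hpos _ a1
      have hx1 := hpos _ a2
      have : (t.1, t.2) = (s.1, s.2) := by
        apply eq_of_prop c1 d1 c5 d5
        apply mul_left_cancel₀ (a := x.1.1 * x.1.2) (by positivity)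
        have : t.2 * x.1.1 * (s.1 * x.1.2) = t.1 * x.1.2 * (s.2 * x.1.1) := by rw [a3, b3]
        linarith
      simpa using this
  rw [h1]
  unfold emul
  apply Finset.card_le_card_of_injOn sw
  · intro x hx
    rw [Finset.mem_coe, Finset.mem_biUnion] at hx
    obtain ⟨t, ht, hx⟩ := hx
    rw [Finset.mem_product] at hx
    obtain ⟨a1, a2, a3⟩ := mem_ratio.1 hx.1
    obtain ⟨b1, b2, b3⟩ := mem_ratio.1 hx.2
    obtain ⟨c1, c2, c3, c4, c5⟩ := mem_cpr.1 (hP ht)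
    rw [Finset.mem_coe]
    refine mem_quads.2 ⟨a1, b2, a2, b1, ?_⟩
    show x.1.1 * x.2.2 = x.1.2 * x.2.1
    apply mul_left_cancel₀ (a := t.1 * t.2) (by
      have : 0 < t.1 * t.2 := mul_pos (by linarith) (by linarith)
      exact this.ne')
    have : t.2 * x.1.1 * (t.1 * x.2.2) = t.1 * x.1.2 * (t.2 * x.2.1) := by rw [a3, b3]
    linarith
  · intro x _ y _ hxy
    unfold sw at hxy
    simp only [Prod.mk.injEq] at hxy
    obtain ⟨⟨q1, q2⟩, q3, q4⟩ := hxy
    exact Prod.ext (Prod.ext q1 q3) (Prod.ext q4 q2)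

theorem gen {A X : Finset ℤ} {d : ℤ} {H : ℕ} {F u : ℤ → ℤ} (h : Cov A X d H F u)
    (hd : 0 < d) (T : ℕ)
    (hT : ∀ n : ℕ, 1 ≤ n → n ≤ 8 * (4 * H ^ 3) ^ 5 → n.divisors.card ≤ T) (K : ℕ)
    (P : Finset (ℤ × ℤ)) (hP : P ⊆ cpr H) (B : ℤ → ℤ → ℕ)
    (hB : ∀ t ∈ P, ∀ i j : ℤ, K * (nij A F t.1 t.2 i j).card ≤ B i j) :
    K * ∑ t ∈ P, (ratio A t.1 t.2).card ^ 2 ≤
      4 * K * A.card ^ 2 * T ^ 8 + 2 * A.card * ∑ s ∈ X ×ˢ X, B s.1 s.2 := by
  classical
  set As : Finset ℤ := A.filter (fun a => Small d H (F a)) with hAs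
  have hAs_sub : As ⊆ A := Finset.filter_subset _ _
  have hpos_s : ∀ a ∈ As, 0 < a := fun a ha => h.pos a (hAs_sub ha)
  -- energy of the small part
  have hem : emul As ≤ 2 * A.card ^ 2 * T ^ 8 := by
    have h1 := emul_astar As hpos_s d 0 hd (4 * H ^ 3) T ?_ hT
    · refine le_trans h1 ?_
      apply Nat.mul_le_mul_right
      apply Nat.mul_le_mul_left
      exact Nat.pow_le_pow_left (Finset.card_le_card hAs_sub) 2
    · intro a ha
      rw [hAs, Finset.mem_filter] at ha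
      obtain ⟨haA, D, k, hD, hD1, hk, hDk⟩ := ha
      have l1 := h.lo a haA
      have l2 := h.hi a haA
      have hH : (1 : ℤ) ≤ H := by linarith
      have hHH : (H : ℤ) ^ 2 ≤ (H : ℤ) ^ 3 := by
        have := mul_le_mul_of_nonneg_left hH (sq_nonneg (H : ℤ))
        nlinarith
      refine ⟨D, k + D * u a, 0, hD, ?_, ?_, ?_, ?_⟩
      · push_cast
        have : (0 : ℤ) ≤ (H : ℤ) ^ 3 := by positivity
        linarith
      · push_cast
        calc |k + D * u a| ≤ |k| + |D * u a| := abs_add_le _ _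
          _ = |k| + |D| * u a := by rw [abs_mul, abs_of_nonneg l1]
          _ ≤ 2 * (H : ℤ) ^ 3 + 2 * (H : ℤ) ^ 2 * H := by
              apply add_le_add hk
              exact mul_le_mul hD1 l2.le l1 (by positivity)
          _ = 4 * (H : ℤ) ^ 3 := by ring
      · simp
      · have e := h.eq a haA
        rw [e]
        have e2 : F (F a + d * u a) = F a := by rw [← e]
        have e3 : u (F a + d * u a) = u a := by rw [← e]
        rw [e3]
        linear_combination hDk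
  -- the other pairs
  set NS : Finset (ℤ × ℤ) := (X ×ˢ X).filter (fun s => ¬ (Small d H s.1 ∧ Small d H s.2)) with hNS
  let ro : ℤ × ℤ → ℕ := fun t =>
    ((ratio A t.1 t.2).filter (fun x => ¬ (Small d H (F x.1) ∧ Small d H (F x.2)))).card
  have hsplit : ∀ t : ℤ × ℤ, (ratio A t.1 t.2).card = (ratio As t.1 t.2).card + ro t := by
    intro t
    have h1 := Finset.card_filter_add_card_filter_not (s := ratio A t.1 t.2)
      (fun x => (Small d H (F x.1) ∧ Small d H (F x.2)))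
    rw [← h1]
    congr 2
    ext x
    rw [Finset.mem_filter, mem_ratio, mem_ratio, hAs, Finset.mem_filter, Finset.mem_filter]
    tauto
  have hro_le : ∀ t ∈ P, ro t ≤ A.card := by
    intro t ht
    have h1 := card_ratio_le A t.1 t.2 (mem_cpr.1 (hP ht)).1
    have h2 := hsplit t
    omega
  have hro : ∀ t ∈ P, ro t ≤ ∑ s ∈ NS, (nij A F t.1 t.2 s.1 s.2).card := by
    intro t ht
    have hsub : (ratio A t.1 t.2).filter (fun x => ¬ (Small d H (F x.1) ∧ Small d H (F x.2))) ⊆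
        NS.biUnion (fun s => nij A F t.1 t.2 s.1 s.2) := by
      intro x hx
      rw [Finset.mem_filter] at hx
      obtain ⟨a1, a2, a3⟩ := mem_ratio.1 hx.1
      rw [Finset.mem_biUnion]
      refine ⟨(F x.1, F x.2), ?_, ?_⟩
      · rw [hNS, Finset.mem_filter, Finset.mem_product]
        exact ⟨⟨h.mem _ a1, h.mem _ a2⟩, hx.2⟩
      · exact mem_nij.2 ⟨a1, a2, a3, rfl, rfl⟩
    exact le_trans (Finset.card_le_card hsub) Finset.card_biUnion_le
  have hone : ∀ s ∈ NS, ∑ t ∈ P, K * (nij A F t.1 t.2 s.1 s.2).card ≤ B s.1 s.2 := by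
    intro s hs
    rw [hNS, Finset.mem_filter] at hs
    by_cases hex : ∃ t ∈ P, (nij A F t.1 t.2 s.1 s.2).Nonempty
    · obtain ⟨t0, ht0, hn0⟩ := hex
      rw [Finset.sum_eq_single_of_mem t0 ht0]
      · exact hB t0 ht0 _ _
      · intro t ht hne
        have : nij A F t.1 t.2 s.1 s.2 = ∅ := by
          by_contra hh
          have hn := Finset.nonempty_iff_ne_empty.2 hh
          obtain ⟨c1, c2, c3, c4, c5⟩ := mem_cpr.1 (hP ht)
          obtain ⟨d1, d2, d3, d4, d5⟩ := mem_cpr.1 (hP ht0)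
          apply hs.2
          exact small_of_nij h t.1 t.2 t0.1 t0.2 s.1 s.2 c1 c2 c3 c4 c5 d1 d2 d3 d4 d5
            (by simpa using hne) hn hn0
        rw [this]
        simp
    · push Not at hex
      rw [Finset.sum_eq_zero]
      · exact Nat.zero_le _
      · intro t ht
        rw [hex t ht]
        simp
  have hKro : K * ∑ t ∈ P, ro t ≤ ∑ s ∈ X ×ˢ X, B s.1 s.2 := by
    calc K * ∑ t ∈ P, ro t ≤ K * ∑ t ∈ P, ∑ s ∈ NS, (nij A F t.1 t.2 s.1 s.2).card :=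
          Nat.mul_le_mul_left _ (Finset.sum_le_sum hro)
      _ = ∑ s ∈ NS, ∑ t ∈ P, K * (nij A F t.1 t.2 s.1 s.2).card := by
          rw [Finset.sum_comm, Finset.mul_sum]
          apply Finset.sum_congr rfl
          intro s _
          rw [Finset.mul_sum]
      _ ≤ ∑ s ∈ NS, B s.1 s.2 := Finset.sum_le_sum hone
      _ ≤ ∑ s ∈ X ×ˢ X, B s.1 s.2 :=
          Finset.sum_le_sum_of_subset (Finset.filter_subset _ _)
  have hsm := sum_le_emul hpos_s H P hP
  have hsq : ∑ t ∈ P, (ratio A t.1 t.2).card ^ 2 ≤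
      2 * ∑ t ∈ P, (ratio As t.1 t.2).card ^ 2 + 2 * A.card * ∑ t ∈ P, ro t := by
    rw [Finset.mul_sum, Finset.mul_sum, ← Finset.sum_add_distrib]
    apply Finset.sum_le_sum
    intro t ht
    rw [hsplit t]
    have h1 := hro_le t ht
    have h2 : ro t * ro t ≤ A.card * ro t := Nat.mul_le_mul_right _ h1
    zify at h2 ⊢
    nlinarith [sq_nonneg (((ratio As t.1 t.2).card : ℤ) - (ro t : ℤ))]
  calc K * ∑ t ∈ P, (ratio A t.1 t.2).card ^ 2
      ≤ K * (2 * ∑ t ∈ P, (ratio As t.1 t.2).card ^ 2 + 2 * A.card * ∑ t ∈ P, ro t) :=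
        Nat.mul_le_mul_left _ hsq
    _ = 2 * K * ∑ t ∈ P, (ratio As t.1 t.2).card ^ 2 + 2 * A.card * (K * ∑ t ∈ P, ro t) := by ring
    _ ≤ 2 * K * (2 * A.card ^ 2 * T ^ 8) + 2 * A.card * ∑ s ∈ X ×ˢ X, B s.1 s.2 :=
        Nat.add_le_add (Nat.mul_le_mul_left _ (le_trans hsm hem)) (Nat.mul_le_mul_left _ hKro)
    _ = 4 * K * A.card ^ 2 * T ^ 8 + 2 * A.card * ∑ s ∈ X ×ˢ X, B s.1 s.2 := by ring

end ShortAux

open ShortAux

theorem short_bound {A X : Finset ℤ} {d : ℤ} {H : ℕ} {F u : ℤ → ℤ} (h : Cov A X d H F u)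
    (hd : 0 < d) (T : ℕ)
    (hT : ∀ n : ℕ, 1 ≤ n → n ≤ 8 * (4 * H ^ 3) ^ 5 → n.divisors.card ≤ T) (K : ℕ) (hK : 1 ≤ K) :
    K * (shortQ A H).card ≤
      K ^ 3 * A.card ^ 2 + 4 * A.card * X.card ^ 2 * H + 4 * K * A.card ^ 2 * T ^ 8 := by
  classical
  have h0 := short_le_sum h.pos H
  have h1 := Finset.sum_filter_add_sum_filter_not (cpr H)
    (fun t : ℤ × ℤ => t.1 ≤ K ∧ t.2 ≤ K) (fun t => (ratio A t.1 t.2).card ^ 2)
  have h2 : K * ∑ t ∈ (cpr H).filter (fun t : ℤ × ℤ => ¬ (t.1 ≤ K ∧ t.2 ≤ K)),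
      (ratio A t.1 t.2).card ^ 2 ≤
      4 * K * A.card ^ 2 * T ^ 8 + 2 * A.card * ∑ s ∈ X ×ˢ X, 2 * H := by
    apply gen h hd T hT K _ (Finset.filter_subset _ _) (fun _ _ => 2 * H)
    intro t ht i j
    rw [Finset.mem_filter] at ht
    obtain ⟨c1, c2, c3, c4, c5⟩ := mem_cpr.1 ht.1
    apply card_nij_le h hd K t.1 t.2 i j c1 c2 c3 c4 c5
    by_contra hh
    push Not at hh
    exact ht.2 hh
  have h3 : ∑ t ∈ (cpr H).filter (fun t : ℤ × ℤ => (t.1 ≤ K ∧ t.2 ≤ K)),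
      (ratio A t.1 t.2).card ^ 2 ≤ K ^ 2 * A.card ^ 2 := by
    calc _ ≤ ∑ t ∈ (cpr H).filter (fun t : ℤ × ℤ => (t.1 ≤ K ∧ t.2 ≤ K)), A.card ^ 2 := by
          apply Finset.sum_le_sum
          intro t ht
          rw [Finset.mem_filter] at ht
          exact Nat.pow_le_pow_left (card_ratio_le A t.1 t.2 (mem_cpr.1 ht.1).1) 2
      _ = ((cpr H).filter (fun t : ℤ × ℤ => (t.1 ≤ K ∧ t.2 ≤ K))).card * A.card ^ 2 := by
          rw [Finset.sum_const, smul_eq_mul]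
      _ ≤ K ^ 2 * A.card ^ 2 := by
          apply Nat.mul_le_mul_right
          have hsub : (cpr H).filter (fun t : ℤ × ℤ => (t.1 ≤ K ∧ t.2 ≤ K)) ⊆
              (Finset.Icc (1 : ℤ) K) ×ˢ (Finset.Icc (1 : ℤ) K) := by
            intro t ht
            rw [Finset.mem_filter] at ht
            obtain ⟨c1, c2, c3, c4, c5⟩ := mem_cpr.1 ht.1
            rw [Finset.mem_product, Finset.mem_Icc, Finset.mem_Icc]
            exact ⟨⟨c1, ht.2.1⟩, ⟨c3, ht.2.2⟩⟩
          refine le_trans (Finset.card_le_card hsub) ?_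
          rw [Finset.card_product, Int.card_Icc, sq]
          simp
  have h4 : ∑ _s ∈ X ×ˢ X, 2 * H = 2 * X.card ^ 2 * H := by
    rw [Finset.sum_const, Finset.card_product, smul_eq_mul]
    ring
  rw [h4] at h2
  calc K * (shortQ A H).card ≤ K * ∑ t ∈ cpr H, (ratio A t.1 t.2).card ^ 2 :=
        Nat.mul_le_mul_left _ h0
    _ = K * ∑ t ∈ (cpr H).filter (fun t : ℤ × ℤ => (t.1 ≤ K ∧ t.2 ≤ K)),
          (ratio A t.1 t.2).card ^ 2 +
        K * ∑ t ∈ (cpr H).filter (fun t : ℤ × ℤ => ¬ (t.1 ≤ K ∧ t.2 ≤ K)),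
          (ratio A t.1 t.2).card ^ 2 := by
        rw [← mul_add, h1]
    _ ≤ K * (K ^ 2 * A.card ^ 2) +
        (4 * K * A.card ^ 2 * T ^ 8 + 2 * A.card * (2 * X.card ^ 2 * H)) :=
        Nat.add_le_add (Nat.mul_le_mul_left _ h3) h2
    _ = K ^ 3 * A.card ^ 2 + 4 * A.card * X.card ^ 2 * H + 4 * K * A.card ^ 2 * T ^ 8 := by ring

theorem short_bound' {A X : Finset ℤ} {d : ℤ} {H : ℕ} {F u : ℤ → ℤ} (h : Cov A X d H F u)
    (hd : 0 < d) (T : ℕ)
    (hT : ∀ n : ℕ, 1 ≤ n → n ≤ 8 * (4 * H ^ 3) ^ 5 → n.divisors.card ≤ T) :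
    (shortQ A H).card ≤ 4 * A.card ^ 2 * T ^ 8 + 2 * X.card * A.card ^ 2 := by
  classical
  have h0 := short_le_sum h.pos H
  have h2 := gen h hd T hT 1 (cpr H) (Finset.Subset.refl _)
    (fun i _ => (A.filter (fun a => F a = i)).card) (by
      intro t ht i j
      obtain ⟨c1, c2, c3, c4, c5⟩ := mem_cpr.1 ht
      rw [one_mul]
      exact card_nij_le_fibre A F t.1 t.2 i j c1)
  have h3 : ∑ s ∈ X ×ˢ X, (A.filter (fun a => F a = s.1)).card = X.card * A.card := by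
    rw [Finset.sum_product]
    have h4 : ∑ i ∈ X, (A.filter (fun a => F a = i)).card = A.card :=
      (Finset.card_eq_sum_card_fiberwise (fun a ha => h.mem a ha)).symm
    simp only [Finset.sum_const, smul_eq_mul]
    rw [← Finset.mul_sum, h4]
  rw [h3] at h2
  calc (shortQ A H).card ≤ 1 * ∑ t ∈ cpr H, (ratio A t.1 t.2).card ^ 2 := by
        rw [one_mul]; exact h0
    _ ≤ _ := h2
    _ = 4 * A.card ^ 2 * T ^ 8 + 2 * X.card * A.card ^ 2 := by ring

end Pool.Agent.Lib.SAP
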