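import Pool.Agent.Lib.SAP.Jlem
import Pool.Agent.Lib.SAP.Sh
import Pool.Agent.Lib.SAP.Short

/-!
# The energy of a set covered by few translates of an arithmetic progression
-/

set_option autoImplicit false

namespace Pool.Agent.Lib.SAP

open Finset

open scoped Classical in
/-- the elements of `A` over translates related to `θ` -/
noncomputable def As (A : Finset ℤ) (F : ℤ → ℤ) (d : ℤ) (H : ℕ) (θ : ℤ) : Finset ℤ :=
  A.filter (fun a => Rel d (24 * H ^ 4) (F a) θ)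

theorem emul_As {A X : Finset ℤ} {d : ℤ} {H : ℕ} {F u : ℤ → ℤ} (h : Cov A X d H F u)
    (hd : 0 < d) (hH : 1 ≤ H) (θ : ℤ) (T : ℕ)
    (hT : ∀ n : ℕ, 1 ≤ n → n ≤ 8 * (48 * H ^ 5) ^ 5 → n.divisors.card ≤ T) :
    emul (As A F d H θ) ≤ 2 * (As A F d H θ).card ^ 2 * T ^ 8 := by
  classical
  have hH' : (1 : ℤ) ≤ H := by exact_mod_cast hH
  refine emul_astar (As A F d H θ) ?_ d θ hd (48 * H ^ 5) T ?_ hT
  · intro a ha
    rw [As, mem_filter] at ha
    exact h.pos a ha.1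
  · intro a ha
    rw [As, mem_filter] at ha
    obtain ⟨haA, α, β, γ, h0, h1, h2, h3, h4⟩ := ha
    have e1 := h.lo a haA
    have e2 := h.hi a haA
    have e3 := h.eq a haA
    have c1 : ((48 * H ^ 5 : ℕ) : ℤ) = 48 * (H : ℤ) ^ 5 := by push_cast; ring
    have c2 : ((24 * H ^ 4 : ℕ) : ℤ) = 24 * (H : ℤ) ^ 4 := by push_cast; ring
    rw [c2] at h1 h2 h3
    have c3 : (H : ℤ) ^ 4 ≤ (H : ℤ) ^ 5 := pow_le_pow_right₀ hH' (by norm_num)
    have c4 : (0 : ℤ) ≤ (H : ℤ) ^ 4 := by positivity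
    refine ⟨α, γ + α * u a, -β, h0, ?_, ?_, ?_, ?_⟩
    · rw [c1]; linarith
    · rw [c1]
      have : |α * u a| ≤ 24 * (H : ℤ) ^ 4 * H := by
        rw [abs_mul, abs_of_nonneg e1]
        exact mul_le_mul h1 e2.le e1 (by positivity)
      calc |γ + α * u a| ≤ |γ| + |α * u a| := abs_add_le _ _
        _ ≤ 24 * (H : ℤ) ^ 4 + 24 * (H : ℤ) ^ 4 * H := add_le_add h3 this
        _ = 24 * (H : ℤ) ^ 4 + 24 * (H : ℤ) ^ 5 := by ring
        _ ≤ 48 * (H : ℤ) ^ 5 := by linarith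
    · rw [c1, abs_neg]; linarith
    · linear_combination h4 + α * e3

/-- the quadruples which are not short -/
noncomputable def nonShort (A : Finset ℤ) (H : ℕ) : Finset ((ℤ × ℤ) × (ℤ × ℤ)) :=
  (quads A).filter (fun t => ∀ p ∈ Finset.Icc (1 : ℤ) H, ∀ q ∈ Finset.Icc (1 : ℤ) H,
    q * t.1.1 ≠ p * t.2.1 ∧ q * t.1.1 ≠ p * t.2.2)

lemma mem_quads {A : Finset ℤ} {t : (ℤ × ℤ) × (ℤ × ℤ)} : t ∈ quads A ↔
    (((t.1.1 ∈ A ∧ t.1.2 ∈ A) ∧ t.2.1 ∈ A ∧ t.2.2 ∈ A) ∧ t.1.1 * t.1.2 = t.2.1 * t.2.2) := by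
  rw [quads, mem_filter, mem_product, mem_product, mem_product]

theorem emul_le (A : Finset ℤ) (H : ℕ) :
    emul A ≤ 2 * (shortQ A H).card + (nonShort A H).card := by
  have hsub : quads A ⊆ (shortQ A H ∪ (shortQ A H).image (fun t => (t.1, (t.2.2, t.2.1)))) ∪
      nonShort A H := by
    intro t ht
    rw [mem_union, mem_union]
    by_cases h1 : t ∈ shortQ A H
    · exact Or.inl (Or.inl h1)
    by_cases h2 : (t.1, (t.2.2, t.2.1)) ∈ shortQ A H
    · refine Or.inl (Or.inr ?_)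
      rw [mem_image]
      exact ⟨_, h2, rfl⟩
    refine Or.inr ?_
    rw [nonShort, mem_filter]
    refine ⟨ht, fun p hp q hq => ⟨fun e => h1 ?_, fun e => h2 ?_⟩⟩
    · rw [shortQ, mem_filter]
      exact ⟨ht, p, hp, q, hq, e⟩
    · rw [shortQ, mem_filter]
      refine ⟨?_, p, hp, q, hq, e⟩
      rw [mem_quads] at ht ⊢
      obtain ⟨⟨⟨a1, a2⟩, a3, a4⟩, a5⟩ := ht
      exact ⟨⟨⟨a1, a2⟩, a4, a3⟩, by rw [a5]; ring⟩
  calc emul A = (quads A).card := rfl
    _ ≤ _ := card_le_card hsub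
    _ ≤ _ := card_union_le _ _
    _ ≤ _ := Nat.add_le_add_right (card_union_le _ _) _
    _ ≤ ((shortQ A H).card + (shortQ A H).card) + (nonShort A H).card :=
        Nat.add_le_add_right (Nat.add_le_add_left card_image_le _) _
    _ = _ := by ring

/-- the four translates -/
def xv (F : ℤ → ℤ) (t : (ℤ × ℤ) × (ℤ × ℤ)) : Fin 4 → ℤ := ![F t.1.1, F t.1.2, F t.2.1, F t.2.2]

/-- solutions over `x` -/
noncomputable def ovr (A : Finset ℤ) (H : ℕ) (F : ℤ → ℤ) (x : Fin 4 → ℤ) :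
    Finset ((ℤ × ℤ) × (ℤ × ℤ)) := (nonShort A H).filter (fun t => xv F t = x)

lemma over_inj {A X : Finset ℤ} {d : ℤ} {H : ℕ} {F u : ℤ → ℤ} (h : Cov A X d H F u)
    (x : Fin 4 → ℤ) : Set.InjOn (xv u) (ovr A H F x : Set ((ℤ × ℤ) × (ℤ × ℤ))) := by
  rintro ⟨⟨a, b⟩, ⟨c, e⟩⟩ ht ⟨⟨a', b'⟩, ⟨c', e'⟩⟩ ht' heq
  rw [mem_coe, ovr, mem_filter, nonShort, mem_filter, mem_quads] at ht ht'
  obtain ⟨⟨⟨⟨⟨m1, m2⟩, m3, m4⟩, -⟩, -⟩, hx⟩ := ht
  obtain ⟨⟨⟨⟨⟨m1', m2'⟩, m3', m4'⟩, -⟩, -⟩, hx'⟩ := ht'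
  have hF := hx.trans hx'.symm
  have f0 := congrFun hF 0
  have f1 := congrFun hF 1
  have f2 := congrFun hF 2
  have f3 := congrFun hF 3
  have g0 := congrFun heq 0
  have g1 := congrFun heq 1
  have g2 := congrFun heq 2
  have g3 := congrFun heq 3
  simp only [xv, Matrix.cons_val_zero, Matrix.cons_val_one, Matrix.cons_val] at f0 f1 f2 f3 g0 g1 g2 g3
  simp only at m1 m2 m3 m4 m1' m2' m3' m4'
  have r : ∀ z ∈ A, ∀ z' ∈ A, F z = F z' → u z = u z' → z = z' := by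
    intro z hz z' hz' h1 h2
    rw [h.eq z hz, h.eq z' hz', h1, h2]
  rw [r a m1 a' m1' f0 g0, r b m2 b' m2' f1 g1, r c m3 c' m3' f2 g2, r e m4 e' m4' f3 g3]

lemma over_sol {A X : Finset ℤ} {d : ℤ} {H : ℕ} {F u : ℤ → ℤ} (h : Cov A X d H F u)
    (hd : 0 < d) (x : Fin 4 → ℤ) : Sol d x H ((ovr A H F x).image (xv u)) := by
  have key : ∀ t ∈ ovr A H F x, (∀ i, 0 ≤ xv u t i ∧ xv u t i < H) ∧
      (fun i => x i + d * xv u t i) = ![t.1.1, t.1.2, t.2.1, t.2.2] ∧
      (∀ i, 0 < (![t.1.1, t.1.2, t.2.1, t.2.2] : Fin 4 → ℤ) i) ∧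
      t.1.1 * t.1.2 = t.2.1 * t.2.2 ∧
      (∀ p ∈ Finset.Icc (1 : ℤ) H, ∀ q ∈ Finset.Icc (1 : ℤ) H,
        q * t.1.1 ≠ p * t.2.1 ∧ q * t.1.1 ≠ p * t.2.2) := by
    intro t ht
    rw [ovr, mem_filter, nonShort, mem_filter, mem_quads] at ht
    obtain ⟨⟨⟨⟨⟨m1, m2⟩, m3, m4⟩, m5⟩, m6⟩, hx⟩ := ht
    refine ⟨?_, ?_, ?_, m5, m6⟩
    · intro i
      fin_cases i
      · exact ⟨h.lo _ m1, h.hi _ m1⟩
      · exact ⟨h.lo _ m2, h.hi _ m2⟩
      · exact ⟨h.lo _ m3, h.hi _ m3⟩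
      · exact ⟨h.lo _ m4, h.hi _ m4⟩
    · funext i
      rw [← hx]
      fin_cases i
      · exact (h.eq _ m1).symm
      · exact (h.eq _ m2).symm
      · exact (h.eq _ m3).symm
      · exact (h.eq _ m4).symm
    · intro i
      fin_cases i
      · exact h.pos _ m1
      · exact h.pos _ m2
      · exact h.pos _ m3
      · exact h.pos _ m4
  refine ⟨?_, ?_, ?_⟩
  · intro v hv i
    obtain ⟨t, ht, rfl⟩ := mem_image.1 hv
    exact (key t ht).1 i
  · intro v hv
    obtain ⟨t, ht, rfl⟩ := mem_image.1 hv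
    rw [(key t ht).2.1]
    have := (key t ht).2.2.2.1
    simp only [qf, Matrix.cons_val_zero, Matrix.cons_val_one, Matrix.cons_val]
    linarith
  · intro v hv w hw hvw hq
    obtain ⟨t, ht, rfl⟩ := mem_image.1 hv
    obtain ⟨t', ht', rfl⟩ := mem_image.1 hw
    obtain ⟨k1, k2, k3, k4, k5⟩ := key t ht
    obtain ⟨k1', k2', k3', k4', k5'⟩ := key t' ht'
    have z1 : qf (fun i => x i + d * xv u t i) = 0 := by
      rw [k2]
      simp only [qf, Matrix.cons_val_zero, Matrix.cons_val_one, Matrix.cons_val]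
      linarith
    have z2 : qf (fun i => x i + d * xv u t' i) = 0 := by
      rw [k2']
      simp only [qf, Matrix.cons_val_zero, Matrix.cons_val_one, Matrix.cons_val]
      linarith
    have hne : ∃ i, (fun i => xv u t' i - xv u t i) i ≠ 0 := by
      by_contra h0
      push Not at h0
      apply hvw
      funext i
      have := h0 i
      linarith
    have hb : bil (fun i => x i + d * xv u t i) (fun i => xv u t' i - xv u t i) = 0 := by
      apply mul_left_cancel₀ hd.ne'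
      unfold qf at z1 z2 hq
      unfold bil
      linear_combination z2 - z1 - d ^ 2 * hq
    have hH : ∀ i, |(fun i => xv u t' i - xv u t i) i| < H := by
      intro i
      have := k1 i
      have := k1' i
      rw [abs_lt]
      constructor <;> simp only <;> linarith
    obtain ⟨p, hp, q, hq', hpq⟩ := short_of_isotropic (fun i => x i + d * xv u t i)
      (fun i => xv u t' i - xv u t i) H (fun i => by rw [show x i + d * xv u t i = _ from congrFun k2 i]; exact k3 i)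
      hne hH z1 hq hb
    have y0 := congrFun k2 0
    have y2 := congrFun k2 2
    have y3 := congrFun k2 3
    simp only [Matrix.cons_val_zero, Matrix.cons_val] at y0 y2 y3
    simp only [y0, y2, y3] at hpq
    rcases hpq with hpq | hpq
    · exact (k5 p hp q hq').1 hpq
    · exact (k5 p hp q hq').2 hpq

/-- the translates of one quadruple are all related to one of them -/
def Big (d : ℤ) (H : ℕ) (x : Fin 4 → ℤ) : Prop := ∃ k : Fin 4, ∀ i, Rel d (24 * H ^ 4) (x i) (x k)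

lemma card_over_le {A X : Finset ℤ} {d : ℤ} {H : ℕ} {F u : ℤ → ℤ} (h : Cov A X d H F u)
    (hd : 0 < d) (hH : 1 ≤ H) (x : Fin 4 → ℤ) (hx : ¬ Big d H x) :
    (∀ R : ℕ, 1 ≤ R → (ovr A H F x).card ≤ 4 * (H / R + 1 + 4 * R ^ 2)) ∧
    (ovr A H F x).card ≤ ∑ i : Fin 4, 2 * (A.filter (fun a => F a = x i)).card := by
  have hS := over_sol h hd x
  have hc : ((ovr A H F x).image (xv u)).card = (ovr A H F x).card :=
    card_image_of_injOn (over_inj h x)
  rcases lemmaJ hS hd.ne' hH with h1 | ⟨h1, i, h2⟩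
  · exact absurd h1 hx
  refine ⟨fun R hR => hc ▸ h1 R hR, ?_⟩
  rw [hc] at h2
  refine h2.trans ?_
  refine le_trans ?_ (single_le_sum (f := fun i : Fin 4 =>
    2 * (A.filter (fun a => F a = x i)).card) (fun _ _ => Nat.zero_le _) (mem_univ i))
  apply Nat.mul_le_mul_left
  -- the values of coordinate i come from elements over x i
  have hsub : ((ovr A H F x).image (xv u)).image (fun v => v i) ⊆
      (A.filter (fun a => F a = x i)).image u := by
    intro z hz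
    rw [mem_image] at hz
    obtain ⟨v, hv, rfl⟩ := hz
    obtain ⟨t, ht, rfl⟩ := mem_image.1 hv
    rw [ovr, mem_filter, nonShort, mem_filter, mem_quads] at ht
    obtain ⟨⟨⟨⟨⟨m1, m2⟩, m3, m4⟩, m5⟩, m6⟩, hx⟩ := ht
    rw [mem_image]
    have hxi := congrFun hx i
    fin_cases i
    · exact ⟨_, mem_filter.2 ⟨m1, hxi⟩, rfl⟩
    · exact ⟨_, mem_filter.2 ⟨m2, hxi⟩, rfl⟩
    · exact ⟨_, mem_filter.2 ⟨m3, hxi⟩, rfl⟩
    · exact ⟨_, mem_filter.2 ⟨m4, hxi⟩, rfl⟩
  exact (card_le_card hsub).trans card_image_le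

lemma sum_fibres {A X : Finset ℤ} {d : ℤ} {H : ℕ} {F u : ℤ → ℤ} (h : Cov A X d H F u) :
    ∑ y ∈ X, (A.filter (fun a => F a = y)).card = A.card :=
  (card_eq_sum_card_fiberwise (f := F) (t := X) (fun a ha => h.mem a ha)).symm

theorem nonShort_le {A X : Finset ℤ} {d : ℤ} {H : ℕ} {F u : ℤ → ℤ} (h : Cov A X d H F u)
    (hd : 0 < d) (hH : 1 ≤ H) :
    (∀ R : ℕ, 1 ≤ R → (nonShort A H).card ≤ X.card ^ 4 * (4 * (H / R + 1 + 4 * R ^ 2)) +
      ∑ θ ∈ X, emul (As A F d H θ)) ∧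
    (nonShort A H).card ≤ 8 * X.card ^ 3 * A.card + ∑ θ ∈ X, emul (As A F d H θ) := by
  classical
  set P : Finset (Fin 4 → ℤ) := Fintype.piFinset (fun _ => X) with hP
  have hxP : ∀ t ∈ nonShort A H, xv F t ∈ P := by
    intro t ht
    rw [nonShort, mem_filter, mem_quads] at ht
    obtain ⟨⟨⟨⟨m1, m2⟩, m3, m4⟩, m5⟩, m6⟩ := ht
    rw [hP, Fintype.mem_piFinset]
    intro i
    fin_cases i
    · exact h.mem _ m1
    · exact h.mem _ m2
    · exact h.mem _ m3
    · exact h.mem _ m4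
  have hsplit : (nonShort A H).card = ((nonShort A H).filter (fun t => Big d H (xv F t))).card +
      ((nonShort A H).filter (fun t => ¬ Big d H (xv F t))).card :=
    (card_filter_add_card_filter_not _).symm
  have hbig : ((nonShort A H).filter (fun t => Big d H (xv F t))).card ≤
      ∑ θ ∈ X, emul (As A F d H θ) := by
    have : (nonShort A H).filter (fun t => Big d H (xv F t)) ⊆
        X.biUnion (fun θ => quads (As A F d H θ)) := by
      intro t ht
      rw [mem_filter] at ht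
      obtain ⟨ht, k, hk⟩ := ht
      have hxk := hxP t ht
      rw [hP, Fintype.mem_piFinset] at hxk
      rw [nonShort, mem_filter, mem_quads] at ht
      obtain ⟨⟨⟨⟨m1, m2⟩, m3, m4⟩, m5⟩, m6⟩ := ht
      rw [mem_biUnion]
      refine ⟨xv F t k, hxk k, ?_⟩
      rw [mem_quads]
      simp only [As, mem_filter]
      exact ⟨⟨⟨⟨m1, hk 0⟩, m2, hk 1⟩, ⟨m3, hk 2⟩, m4, hk 3⟩, m5⟩
    exact (card_le_card this).trans card_biUnion_le
  have hnb : ((nonShort A H).filter (fun t => ¬ Big d H (xv F t))).card =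
      ∑ x ∈ P.filter (fun x => ¬ Big d H x), (ovr A H F x).card := by
    rw [card_eq_sum_card_fiberwise (f := xv F) (t := P.filter (fun x => ¬ Big d H x))]
    · refine sum_congr rfl fun x hx => ?_
      congr 1
      ext t
      rw [ovr, mem_filter, mem_filter, mem_filter]
      constructor
      · rintro ⟨⟨h1, h2⟩, h3⟩
        exact ⟨h1, h3⟩
      · rintro ⟨h1, h3⟩
        refine ⟨⟨h1, ?_⟩, h3⟩
        rw [h3]
        exact (mem_filter.1 hx).2
    · intro t ht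
      rw [mem_coe, mem_filter] at ht
      rw [mem_coe, mem_filter]
      exact ⟨hxP t ht.1, ht.2⟩
  have hPc : P.card = X.card ^ 4 := by
    rw [hP, Fintype.card_piFinset]
    simp
  constructor
  · intro R hR
    rw [hsplit, hnb, add_comm]
    refine Nat.add_le_add ?_ hbig
    calc ∑ x ∈ P.filter (fun x => ¬ Big d H x), (ovr A H F x).card
        ≤ ∑ x ∈ P.filter (fun x => ¬ Big d H x), 4 * (H / R + 1 + 4 * R ^ 2) :=
          sum_le_sum fun x hx => (card_over_le h hd hH x (mem_filter.1 hx).2).1 R hR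
      _ = (P.filter (fun x => ¬ Big d H x)).card * (4 * (H / R + 1 + 4 * R ^ 2)) := by
          rw [sum_const, smul_eq_mul]
      _ ≤ X.card ^ 4 * (4 * (H / R + 1 + 4 * R ^ 2)) := by
          rw [← hPc]
          exact Nat.mul_le_mul_right _ (card_le_card (filter_subset _ _))
  · rw [hsplit, hnb, add_comm]
    refine Nat.add_le_add ?_ hbig
    calc ∑ x ∈ P.filter (fun x => ¬ Big d H x), (ovr A H F x).card
        ≤ ∑ x ∈ P.filter (fun x => ¬ Big d H x),
          ∑ i : Fin 4, 2 * (A.filter (fun a => F a = x i)).card :=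
          sum_le_sum fun x hx => (card_over_le h hd hH x (mem_filter.1 hx).2).2
      _ ≤ ∑ x ∈ P, ∑ i : Fin 4, 2 * (A.filter (fun a => F a = x i)).card :=
          sum_le_sum_of_subset (filter_subset _ _)
      _ = ∑ i : Fin 4, ∑ x ∈ P, 2 * (A.filter (fun a => F a = x i)).card := sum_comm
      _ = ∑ i : Fin 4, X.card ^ 3 * (2 * A.card) := by
          refine sum_congr rfl fun i _ => ?_
          have := Fintype.sum_piFinset_apply
            (fun y : ℤ => 2 * (A.filter (fun a => F a = y)).card) X i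
          rw [hP, this, ← mul_sum, sum_fibres h, smul_eq_mul]
          simp
      _ = 8 * X.card ^ 3 * A.card := by
          rw [sum_const, card_univ, Fintype.card_fin, smul_eq_mul]
          ring

theorem total1 {A X : Finset ℤ} {d : ℤ} {H : ℕ} {F u : ℤ → ℤ} (h : Cov A X d H F u)
    (hd : 0 < d) (hH : 1 ≤ H) (T : ℕ)
    (hT : ∀ n : ℕ, 1 ≤ n → n ≤ 8 * (48 * H ^ 5) ^ 5 → n.divisors.card ≤ T)
    (K R s : ℕ) (hK : 1 ≤ K) (hR : 1 ≤ R) (hs : ∀ θ ∈ X, (As A F d H θ).card ≤ s) :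
    K * emul A ≤ 2 * (K ^ 3 * A.card ^ 2 + 4 * A.card * X.card ^ 2 * H +
      4 * K * A.card ^ 2 * T ^ 8) + K * (X.card ^ 4 * (4 * (H / R + 1 + 4 * R ^ 2)) +
      X.card * (2 * s ^ 2 * T ^ 8)) := by
  have hle : 8 * (4 * H ^ 3) ^ 5 ≤ 8 * (48 * H ^ 5) ^ 5 := by
    apply Nat.mul_le_mul_left
    apply Nat.pow_le_pow_left
    calc 4 * H ^ 3 ≤ 48 * H ^ 3 := Nat.mul_le_mul_right _ (by norm_num)
      _ ≤ 48 * H ^ 5 := Nat.mul_le_mul_left _ (Nat.pow_le_pow_right hH (by norm_num))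
  have h1 := short_bound h hd T (fun n hn hn' => hT n hn (hn'.trans hle)) K hK
  have h2 := (nonShort_le h hd hH).1 R hR
  have h3 : ∑ θ ∈ X, emul (As A F d H θ) ≤ X.card * (2 * s ^ 2 * T ^ 8) := by
    calc ∑ θ ∈ X, emul (As A F d H θ) ≤ ∑ θ ∈ X, 2 * s ^ 2 * T ^ 8 := by
          refine sum_le_sum fun θ hθ => (emul_As h hd hH θ T hT).trans ?_
          have := hs θ hθ
          gcongr
      _ = _ := by rw [sum_const, smul_eq_mul]
  calc K * emul A ≤ K * (2 * (shortQ A H).card + (nonShort A H).card) :=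
        Nat.mul_le_mul_left _ (emul_le A H)
    _ = 2 * (K * (shortQ A H).card) + K * (nonShort A H).card := by ring
    _ ≤ _ := Nat.add_le_add (Nat.mul_le_mul_left _ h1)
        (Nat.mul_le_mul_left _ (h2.trans (Nat.add_le_add_left h3 _)))

theorem total2 {A X : Finset ℤ} {d : ℤ} {H : ℕ} {F u : ℤ → ℤ} (h : Cov A X d H F u)
    (hd : 0 < d) (hH : 1 ≤ H) (T : ℕ)
    (hT : ∀ n : ℕ, 1 ≤ n → n ≤ 8 * (48 * H ^ 5) ^ 5 → n.divisors.card ≤ T) :
    emul A ≤ 2 * (4 * A.card ^ 2 * T ^ 8 + 2 * X.card * A.card ^ 2) +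
      (8 * X.card ^ 3 * A.card + X.card * (2 * A.card ^ 2 * T ^ 8)) := by
  classical
  have hle : 8 * (4 * H ^ 3) ^ 5 ≤ 8 * (48 * H ^ 5) ^ 5 := by
    apply Nat.mul_le_mul_left
    apply Nat.pow_le_pow_left
    calc 4 * H ^ 3 ≤ 48 * H ^ 3 := Nat.mul_le_mul_right _ (by norm_num)
      _ ≤ 48 * H ^ 5 := Nat.mul_le_mul_left _ (Nat.pow_le_pow_right hH (by norm_num))
  have h1 := short_bound' h hd T (fun n hn hn' => hT n hn (hn'.trans hle))
  have h2 := (nonShort_le h hd hH).2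
  have h3 : ∑ θ ∈ X, emul (As A F d H θ) ≤ X.card * (2 * A.card ^ 2 * T ^ 8) := by
    calc ∑ θ ∈ X, emul (As A F d H θ) ≤ ∑ θ ∈ X, 2 * A.card ^ 2 * T ^ 8 := by
          refine sum_le_sum fun θ hθ => (emul_As h hd hH θ T hT).trans ?_
          have : (As A F d H θ).card ≤ A.card := by
            rw [As]
            exact card_le_card (filter_subset _ _)
          gcongr
      _ = _ := by rw [sum_const, smul_eq_mul]
  calc emul A ≤ 2 * (shortQ A H).card + (nonShort A H).card := emul_le A H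
    _ ≤ _ := Nat.add_le_add (Nat.mul_le_mul_left _ h1) (h2.trans (Nat.add_le_add_left h3 _))

end Pool.Agent.Lib.SAP
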